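import Pool.Agent.Lib.MP_e8f12b_an.BD.Tan

/-! The area form of the surface and its invariance. -/

open scoped Manifold ContDiff Topology
open Set Real

noncomputable section

namespace BD

theorem det2_mat (a b c d : ℝ) (v w : E2) :
    det2 (mat a b c d v) (mat a b c d w) = (a * d - b * c) * det2 v w := by
  simp only [det2, mat_apply_zero, mat_apply_one]
  ring

theorem det2_bv : det2 (bv 0) (bv 1) = 1 := by
  simp [det2]

/-- The area form of the surface. -/
def areaForm : Surf → E2 → E2 → ℝ := fun _ => det2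

theorem coef_of {e : OpenPartialHomeomorph Surf H2} {y : H2} {a b c d : ℝ}
    (h : HasMFDerivAt (𝓡∂ 2) (𝓡∂ 2) e.symm y (mat a b c d)) :
    coef e areaForm y = a * d - b * c := by
  have h1 := h.mfderiv
  have h2 : coef e areaForm y = det2 (mat a b c d (bv 0)) (mat a b c d (bv 1)) := by
    unfold coef areaForm
    rw [DP_eq, DP_eq, h1]
    rfl
  rw [h2, det2_mat, det2_bv, mul_one]

theorem coef_eq_one {e : OpenPartialHomeomorph Surf H2} (he : e ∈ atlas H2 Surf) {y : H2}
    (hy : y ∈ e.target) : coef e areaForm y = 1 := by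
  rcases he with ⟨t₀, rfl⟩ | ⟨c₀, rfl⟩
  · rw [coef_of (intC_symm_deriv hy)]
    norm_num
  · rcases y.2.eq_or_lt with h0 | h0
    · rw [coef_of (colC_symm_deriv0 hy h0.symm)]
      norm_num
    · have hr : (0 : ℝ) < √(2 * y.1 0) := Real.sqrt_pos.2 (by positivity)
      rw [coef_of (colC_symm_deriv hy h0)]
      have h1 := Circle.normSq_coe (cz c₀ y.1)
      rw [Complex.normSq_apply] at h1
      generalize √(2 * y.1 0) = r at hr ⊢
      field_simp
      linarith

theorem isAreaForm : IsAreaForm areaForm := by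
  refine ⟨fun x => ⟨1, fun v w => by rw [one_mul]; rfl⟩, fun e he => ⟨?_, fun y hy => ?_⟩⟩
  · refine (contDiffOn_const (c := (1 : ℝ))).congr ?_
    rintro z ⟨y, hy, rfl⟩
    rw [(𝓡∂ 2).left_inv]
    exact coef_eq_one he hy
  · rw [coef_eq_one he hy]
    exact one_ne_zero

theorem conservative_of {f : Surf → Surf} {x : Surf} {a b c d : ℝ}
    (h : HasMFDerivAt (𝓡∂ 2) (𝓡∂ 2) f x (mat a b c d)) (hd : a * d - b * c = 1) (v w : E2) :
    areaForm (f x) (D f x v) (D f x w) = areaForm x v w := by
  have h1 := h.mfderiv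
  rw [D_eq, D_eq, h1]
  have h2 := det2_mat a b c d v w
  rw [hd, one_mul] at h2
  exact h2

theorem Mx.conservative (B : Mx) : Conservative areaForm B.map := by
  intro x v w
  by_cases h : tt x = 1
  · obtain ⟨c, rfl⟩ : ∃ c, x = bd c := ⟨_, eq_bd h⟩
    refine conservative_of (B.map_deriv_bd c) ?_ v w
    have := B.norm_lin_pos c
    field_simp
    ring
  · exact conservative_of (B.map_deriv_int h) B.detR v w

end BD
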