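import Pool.Agent.Lib.MP_e8f12b_an.BD.Pre

/-! Calculus near the boundary. -/

open scoped Manifold ContDiff Topology
open Set

noncomputable section

namespace BD

theorem partial_zero {E : E2 → E2} {D : E2 →L[ℝ] E2} {p : E2}
    (hE : HasFDerivWithinAt E D (range (𝓡∂ 2)) p) (hp : p 0 = 0)
    (h0 : ∀ z : E2, z 0 = 0 → E z 0 = 0) : D (bv 1) 0 = 0 := by
  have hc : HasDerivAt (fun t : ℝ => p + t • bv 1) (bv 1) 0 := by
    have h1 := ((hasDerivAt_id (0 : ℝ)).smul_const (bv 1)).const_add p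
    simpa using h1
  have hmem : ∀ t : ℝ, (p + t • bv 1) 0 = 0 := fun t => by simp [hp]
  have hE' : HasFDerivWithinAt E D (range (𝓡∂ 2)) (p + (0 : ℝ) • bv 1) := by simpa using hE
  have h2 := HasFDerivWithinAt.comp_hasDerivAt (0 : ℝ) hE' hc
    (Filter.Eventually.of_forall fun t => by
      rw [range_I]
      exact (hmem t).ge)
  have h3 := (hasFDerivAt_coord_zero (E (p + (0 : ℝ) • bv 1))).comp_hasDerivAt (0 : ℝ) h2
  have h4 : HasDerivAt (fun t : ℝ => E (p + t • bv 1) 0) (row 1 0 (D (bv 1))) 0 := h3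
  have h5 : (fun t : ℝ => E (p + t • bv 1) 0) = fun _ => 0 := by
    funext t
    exact h0 _ (hmem t)
  rw [h5] at h4
  have h6 := h4.unique (hasDerivAt_const (0 : ℝ) (0 : ℝ))
  simpa using h6

/-- The sector. -/
def sector (ρ θ : ℝ) : Set E2 := {z | 0 ≤ z 0 ∧ z 0 ≤ ρ ∧ |z 1| ≤ θ}

theorem convex_sector (ρ θ : ℝ) : Convex ℝ (sector ρ θ) := by
  intro x hx y hy a b ha hb hab
  obtain ⟨x0, x1, x2⟩ := hx
  obtain ⟨y0, y1, y2⟩ := hy
  have e0 : (a • x + b • y) 0 = a * x 0 + b * y 0 := by simp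
  have e1 : (a • x + b • y) 1 = a * x 1 + b * y 1 := by simp
  refine ⟨?_, ?_, ?_⟩
  · rw [e0]
    positivity
  · rw [e0]
    calc a * x 0 + b * y 0 ≤ a * ρ + b * ρ := by gcongr
      _ = ρ := by rw [← add_mul, hab, one_mul]
  · rw [e1]
    calc |a * x 1 + b * y 1| ≤ |a * x 1| + |b * y 1| := abs_add_le _ _
      _ = a * |x 1| + b * |y 1| := by rw [abs_mul, abs_mul, abs_of_nonneg ha, abs_of_nonneg hb]
      _ ≤ a * θ + b * θ := by gcongr
      _ = θ := by rw [← add_mul, hab, one_mul]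

theorem sector_subset (ρ θ : ℝ) : sector ρ θ ⊆ range (𝓡∂ 2) := by
  rw [range_I]
  exact fun z hz => hz.1

theorem norm_sub_mk (z : E2) (h : 0 ≤ z 0) : ‖z - mk 0 (z 1)‖ = z 0 := by
  have h1 : z - mk 0 (z 1) = z 0 • bv 0 := E2.ext (by simp) (by simp)
  rw [h1, norm_smul, Real.norm_eq_abs, abs_of_nonneg h]
  simp [bv]

variable {E : E2 → E2} {ρ θ ε : ℝ}

theorem mk_mem_sector {z : E2} (hz : z ∈ sector ρ θ) : mk 0 (z 1) ∈ sector ρ θ :=
  ⟨le_rfl, hz.1.trans hz.2.1, hz.2.2⟩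

theorem calc0 (hE : ∀ z ∈ sector ρ θ, ContDiffWithinAt ℝ ∞ E (range (𝓡∂ 2)) z)
    (hb : ∀ z ∈ sector ρ θ, ∀ j ≤ 2, ‖iteratedFDerivWithin ℝ j E (range (𝓡∂ 2)) z‖ ≤ ε)
    (h0 : ∀ z : E2, z 0 = 0 → E z 0 = 0) {z : E2} (hz : z ∈ sector ρ θ) :
    ‖E z‖ ≤ ε ∧ ‖fderivWithin ℝ E (range (𝓡∂ 2)) z‖ ≤ ε ∧ |E z 0| ≤ ε * z 0 ∧
      |fderivWithin ℝ E (range (𝓡∂ 2)) z (bv 1) 0| ≤ ε * z 0 := by
  have hu : ∀ w ∈ sector ρ θ, UniqueDiffWithinAt ℝ (range (𝓡∂ 2)) w := fun w hw =>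
    (𝓡∂ 2).uniqueDiffOn _ (sector_subset _ _ hw)
  have b0 : ∀ w ∈ sector ρ θ, ‖E w‖ ≤ ε := fun w hw => by
    have := hb w hw 0 (by norm_num)
    rwa [norm_iteratedFDerivWithin_zero] at this
  have b1 : ∀ w ∈ sector ρ θ, ‖fderivWithin ℝ E (range (𝓡∂ 2)) w‖ ≤ ε := fun w hw => by
    have := hb w hw 1 (by norm_num)
    rwa [norm_iteratedFDerivWithin_one _ (hu w hw)] at this
  have b2 : ∀ w ∈ sector ρ θ,
      ‖fderivWithin ℝ (fderivWithin ℝ E (range (𝓡∂ 2))) (range (𝓡∂ 2)) w‖ ≤ ε := fun w hw => by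
    have := hb w hw 2 le_rfl
    rw [← norm_iteratedFDerivWithin_fderivWithin (𝓡∂ 2).uniqueDiffOn (sector_subset _ _ hw),
      norm_iteratedFDerivWithin_one _ (hu w hw)] at this
    exact this
  have d1 : ∀ w ∈ sector ρ θ, HasFDerivWithinAt E (fderivWithin ℝ E (range (𝓡∂ 2)) w)
      (sector ρ θ) w := fun w hw =>
    ((hE w hw).differentiableWithinAt (by simp)).hasFDerivWithinAt.mono (sector_subset _ _)
  have d2 : ∀ w ∈ sector ρ θ, HasFDerivWithinAt (fderivWithin ℝ E (range (𝓡∂ 2)))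
      (fderivWithin ℝ (fderivWithin ℝ E (range (𝓡∂ 2))) (range (𝓡∂ 2)) w)
      (sector ρ θ) w := fun w hw => by
    have h1 : ContDiffWithinAt ℝ 1 (fderivWithin ℝ E (range (𝓡∂ 2))) (range (𝓡∂ 2)) w :=
      (hE w hw).fderivWithin_right (𝓡∂ 2).uniqueDiffOn (by norm_cast) (sector_subset _ _ hw)
    exact (h1.differentiableWithinAt (by simp)).hasFDerivWithinAt.mono (sector_subset _ _)
  have hz' := mk_mem_sector hz
  have hn := norm_sub_mk z hz.1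
  have m1 := (convex_sector ρ θ).norm_image_sub_le_of_norm_hasFDerivWithin_le d1 b1 hz' hz
  have m2 := (convex_sector ρ θ).norm_image_sub_le_of_norm_hasFDerivWithin_le d2 b2 hz' hz
  rw [hn] at m1 m2
  have cl : ∀ (v : E2) (i : Fin 2), |v i| ≤ ‖v‖ := fun v i => by
    rw [← Real.norm_eq_abs]
    exact PiLp.norm_apply_le v i
  refine ⟨b0 z hz, b1 z hz, ?_, ?_⟩
  · have h1 := (cl (E z - E (mk 0 (z 1))) 0).trans m1
    have h2 : (E z - E (mk 0 (z 1))) 0 = E z 0 - E (mk 0 (z 1)) 0 := rfl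
    rw [h2, h0 _ (mk_zero _ _), sub_zero] at h1
    exact h1
  · have h3 := partial_zero ((hE _ hz').differentiableWithinAt (by simp)).hasFDerivWithinAt
      (mk_zero _ _) h0
    have h4 := (fderivWithin ℝ E (range (𝓡∂ 2)) z -
      fderivWithin ℝ E (range (𝓡∂ 2)) (mk 0 (z 1))).le_opNorm (bv 1)
    have hb1 : ‖bv 1‖ = 1 := by simp [bv]
    rw [hb1, mul_one] at h4
    have h5 := (cl _ 0).trans (h4.trans m2)
    have h6 : ((fderivWithin ℝ E (range (𝓡∂ 2)) z -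
      fderivWithin ℝ E (range (𝓡∂ 2)) (mk 0 (z 1))) (bv 1)) 0 =
        fderivWithin ℝ E (range (𝓡∂ 2)) z (bv 1) 0 -
          fderivWithin ℝ E (range (𝓡∂ 2)) (mk 0 (z 1)) (bv 1) 0 := rfl
    rw [h6, h3, sub_zero] at h5
    exact h5

end BD
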