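import Pool.Agent.Lib.MP_e8f12b_an.BD.Mfd
import Pool.Agent.Lib.MP_e8f12b_an.BD.Calc

/-! Diffeomorphisms preserve the boundary. -/

open scoped Manifold ContDiff Topology
open Set Real

noncomputable section

namespace BD

theorem isInteriorPoint_iff' (x : Surf) : (𝓡∂ 2).IsInteriorPoint x ↔ tt x ≠ 1 := by
  have h : (𝓡∂ 2).IsInteriorPoint x ↔ 0 < ((𝓡∂ 2) (chartAt H2 x x)) 0 := by
    change extChartAt (𝓡∂ 2) x x ∈ interior (range (𝓡∂ 2)) ↔ _
    rw [interior_range_modelWithCornersEuclideanHalfSpace]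
    rfl
  rw [h]
  by_cases hx : tt x = 1
  · rw [chartAt_bd hx, colC_val, mk_zero, rr_eq_zero.2 hx]
    simp [hx]
  · have h1 : tt x / tt x = 1 := div_self' _
    rw [chartAt_int hx, intC_val, mk_zero, h1, L_one, Complex.zero_re]
    simp [hx]

theorem Dfm.tt_eq_one (g : Dfm) {x : Surf} : tt (g x) = 1 ↔ tt x = 1 := by
  have h := Diffeomorph.preimage_interior (by simp) g
  have h1 : x ∈ g ⁻¹' ((𝓡∂ 2).interior Surf) ↔ x ∈ (𝓡∂ 2).interior Surf := by rw [h]
  have h2 : (𝓡∂ 2).IsInteriorPoint (g x) ↔ (𝓡∂ 2).IsInteriorPoint x := h1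
  rw [isInteriorPoint_iff', isInteriorPoint_iff'] at h2
  exact not_iff_not.1 h2

end BD
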