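import Pool.Agent.Lib.MP_e8f12b_an.BD.Tan

/-! The boundary direction is a continuous section over the boundary. -/

open scoped Manifold ContDiff Topology
open Set Real Bundle

noncomputable section

namespace BD

/-- The change of boundary charts has derivative the identity on the boundary. -/
theorem colC_change {c₀ c₁ : Circle} {p : E2} (hp : p 0 = 0)
    (h : bd (cz c₀ p) ∈ (colC c₁).source) :
    HasFDerivWithinAt (fun z => (𝓡∂ 2) (colC c₁ ((colC c₀).symm ((𝓡∂ 2).symm z))))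
      (mat 1 0 0 1) (range (𝓡∂ 2)) p := by
  have h1 : Mx.one.lin (cz c₀ p) / (c₁ : ℂ) ∈ Complex.slitPlane := by
    have := h.2
    rw [cs_bd] at this
    rw [Mx.one_lin]
    exact this
  have h2 := Mx.one.hasFDeriv_Fcol (S := range (𝓡∂ 2)) c₀ c₁ h1
  have e1 := Mx.one.col_ev c₀ c₁ hp
  have h3 := h2.congr_of_eventuallyEq e1
    (e1.self_of_nhdsWithin (by rw [range_I]; exact hp.ge))
  simp only [Mx.one_map, Mx.one_lin, Circle.norm_coe, hp] at h3
  convert h3 using 2 <;> norm_num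

theorem uniqueDiffWithinAt_I {p : E2} (hp : 0 ≤ p 0) :
    UniqueDiffWithinAt ℝ (range (𝓡∂ 2)) p :=
  (𝓡∂ 2).uniqueDiffOn p (by rw [range_I]; exact hp)

theorem continuous_bdVec :
    Continuous fun c : Circle => (⟨bd c, bv 1⟩ : TangentBundle (𝓡∂ 2) Surf) := by
  rw [continuous_iff_continuousAt]
  intro c₁
  rw [FiberBundle.continuousAt_totalSpace]
  refine ⟨continuous_bd.continuousAt, ?_⟩
  have hev : ∀ᶠ c in 𝓝 c₁, bd c ∈ (chartAt H2 (bd c₁)).source :=
    continuous_bd.continuousAt.eventually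
      ((chartAt H2 (bd c₁)).open_source.mem_nhds (mem_chart_source H2 (bd c₁)))
  have hc : ContinuousAt (fun _ : Circle => bv 1) c₁ := continuousAt_const
  refine hc.congr ?_
  filter_upwards [hev] with c h
  rw [TangentBundle.trivializationAt_apply]
  have hr : rr (bd c) = 0 := rr_eq_zero.2 (tt_bd c)
  have hp : (𝓡∂ 2) (chartAt H2 (bd c) (bd c)) = mk 0 0 := by
    have ha : ((cs (bd c) / c : Circle) : ℂ).arg = 0 := by
      rw [cs_bd, div_self', Circle.coe_one, Complex.arg_one]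
    rw [chartAt_bd (tt_bd c), cs_bd, colC_val, hr, ha]
    norm_num
  have hcz : cz c (mk 0 0) = c := by rw [cz, mk_one, Circle.exp_zero, mul_one]
  have h1 : chartAt H2 (bd c₁) = colC c₁ := by rw [chartAt_bd (tt_bd _), cs_bd]
  have h2 : chartAt H2 (bd c) = colC c := by rw [chartAt_bd (tt_bd _), cs_bd]
  have h3 := colC_change (c₀ := c) (c₁ := c₁) (p := mk 0 0) rfl
    (by rw [hcz, ← h1]; exact h)
  have h4 := h3.fderivWithin (uniqueDiffWithinAt_I (p := mk 0 0) le_rfl)
  change bv 1 = fderivWithin ℝ (fun z => (𝓡∂ 2) (chartAt H2 (bd c₁)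
    ((chartAt H2 (bd c)).symm ((𝓡∂ 2).symm z)))) (range (𝓡∂ 2))
    ((𝓡∂ 2) (chartAt H2 (bd c) (bd c))) (bv 1)
  rw [hp, h1, h2, h4]
  exact (E2.ext (by simp) (by simp))

end BD
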