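import Pool.Agent.Lib.MP_e8f12b_an.BD.Pre

/-! Matrices with positive entries. -/

open scoped Manifold ContDiff Topology
open Set

noncomputable section

namespace BD

/-- All entries are positive. -/
def PosM (M : E2 →L[ℝ] E2) : Prop := ∀ i j : Fin 2, 0 < M (bv j) i

theorem PosM.mat {a b c d : ℝ} (ha : 0 < a) (hb : 0 < b) (hc : 0 < c) (hd : 0 < d) :
    PosM (mat a b c d) := by
  intro i j
  fin_cases i <;> fin_cases j <;> simpa

theorem PosM.comp {M N : E2 →L[ℝ] E2} (hM : PosM M) (hN : PosM N) : PosM (M.comp N) := by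
  rw [eq_mat M, eq_mat N, mat_comp]
  have a1 := hM 0 0
  have a2 := hM 0 1
  have a3 := hM 1 0
  have a4 := hM 1 1
  have b1 := hN 0 0
  have b2 := hN 0 1
  have b3 := hN 1 0
  have b4 := hN 1 1
  exact PosM.mat (by positivity) (by positivity) (by positivity) (by positivity)

theorem PosM.eigen {M : E2 →L[ℝ] E2} (hM : PosM M) : ∃ (t : ℝ) (v : E2), v ≠ 0 ∧ M v = t • v := by
  have h := eq_mat M
  have a1 := hM 0 0
  have a2 := hM 0 1
  have a3 := hM 1 0
  have a4 := hM 1 1
  set a := M (bv 0) 0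
  set b := M (bv 1) 0
  set c := M (bv 0) 1
  set d := M (bv 1) 1
  have hD : 0 ≤ (a - d) ^ 2 + 4 * (b * c) := by positivity
  refine ⟨(a + d + √((a - d) ^ 2 + 4 * (b * c))) / 2,
    mk b ((a + d + √((a - d) ^ 2 + 4 * (b * c))) / 2 - a), ?_, ?_⟩
  · intro h0
    have h1 : (mk b ((a + d + √((a - d) ^ 2 + 4 * (b * c))) / 2 - a)) 0 = (0 : E2) 0 := by
      rw [h0]
    rw [mk_zero] at h1
    simp at h1
    exact a2.ne' h1
  · have hs := Real.sq_sqrt hD
    generalize √((a - d) ^ 2 + 4 * (b * c)) = s at hs ⊢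
    rw [h]
    refine E2.ext ?_ ?_
    · simp
      ring
    · simp
      linear_combination (-1 / 4) * hs

end BD
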