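import Pool.Agent.Lib.MP_e8f12b_an.BD.Tan
import Pool.Agent.Lib.MP_e8f12b_an.BD.Pos

/-! The derivative in Cartesian frames in terms of polar data. -/

open scoped Manifold ContDiff Topology
open Set Real

noncomputable section

namespace BD

/-- The derivative in Cartesian frames. -/
def cart (C Cg : ℂ) (a g11 q p2 g22 : ℝ) : E2 →L[ℝ] E2 :=
  (mat Cg.re (-Cg.im) Cg.im Cg.re).comp
    ((mat (g11 / √a) (q / √a) (p2 * √a) (g22 * √a)).comp (mat C.re C.im (-C.im) C.re))

theorem J_inv {r : ℝ} (hr : 0 < r) (C : Circle) :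
    (J r C).comp (mat (r * (C : ℂ).re) (r * (C : ℂ).im) (-(C : ℂ).im / r) ((C : ℂ).re / r)) =
      ContinuousLinearMap.id ℝ E2 := by
  have h1 := Circle.normSq_coe C
  rw [Complex.normSq_apply] at h1
  rw [J, mat_comp, ← mat_one]
  congr 1
  · field_simp
    linarith
  · field_simp
    ring
  · field_simp
    ring
  · field_simp
    linarith

theorem cart_eq {r rg : ℝ} (hr : 0 < r) (hrg : 0 < rg) (C : Circle) (Cg : ℂ)
    (M : E2 →L[ℝ] E2) (g11 g12 g21 g22 : ℝ)
    (h : ∀ v, M (J r C v) = J rg Cg (mat g11 g12 g21 g22 v)) :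
    M = cart C Cg (rg ^ 2 / r ^ 2) g11 (g12 / r ^ 2) (g21 * r ^ 2) g22 := by
  have h1 : M = (J rg Cg).comp ((mat g11 g12 g21 g22).comp
      (mat (r * (C : ℂ).re) (r * (C : ℂ).im) (-(C : ℂ).im / r) ((C : ℂ).re / r))) := by
    have h2 : M.comp (J r C) = (J rg Cg).comp (mat g11 g12 g21 g22) :=
      ContinuousLinearMap.ext h
    rw [← ContinuousLinearMap.comp_assoc, ← h2, ContinuousLinearMap.comp_assoc, J_inv hr,
      ContinuousLinearMap.comp_id]
  have hs : √(rg ^ 2 / r ^ 2) = rg / r := by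
    rw [← div_pow, Real.sqrt_sq (by positivity)]
  rw [h1, cart, hs, J]
  simp only [mat_comp]
  congr 1 <;> field_simp

theorem cart_model (B : Mx) (C : Circle) :
    cart C (nrm (B.lin C)) (‖B.lin C‖ ^ 2) (‖B.lin C‖ ^ 2) (B.q C) 0 (1 / ‖B.lin C‖ ^ 2) =
      mat B.a B.b B.c B.d := by
  have hn := B.norm_lin_pos C
  have h0 := B.lin_ne_zero (Circle.coe_ne_zero C)
  have hd := B.lin_det C
  have hc := Circle.normSq_coe C
  rw [Complex.normSq_apply] at hc
  have hq : B.q C = (B.lin C).re * (B.lin (Complex.I * C)).re +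
    (B.lin C).im * (B.lin (Complex.I * C)).im := rfl
  have hnn : ‖B.lin C‖ ^ 2 = (B.lin C).re ^ 2 + (B.lin C).im ^ 2 := Mx.normSq_eq _
  have e1 : (nrm (B.lin C) : ℂ).re = (B.lin C).re / ‖B.lin C‖ := by
    rw [coe_nrm h0, Complex.div_ofReal_re]
  have e2 : (nrm (B.lin C) : ℂ).im = (B.lin C).im / ‖B.lin C‖ := by
    rw [coe_nrm h0, Complex.div_ofReal_im]
  have f1 : (B.lin C).re = B.a * (C : ℂ).re + B.b * (C : ℂ).im := rfl
  have f2 : (B.lin C).im = B.c * (C : ℂ).re + B.d * (C : ℂ).im := rfl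
  have f3 : (B.lin (Complex.I * C)).re = -B.a * (C : ℂ).im + B.b * (C : ℂ).re := by
    simp
  have f4 : (B.lin (Complex.I * C)).im = -B.c * (C : ℂ).im + B.d * (C : ℂ).re := by
    simp
  rw [cart, Real.sqrt_sq hn.le, e1, e2]
  simp only [mat_comp]
  generalize (B.lin (Complex.I * C)).re = Z at *
  generalize (B.lin (Complex.I * C)).im = W at *
  generalize (B.lin C).re = X at *
  generalize (B.lin C).im = Y at *
  generalize B.q C = q at *
  generalize ‖B.lin C‖ = n at *
  generalize (C : ℂ).re = u at *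
  generalize (C : ℂ).im = v at *
  have hn0 : n ≠ 0 := hn.ne'
  have k1 : (X * q - Y) / n ^ 2 = Z := by
    rw [div_eq_iff (by positivity), hnn, hq]
    linear_combination Y * hd
  have k2 : (Y * q + X) / n ^ 2 = W := by
    rw [div_eq_iff (by positivity), hnn, hq]
    linear_combination (-X) * hd
  congr 1
  · calc _ = X * u - (X * q - Y) / n ^ 2 * v := by field_simp; ring
      _ = B.a := by rw [k1, f1, f3]; linear_combination (B.a : ℝ) * hc
  · calc _ = X * v + (X * q - Y) / n ^ 2 * u := by field_simp; ring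
      _ = B.b := by rw [k1, f1, f3]; linear_combination (B.b : ℝ) * hc
  · calc _ = Y * u - (Y * q + X) / n ^ 2 * v := by field_simp; ring
      _ = B.c := by rw [k2, f2, f4]; linear_combination (B.c : ℝ) * hc
  · calc _ = Y * v + (Y * q + X) / n ^ 2 * u := by field_simp; ring
      _ = B.d := by rw [k2, f2, f4]; linear_combination (B.d : ℝ) * hc

theorem mat_continuousAt {ι : Type*} [TopologicalSpace ι] {x₀ : ι} {a b c d : ι → ℝ}
    (ha : ContinuousAt a x₀) (hb : ContinuousAt b x₀) (hc : ContinuousAt c x₀)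
    (hd : ContinuousAt d x₀) (i j : Fin 2) :
    ContinuousAt (fun x => mat (a x) (b x) (c x) (d x) (bv j) i) x₀ := by
  fin_cases i
  · exact (ha.mul continuousAt_const).add (hb.mul continuousAt_const)
  · exact (hc.mul continuousAt_const).add (hd.mul continuousAt_const)

theorem cart_continuousAt {ι : Type*} [TopologicalSpace ι] {x₀ : ι} {C Cg : ι → ℂ}
    {a g11 q p2 g22 : ι → ℝ} (hC : ContinuousAt C x₀) (hCg : ContinuousAt Cg x₀)
    (ha : ContinuousAt a x₀) (h1 : ContinuousAt g11 x₀) (hq : ContinuousAt q x₀)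
    (h2 : ContinuousAt p2 x₀) (h3 : ContinuousAt g22 x₀) (ha0 : 0 < a x₀) (i j : Fin 2) :
    ContinuousAt (fun x => cart (C x) (Cg x) (a x) (g11 x) (q x) (p2 x) (g22 x) (bv j) i) x₀ := by
  have hs : ContinuousAt (fun x => √(a x)) x₀ := ha.sqrt
  have hs0 : √(a x₀) ≠ 0 := (Real.sqrt_pos.2 ha0).ne'
  have cr : ContinuousAt (fun x => (C x).re) x₀ := Complex.continuous_re.continuousAt.comp hC
  have ci : ContinuousAt (fun x => (C x).im) x₀ := Complex.continuous_im.continuousAt.comp hC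
  have gr : ContinuousAt (fun x => (Cg x).re) x₀ := Complex.continuous_re.continuousAt.comp hCg
  have gi : ContinuousAt (fun x => (Cg x).im) x₀ := Complex.continuous_im.continuousAt.comp hCg
  have m1 := h1.div hs hs0
  have m2 := hq.div hs hs0
  have m3 := h2.mul hs
  have m4 := h3.mul hs
  unfold cart
  simp only [mat_comp]
  refine mat_continuousAt ?_ ?_ ?_ ?_ i j
  · exact (gr.mul ((m1.mul cr).add (m2.mul ci.neg))).add
      (gi.neg.mul ((m3.mul cr).add (m4.mul ci.neg)))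
  · exact (gr.mul ((m1.mul ci).add (m2.mul cr))).add
      (gi.neg.mul ((m3.mul ci).add (m4.mul cr)))
  · exact (gi.mul ((m1.mul cr).add (m2.mul ci.neg))).add
      (gr.mul ((m3.mul cr).add (m4.mul ci.neg)))
  · exact (gi.mul ((m1.mul ci).add (m2.mul cr))).add
      (gr.mul ((m3.mul ci).add (m4.mul cr)))

/-- `cart` as a function of seven real parameters. -/
def cartP (c₀ c₁ : Circle) (P : Fin 7 → ℝ) : E2 →L[ℝ] E2 :=
  cart ((c₀ * Circle.exp (P 0) : Circle) : ℂ) ((c₁ * Circle.exp (P 1) : Circle) : ℂ)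
    (P 2) (P 3) (P 4) (P 5) (P 6)

theorem cartP_continuousAt (c₀ c₁ : Circle) {P₀ : Fin 7 → ℝ} (ha : 0 < P₀ 2) (i j : Fin 2) :
    ContinuousAt (fun P => cartP c₀ c₁ P (bv j) i) P₀ := by
  have hp : ∀ k : Fin 7, Continuous fun P : Fin 7 → ℝ => P k := fun k => continuous_apply k
  have h1 : Continuous fun P : Fin 7 → ℝ => ((c₀ * Circle.exp (P 0) : Circle) : ℂ) :=
    continuous_circle_coe.comp (continuous_const.mul (Circle.exp.continuous.comp (hp 0)))
  have h2 : Continuous fun P : Fin 7 → ℝ => ((c₁ * Circle.exp (P 1) : Circle) : ℂ) :=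
    continuous_circle_coe.comp (continuous_const.mul (Circle.exp.continuous.comp (hp 1)))
  exact cart_continuousAt h1.continuousAt h2.continuousAt (hp 2).continuousAt
    (hp 3).continuousAt (hp 4).continuousAt (hp 5).continuousAt (hp 6).continuousAt ha i j

theorem cartP_pos (c₀ c₁ : Circle) {P₀ : Fin 7 → ℝ} (ha : 0 < P₀ 2)
    (h : PosM (cartP c₀ c₁ P₀)) :
    ∃ δ > 0, ∀ P : Fin 7 → ℝ, (∀ k, |P k - P₀ k| < δ) → PosM (cartP c₀ c₁ P) := by
  have key : ∀ᶠ P : Fin 7 → ℝ in 𝓝 P₀, ∀ i j : Fin 2, 0 < cartP c₀ c₁ P (bv j) i := by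
    rw [Filter.eventually_all]
    intro i
    rw [Filter.eventually_all]
    intro j
    exact (cartP_continuousAt c₀ c₁ ha i j).eventually (lt_mem_nhds (h i j))
  obtain ⟨δ, hδ, hball⟩ := Metric.eventually_nhds_iff.1 key
  refine ⟨δ, hδ, fun P hP => ?_⟩
  have h7 : dist P P₀ < δ := by
    rw [dist_pi_lt_iff hδ]
    intro k
    rw [Real.dist_eq]
    exact hP k
  exact hball h7

end BD
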