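import Pool.Agent.Lib.MP_e8f12b_an.BD.Surf0

/-! The charts of the surface: translates of the logarithm in the interior and symplectic polar
coordinates near the boundary. -/

open scoped Manifold ContDiff Topology
open Set Real

noncomputable section

namespace BD

/-- The shift by `4` which moves the interior charts into the open half plane. -/
def sh (z : E2) : ℂ := ⟨z 0 - 4, z 1⟩

@[simp] theorem sh_re (z : E2) : (sh z).re = z 0 - 4 := rfl
@[simp] theorem sh_im (z : E2) : (sh z).im = z 1 := rfl

theorem continuous_sh : Continuous sh := by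
  have h := Complex.equivRealProdCLM.symm.continuous.comp
    (((continuous_coord 0).sub (continuous_const (y := (4 : ℝ)))).prodMk (continuous_coord 1))
  exact h

theorem sh_mk (ζ : ℂ) : sh (mk (ζ.re + 4) ζ.im) = ζ := Complex.ext (by simp) (by simp)

theorem mk_sh (z : E2) : mk ((sh z).re + 4) (sh z).im = z := E2.ext (by simp) (by simp)

theorem sh_val_mkH {ζ : ℂ} (h : |ζ.re| < π) : sh (mkH (ζ.re + 4) ζ.im).1 = ζ := by
  rw [mkH_val, sh_mk]
  linarith [(abs_lt.1 h).1, Real.pi_lt_four]

/-- The interior chart centred at `t₀`. -/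
def intC (t₀ : Tor) : OpenPartialHomeomorph Surf H2 where
  toFun x := mkH ((L (tt x / t₀)).re + 4) (L (tt x / t₀)).im
  invFun y := emb (t₀ * ex (sh y.1))
  source := {x | tt x ≠ 1 ∧ tt x / t₀ ∈ slit}
  target := {y | (|(sh y.1).re| < π ∧ |(sh y.1).im| < π) ∧ t₀ * ex (sh y.1) ≠ 1}
  map_source' x hx := by
    have h := mem_slit_iff.1 hx.2
    change (|(sh (mkH _ _).1).re| < π ∧ |(sh (mkH _ _).1).im| < π) ∧ t₀ * ex (sh (mkH _ _).1) ≠ 1
    rw [sh_val_mkH h.1, ex_L, mul_div_cancel]
    exact ⟨h, hx.1⟩
  map_target' y hy := by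
    have h := tt_emb hy.2
    refine ⟨?_, ?_⟩
    · rw [h]
      exact hy.2
    · rw [h, mul_div_cancel_left]
      exact ex_mem_slit hy.1.1 hy.1.2
  left_inv' x hx := by
    have h := mem_slit_iff.1 hx.2
    change emb (t₀ * ex (sh (mkH _ _).1)) = x
    rw [sh_val_mkH h.1, ex_L, mul_div_cancel]
    exact (eq_emb hx.1).symm
  right_inv' y hy := by
    have h := tt_emb hy.2
    have h1 := abs_lt.1 hy.1.1
    have h2 := abs_lt.1 hy.1.2
    change mkH ((L (tt (emb (t₀ * ex (sh y.1))) / t₀)).re + 4)
      (L (tt (emb (t₀ * ex (sh y.1))) / t₀)).im = y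
    rw [h, mul_div_cancel_left, L_ex h1.1 h1.2.le h2.1 h2.2.le, sh_re, sh_im, sub_add_cancel,
      mkH_eta]
  open_source := (isOpen_compl_singleton.preimage continuous_tt).inter
    (isOpen_slit.preimage (continuous_tt.div_const t₀))
  open_target := by
    have h : Continuous fun y : H2 => sh y.1 := continuous_sh.comp continuous_subtype_val
    exact ((isOpen_lt (Complex.continuous_re.comp h).abs continuous_const).inter
      (isOpen_lt (Complex.continuous_im.comp h).abs continuous_const)).inter
      (isOpen_compl_singleton.preimage (continuous_const.mul (continuous_ex.comp h)))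
  continuousOn_toFun := by
    intro x hx
    have h1 : ContinuousAt (fun x : Surf => L (tt x / t₀)) x :=
      ContinuousAt.comp (g := L) (f := fun x : Surf => tt x / t₀) (continuousAt_L hx.2)
        (continuous_tt.div_const t₀).continuousAt
    have h2 : ContinuousAt (fun x : Surf => ((L (tt x / t₀)).re + 4, (L (tt x / t₀)).im)) x :=
      ((Complex.continuous_re.continuousAt.comp h1).add continuousAt_const).prodMk
        (Complex.continuous_im.continuousAt.comp h1)
    exact (continuous_mkH.continuousAt.comp h2).continuousWithinAt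
  continuousOn_invFun := by
    intro y hy
    have h : Continuous fun y : H2 => t₀ * ex (sh y.1) :=
      continuous_const.mul (continuous_ex.comp (continuous_sh.comp continuous_subtype_val))
    exact (ContinuousAt.comp (g := emb) (f := fun y : H2 => t₀ * ex (sh y.1))
      (continuousAt_emb hy.2) h.continuousAt).continuousWithinAt

theorem continuousAt_cs {x : Surf} (h : rr x < 2) : ContinuousAt cs x := by
  have h0 : cc x ≠ 0 := by
    intro h'
    have h1 := norm_cc x
    rw [h', norm_zero] at h1
    have : 0 < chi (rr x) := lt_max_of_lt_right (lt_min one_pos (by linarith))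
    linarith
  exact ContinuousAt.comp (g := nrm) (f := cc) (continuousAt_nrm h0) continuous_cc.continuousAt

theorem mem_slitPlane_iff (z : Circle) : (z : ℂ) ∈ Complex.slitPlane ↔ |(z : ℂ).arg| < π := by
  rw [Complex.mem_slitPlane_iff_arg, abs_lt]
  refine ⟨fun h => ⟨Complex.neg_pi_lt_arg _, lt_of_le_of_ne (Complex.arg_le_pi _) h.1⟩,
    fun h => ⟨h.2.ne, Circle.coe_ne_zero z⟩⟩

theorem sqrt_le_one' {a : ℝ} (h : a < 1 / 2) : √(2 * a) < 1 := by
  rw [Real.sqrt_lt' one_pos]
  linarith

/-- The boundary chart centred at `c₀`. -/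
def colC (c₀ : Circle) : OpenPartialHomeomorph Surf H2 where
  toFun x := mkH (rr x ^ 2 / 2) ((cs x / c₀ : Circle) : ℂ).arg
  invFun y := pt √(2 * y.1 0) (c₀ * Circle.exp (y.1 1))
  source := {x | rr x < 1 ∧ ((cs x / c₀ : Circle) : ℂ) ∈ Complex.slitPlane}
  target := {y | y.1 0 < 1 / 2 ∧ |y.1 1| < π}
  map_source' x hx := by
    have h0 := rr_nonneg x
    refine ⟨?_, ?_⟩
    · rw [mkH_val (by positivity), mk_zero]
      nlinarith [hx.1]
    · rw [mkH_val (by positivity), mk_one]
      exact (mem_slitPlane_iff _).1 hx.2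
  map_target' y hy := by
    have h1 := (sqrt_le_one' hy.1).le
    refine ⟨?_, ?_⟩
    · rw [rr_pt _ (Real.sqrt_nonneg _) h1]
      exact sqrt_le_one' hy.1
    · rw [cs_pt _ (Real.sqrt_nonneg _) h1, mul_div_cancel_left, mem_slitPlane_iff,
        Circle.arg_exp (abs_lt.1 hy.2).1 (abs_lt.1 hy.2).2.le]
      exact hy.2
  left_inv' x hx := by
    have h0 := rr_nonneg x
    change pt √(2 * (mkH _ _).1 0) (c₀ * Circle.exp ((mkH _ _).1 1)) = x
    rw [mkH_val (by positivity), mk_zero, mk_one, Circle.exp_arg, mul_div_cancel,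
      mul_div_cancel₀ _ two_ne_zero, Real.sqrt_sq h0]
    exact (eq_pt hx.1.le).symm
  right_inv' y hy := by
    have h1 := (sqrt_le_one' hy.1).le
    have h2 : (0 : ℝ) ≤ 2 * y.1 0 := mul_nonneg two_pos.le y.2
    change mkH (rr (pt √(2 * y.1 0) (c₀ * Circle.exp (y.1 1))) ^ 2 / 2)
      ((cs (pt √(2 * y.1 0) (c₀ * Circle.exp (y.1 1))) / c₀ : Circle) : ℂ).arg = y
    rw [rr_pt _ (Real.sqrt_nonneg _) h1, cs_pt _ (Real.sqrt_nonneg _) h1, mul_div_cancel_left,
      Circle.arg_exp (abs_lt.1 hy.2).1 (abs_lt.1 hy.2).2.le, Real.sq_sqrt h2,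
      mul_div_cancel_left₀ _ two_ne_zero, mkH_eta]
  open_source := by
    rw [isOpen_iff_mem_nhds]
    intro x hx
    have h1 : ContinuousAt (fun x : Surf => ((cs x / c₀ : Circle) : ℂ)) x :=
      continuous_circle_coe.continuousAt.comp
        ((continuousAt_cs (by linarith [hx.1])).div_const' c₀)
    filter_upwards [continuous_rr.continuousAt.eventually (gt_mem_nhds hx.1),
      h1.eventually (Complex.isOpen_slitPlane.mem_nhds hx.2)] with y a b
    exact ⟨a, b⟩
  open_target := (isOpen_lt (continuous_val_coord 0) continuous_const).inter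
    (isOpen_lt (continuous_val_coord 1).abs continuous_const)
  continuousOn_toFun := by
    intro x hx
    have h1 : ContinuousAt (fun x : Surf => ((cs x / c₀ : Circle) : ℂ)) x :=
      continuous_circle_coe.continuousAt.comp
        ((continuousAt_cs (by linarith [hx.1])).div_const' c₀)
    have h2 : ContinuousAt (fun x : Surf => (rr x ^ 2 / 2, ((cs x / c₀ : Circle) : ℂ).arg)) x :=
      ((continuous_rr.pow 2).div_const 2).continuousAt.prodMk
        (ContinuousAt.comp (g := Complex.arg) (f := fun x : Surf => ((cs x / c₀ : Circle) : ℂ))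
          (Complex.continuousAt_arg hx.2) h1)
    exact (continuous_mkH.continuousAt.comp h2).continuousWithinAt
  continuousOn_invFun := by
    have h : Continuous fun y : H2 => (√(2 * y.1 0), c₀ * Circle.exp (y.1 1)) :=
      (continuous_const.mul (continuous_val_coord 0)).sqrt.prodMk
        (continuous_const.mul (Circle.exp.continuous.comp (continuous_val_coord 1)))
    exact continuousOn_pt.comp h.continuousOn
      fun y hy => ⟨Real.sqrt_nonneg _, (sqrt_le_one' hy.1).le⟩

end BD
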