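import Pool.Agent.Lib.MP_e8f12b_an.BD.Bun

/-! The derivative of a diffeomorphism in terms of its expressions in charts. -/

open scoped Manifold ContDiff Topology
open Set Real

noncomputable section

namespace BD

variable {e e' : OpenPartialHomeomorph Surf H2} {g : Surf → Surf} {y : H2}

theorem contDiff_expr (hg : ContMDiff (𝓡∂ 2) (𝓡∂ 2) ∞ g) (he : e ∈ atlas H2 Surf)
    (he' : e' ∈ atlas H2 Surf) {z : E2} (hz : 0 ≤ z 0) (h1 : (𝓡∂ 2).symm z ∈ e.target)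
    (h2 : g (e.symm ((𝓡∂ 2).symm z)) ∈ e'.source) :
    ContDiffWithinAt ℝ ∞ (expr e e' g) (range (𝓡∂ 2)) z := by
  have h := (contMDiffAt_iff_of_mem_maximalAtlas (I := 𝓡∂ 2) (I' := 𝓡∂ 2) (n := ∞) (e := e)
    (e' := e') (IsManifold.subset_maximalAtlas he) (IsManifold.subset_maximalAtlas he')
    (e.map_target h1) h2).1 (hg _)
  have h3 : e.extend (𝓡∂ 2) (e.symm ((𝓡∂ 2).symm z)) = z := by
    have h4 : e.extend (𝓡∂ 2) (e.symm ((𝓡∂ 2).symm z)) =
        (𝓡∂ 2) (e (e.symm ((𝓡∂ 2).symm z))) := rfl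
    rw [h4, e.right_inv h1, (𝓡∂ 2).right_inv]
    rw [range_I]
    exact hz
  have h5 := h.2
  rw [h3] at h5
  exact h5

/-- The chain rule for expressions in charts. -/
theorem chain (hg : ContMDiff (𝓡∂ 2) (𝓡∂ 2) ∞ g) (he : e ∈ atlas H2 Surf)
    (he' : e' ∈ atlas H2 Surf) (hy : y ∈ e.target) (hgy : g (e.symm y) ∈ e'.source)
    {De De' : E2 →L[ℝ] E2} (hDe : HasMFDerivAt (𝓡∂ 2) (𝓡∂ 2) e.symm y De)
    (hDe' : HasMFDerivAt (𝓡∂ 2) (𝓡∂ 2) e'.symm (e' (g (e.symm y))) De') (v : E2) :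
    (mfderiv (𝓡∂ 2) (𝓡∂ 2) g (e.symm y) (De v) : E2) =
      De' (fderivWithin ℝ (expr e e' g) (range (𝓡∂ 2)) y.1 v) := by
  have hy' : (𝓡∂ 2).symm y.1 = y := (𝓡∂ 2).left_inv y
  have h1 : ContDiffWithinAt ℝ ∞ (expr e e' g) (range (𝓡∂ 2)) y.1 :=
    contDiff_expr hg he he' y.2 (by rw [hy']; exact hy) (by rw [hy']; exact hgy)
  have h2 : HasFDerivWithinAt (expr e e' g) (fderivWithin ℝ (expr e e' g) (range (𝓡∂ 2)) y.1)
      (range (𝓡∂ 2)) y.1 := (h1.differentiableWithinAt (by simp)).hasFDerivWithinAt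
  have hc1 : ContinuousAt e.symm y := e.symm.continuousAt hy
  have hc2 : ContinuousAt (fun y => g (e.symm y)) y := by
    exact ContinuousAt.comp (g := g) (f := e.symm) hg.continuous.continuousAt hc1
  have hc3 : ContinuousAt (fun y => e' (g (e.symm y))) y := by
    exact ContinuousAt.comp (g := e') (f := fun y => g (e.symm y)) (e'.continuousAt hgy) hc2
  have h3 : HasMFDerivAt (𝓡∂ 2) (𝓡∂ 2) (fun y => e' (g (e.symm y))) y
      (fderivWithin ℝ (expr e e' g) (range (𝓡∂ 2)) y.1) := ⟨hc3, h2⟩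
  have h4 := hDe'.comp y h3
  have hgd : HasMFDerivAt (𝓡∂ 2) (𝓡∂ 2) g (e.symm y) (mfderiv (𝓡∂ 2) (𝓡∂ 2) g (e.symm y)) :=
    (hg.mdifferentiable (by simp) _).hasMFDerivAt
  have h5 := hgd.comp y hDe
  have h6 : (e'.symm ∘ fun y => e' (g (e.symm y))) =ᶠ[𝓝 y] (g ∘ e.symm) := by
    filter_upwards [hc2.eventually (e'.open_source.mem_nhds hgy)] with w hw
    exact e'.left_inv hw
  have h7 := h5.congr_of_eventuallyEq h6
  have h8 := hasMFDerivAt_unique h7 h4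
  exact congrArg (fun M : E2 →L[ℝ] E2 => M v) h8

end BD
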