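import Pool.Agent.Lib.MP_e8f12b_an.BD.Surf0

/-! The surface is connected. -/

open scoped Manifold ContDiff Topology
open Set Real

noncomputable section

namespace BD

theorem circle_preconnected : IsPreconnected (univ : Set Circle) := by
  have h : (univ : Set Circle) = Circle.exp '' univ := by
    rw [image_univ]
    exact (Circle.exp_surjective.range_eq).symm
  rw [h]
  exact isPreconnected_univ.image _ Circle.exp.continuous.continuousOn

/-- The interior of the surface. -/
def intS : Set Surf := {x | tt x ≠ 1}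

theorem isPreconnected_intS : IsPreconnected intS := by
  have hm : (-1 : Circle) ≠ 1 := Circle.neg_ne_self 1
  have key1 : ∀ z : Circle, z ≠ 1 → IsPreconnected ((fun w : Circle => emb (z, w)) '' univ) := by
    intro z hz
    refine circle_preconnected.image _ fun w _ => ?_
    have h : ((z, w) : Tor) ≠ 1 := fun h' => hz (congrArg Prod.fst h')
    exact (ContinuousAt.comp (g := emb) (f := fun w : Circle => ((z, w) : Tor))
      (continuousAt_emb h) (continuous_const.prodMk continuous_id).continuousAt).continuousWithinAt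
  have key2 : ∀ w : Circle, w ≠ 1 → IsPreconnected ((fun z : Circle => emb (z, w)) '' univ) := by
    intro w hw
    refine circle_preconnected.image _ fun z _ => ?_
    have h : ((z, w) : Tor) ≠ 1 := fun h' => hw (congrArg Prod.snd h')
    exact (ContinuousAt.comp (g := emb) (f := fun z : Circle => ((z, w) : Tor))
      (continuousAt_emb h) (continuous_id.prodMk continuous_const).continuousAt).continuousWithinAt
  have sub1 : ∀ z : Circle, z ≠ 1 → (fun w : Circle => emb (z, w)) '' univ ⊆ intS := by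
    rintro z hz _ ⟨w, -, rfl⟩
    have h : ((z, w) : Tor) ≠ 1 := fun h' => hz (congrArg Prod.fst h')
    change tt (emb (z, w)) ≠ 1
    rwa [tt_emb h]
  have sub2 : ∀ w : Circle, w ≠ 1 → (fun z : Circle => emb (z, w)) '' univ ⊆ intS := by
    rintro w hw _ ⟨z, -, rfl⟩
    have h : ((z, w) : Tor) ≠ 1 := fun h' => hw (congrArg Prod.snd h')
    change tt (emb (z, w)) ≠ 1
    rwa [tt_emb h]
  refine isPreconnected_of_forall (emb (-1, -1)) fun x hx => ?_
  have hx' : tt x ≠ 1 := hx
  obtain ⟨z, w, hzw⟩ : ∃ z w, tt x = (z, w) := ⟨(tt x).1, (tt x).2, rfl⟩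
  have hxe : x = emb (z, w) := by rw [← hzw]; exact eq_emb hx'
  by_cases hz : z = 1
  · have hw : w ≠ 1 := by
      rintro rfl
      rw [hz] at hzw
      exact hx' hzw
    refine ⟨(fun z : Circle => emb (z, w)) '' univ ∪ (fun w : Circle => emb (-1, w)) '' univ,
      union_subset (sub2 w hw) (sub1 (-1) hm), Or.inr ⟨-1, mem_univ _, rfl⟩,
      Or.inl ⟨z, mem_univ _, hxe.symm⟩, ?_⟩
    exact (key2 w hw).union (emb (-1, w)) ⟨-1, mem_univ _, rfl⟩ ⟨w, mem_univ _, rfl⟩ (key1 (-1) hm)
  · refine ⟨(fun w : Circle => emb (z, w)) '' univ ∪ (fun z : Circle => emb (z, -1)) '' univ,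
      union_subset (sub1 z hz) (sub2 (-1) hm), Or.inr ⟨-1, mem_univ _, rfl⟩,
      Or.inl ⟨w, mem_univ _, hxe.symm⟩, ?_⟩
    exact (key1 z hz).union (emb (z, -1)) ⟨-1, mem_univ _, rfl⟩ ⟨z, mem_univ _, rfl⟩ (key2 (-1) hm)

theorem closure_intS : closure intS = univ := by
  rw [eq_univ_iff_forall]
  intro x
  by_cases h : tt x = 1
  · obtain ⟨c, rfl⟩ : ∃ c, x = bd c := ⟨_, eq_bd h⟩
    rw [← pt_zero]
    have h1 : Filter.Tendsto (fun r : ℝ => pt r c) (𝓝[Ioo 0 1] 0) (𝓝 (pt 0 c)) := by
      have h2 : ContinuousWithinAt (fun p : ℝ × Circle => pt p.1 p.2) {p | 0 ≤ p.1 ∧ p.1 ≤ 1}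
          ((0 : ℝ), c) := continuousOn_pt _ ⟨le_rfl, zero_le_one⟩
      refine Filter.Tendsto.comp (f := fun r : ℝ => (r, c)) h2
        (tendsto_nhdsWithin_iff.2 ⟨?_, ?_⟩)
      · exact (tendsto_nhdsWithin_of_tendsto_nhds
          (Continuous.tendsto (f := fun r : ℝ => (r, c)) (by fun_prop) 0))
      · filter_upwards [self_mem_nhdsWithin] with r hr
        exact ⟨hr.1.le, hr.2.le⟩
    have hne : (𝓝[Ioo (0 : ℝ) 1] 0).NeBot := by
      rw [← mem_closure_iff_nhdsWithin_neBot, closure_Ioo zero_ne_one]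
      exact ⟨le_rfl, zero_le_one⟩
    refine mem_closure_of_tendsto h1 ?_
    filter_upwards [self_mem_nhdsWithin] with r hr
    change tt (pt r c) ≠ 1
    rw [← rr_pos, rr_pt c hr.1.le hr.2.le]
    exact hr.1
  · exact subset_closure h

instance instConnectedSpaceSurf : ConnectedSpace Surf where
  toPreconnectedSpace := ⟨by
    rw [← closure_intS]
    exact isPreconnected_intS.closure⟩
  toNonempty := ⟨bd 1⟩

end BD
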