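import Mathlib

/-!
# Conservative surface maps: weak stability and uniform hyperbolicity

The definitions used in the statement. `S` is a smooth surface, possibly with boundary, i.e. a
smooth manifold modelled on the closed half plane (`IsManifold (𝓡∂ 2) ∞ S`). In Mathlib the
tangent space of `S` at `x` is `ℝ²` by definition (identified through the preferred chart at `x`),
so tangent vectors at `x` are written as elements of `E2 = ℝ²`.
-/

open scoped Manifold ContDiff Topology

noncomputable section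

universe u

namespace BD

/-- The closed half plane `{x ∈ ℝ² : 0 ≤ x₀}`, the model of surfaces with boundary. -/
abbrev H2 := EuclideanHalfSpace 2

/-- The plane `ℝ²`. -/
abbrev E2 := EuclideanSpace ℝ (Fin 2)

/-- The standard basis of `ℝ²`. -/
def bv (i : Fin 2) : E2 := EuclideanSpace.single i (1 : ℝ)

/-- The determinant of two vectors of `ℝ²`. -/
def det2 (v w : E2) : ℝ := v 0 * w 1 - v 1 * w 0

/-- The norm of the `j`-th derivative of `F` at `z`, relative to the closed half plane. -/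
def size (j : ℕ) (F : E2 → E2) (z : E2) : ℝ :=
  ‖iteratedFDerivWithin ℝ j F (Set.range (𝓡∂ 2)) z‖

/-- Lines through the origin of `ℝ²`. -/
def IsLine (l : Set E2) : Prop :=
  ∃ v : E2, v ≠ 0 ∧ ∀ w : E2, w ∈ l ↔ ∃ c : ℝ, w = c • v

section

variable {S : Type u} [TopologicalSpace S] [ChartedSpace H2 S]

/-- The derivative `Df(x) v` of `f` at `x` on the tangent vector `v`. -/
def D (f : S → S) (x : S) (v : E2) : E2 :=
  (tangentMap (𝓡∂ 2) (𝓡∂ 2) f ⟨x, v⟩).2

/-- The derivative of a parametrization `e` of `S` by the half plane. -/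
def DP (e : H2 → S) (y : H2) (v : E2) : E2 :=
  (tangentMap (𝓡∂ 2) (𝓡∂ 2) e ⟨y, v⟩).2

/-- `f` is a `C^∞` diffeomorphism of `S`. -/
def IsDiffeo (f : S → S) : Prop :=
  ContMDiff (𝓡∂ 2) (𝓡∂ 2) ∞ f ∧
    ∃ g : S → S, ContMDiff (𝓡∂ 2) (𝓡∂ 2) ∞ g ∧ Function.LeftInverse g f ∧
      Function.RightInverse g f

/-- `α` is a field of alternating bilinear forms on the tangent spaces of `S`, i.e. of multiples
of the determinant. -/
def IsForm (α : S → E2 → E2 → ℝ) : Prop :=
  ∀ x, ∃ c : ℝ, ∀ v w, α x v w = c * det2 v w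

/-- The coefficient `α(∂₀, ∂₁)` of `α` in the chart `e`. -/
def coef (e : OpenPartialHomeomorph S H2) (α : S → E2 → E2 → ℝ) (y : H2) : ℝ :=
  α (e.symm y) (DP e.symm y (bv 0)) (DP e.symm y (bv 1))

/-- Smooth area forms: alternating forms which, in every chart of the atlas, have a smooth
coefficient (up to the boundary) without zeros. -/
def IsAreaForm (α : S → E2 → E2 → ℝ) : Prop :=
  IsForm α ∧ ∀ e ∈ atlas H2 S,
    ContDiffOn ℝ ∞ (fun z : E2 => coef e α ((𝓡∂ 2).symm z)) ((𝓡∂ 2) '' e.target) ∧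
      ∀ y ∈ e.target, coef e α y ≠ 0

/-- `f^* α = α`. -/
def Conservative (α : S → E2 → E2 → ℝ) (f : S → S) : Prop :=
  ∀ x v w, α (f x) (D f x v) (D f x w) = α x v w

/-- `p` is an elliptic periodic point of `f`: `f^n(p) = p` and `Df^n(p)` has no real eigenvalue,
for some `n ≥ 1`. -/
def Elliptic (f : S → S) (p : S) : Prop :=
  ∃ n : ℕ, 0 < n ∧ f^[n] p = p ∧ ∀ (c : ℝ) (v : E2), D (f^[n]) p v = c • v → v = 0

/-- The expression `e' ∘ g ∘ e⁻¹` of `g` in the charts `e`, `e'`. -/
def expr (e e' : OpenPartialHomeomorph S H2) (g : S → S) (z : E2) : E2 :=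
  (𝓡∂ 2) (e' (g (e.symm ((𝓡∂ 2).symm z))))

variable (S) in
/-- The data of a subbasic neighbourhood of the `C^∞` topology: two charts, a compact subset of
the domain of the first, an order of differentiation and a positive number. -/
structure Datum where
  /-- the first chart -/
  e : OpenPartialHomeomorph S H2
  /-- the second chart -/
  e' : OpenPartialHomeomorph S H2
  he : e ∈ atlas H2 S
  he' : e' ∈ atlas H2 S
  /-- the compact set -/
  K : Set S
  hK : IsCompact K
  hKe : K ⊆ e.source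
  /-- the order -/
  k : ℕ
  /-- the size -/
  ε : ℝ
  hε : 0 < ε

/-- `g` lies in the subbasic neighbourhood of `f` given by `B`: `g(K)` lies in the domain of the
second chart, and on `K` the derivatives of order `≤ k` of the difference of the expressions of
`g` and `f` in the charts are less than `ε`. -/
def Datum.Near (B : Datum S) (f g : S → S) : Prop :=
  Set.MapsTo g B.K B.e'.source ∧ ∀ x ∈ B.K, ∀ j ≤ B.k,
    size j (expr B.e B.e' g - expr B.e B.e' f) ((𝓡∂ 2) (B.e x)) < B.ε

/-- `f` is weakly stable: there is a neighbourhood of `f` in the `C^∞` topology (a finite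
intersection of subbasic neighbourhoods) such that no diffeomorphism in it which preserves `α`
has an elliptic periodic point. -/
def WeaklyStable (α : S → E2 → E2 → ℝ) (f : S → S) : Prop :=
  ∃ l : List (Datum S), (∀ B ∈ l, Set.MapsTo f B.K B.e'.source) ∧
    ∀ g : S → S, IsDiffeo g → Conservative α g → (∀ B ∈ l, B.Near f g) → ∀ p, ¬ Elliptic g p

/-- `N` is a continuous norm on the tangent bundle. -/
def IsNormField [IsManifold (𝓡∂ 2) 1 S] (N : S → E2 → ℝ) : Prop :=
  (Continuous fun v : TangentBundle (𝓡∂ 2) S => N v.1 v.2) ∧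
    ∀ x, (∀ v w, N x (v + w) ≤ N x v + N x w) ∧ (∀ (c : ℝ) v, N x (c • v) = |c| * N x v) ∧
      ∀ v, v ≠ 0 → 0 < N x v

/-- The vector field `V` is continuous on `U`. -/
def ContField [IsManifold (𝓡∂ 2) 1 S] (V : S → E2) (U : Set S) : Prop :=
  ContinuousOn (fun x => (⟨x, V x⟩ : TangentBundle (𝓡∂ 2) S)) U

/-- Continuous line fields: fields of lines in the tangent spaces, locally spanned by continuous
vector fields. -/
def IsLineField [IsManifold (𝓡∂ 2) 1 S] (E : S → Set E2) : Prop :=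
  (∀ x, IsLine (E x)) ∧
    ∀ x₀ : S, ∃ U ∈ 𝓝 x₀, ∃ V : S → E2, ContField V U ∧ ∀ x ∈ U, V x ∈ E x ∧ V x ≠ 0

/-- `f` (a diffeomorphism) is uniformly hyperbolic: a continuous `Df`-invariant splitting of the
tangent bundle into lines `Es`, `Eu`, with `‖Df^k v‖ ≤ C λ^k ‖v‖` for `v` in `Es` and
`‖v‖ ≤ C λ^k ‖Df^k v‖` for `v` in `Eu`, for some continuous norm on the tangent bundle. -/
def UniformlyHyperbolic [IsManifold (𝓡∂ 2) 1 S] (f : S → S) : Prop :=
  ∃ (N : S → E2 → ℝ) (Es Eu : S → Set E2) (C lam : ℝ),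
    IsNormField N ∧ 0 < C ∧ 0 < lam ∧ lam < 1 ∧ IsLineField Es ∧ IsLineField Eu ∧
    (∀ x, Es x ∩ Eu x = {0}) ∧
    (∀ x, ∀ v ∈ Es x, D f x v ∈ Es (f x)) ∧ (∀ x, ∀ v ∈ Eu x, D f x v ∈ Eu (f x)) ∧
    (∀ (x : S) (k : ℕ), ∀ v ∈ Es x, N (f^[k] x) (D (f^[k]) x v) ≤ C * lam ^ k * N x v) ∧
    (∀ (x : S) (k : ℕ), ∀ v ∈ Eu x, N x v ≤ C * lam ^ k * N (f^[k] x) (D (f^[k]) x v))

end

end BD
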