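import Pool.Agent.Lib.MP_e8f12b_an.BD.Fc

/-! Local expressions of the maps in the charts. -/

open scoped Manifold ContDiff Topology
open Set Real

noncomputable section

namespace BD

variable {S : Set E2} {p : E2}

theorem I_symm_val {z : E2} (h : 0 ≤ z 0) : ((𝓡∂ 2).symm z).1 = z := by
  rw [I_symm, mkH_val h, mk_eta]

theorem intC_val (t₁ : Tor) (x : Surf) :
    (𝓡∂ 2) (intC t₁ x) = mk ((L (tt x / t₁)).re + 4) (L (tt x / t₁)).im := by
  refine I_mkH ?_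
  have h1 := Complex.neg_pi_lt_arg ((tt x / t₁).1 : ℂ)
  have h2 := Real.pi_lt_four
  rw [L_re]
  linarith

theorem colC_val (c₁ : Circle) (x : Surf) :
    (𝓡∂ 2) (colC c₁ x) = mk (rr x ^ 2 / 2) ((cs x / c₁ : Circle) : ℂ).arg :=
  I_mkH (by positivity)

theorem intC_symm (t₀ : Tor) (y : H2) : (intC t₀).symm y = emb (t₀ * ex (sh y.1)) := rfl

theorem colC_symm (c₀ : Circle) (y : H2) :
    (colC c₀).symm y = pt √(2 * y.1 0) (cz c₀ y.1) := rfl

theorem arg_nrm {ζ : ℂ} (h : ζ ≠ 0) (c₁ : Circle) :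
    ((nrm ζ / c₁ : Circle) : ℂ).arg = (ζ / c₁).arg := by
  have h' : (0 : ℝ) < ‖ζ‖⁻¹ := inv_pos.2 (norm_pos_iff.2 h)
  rw [Circle.coe_div, coe_nrm h, ← Complex.arg_real_mul (ζ / c₁) h']
  congr 1
  rw [Complex.ofReal_inv]
  ring

theorem slitPlane_nrm {ζ : ℂ} (h : ζ ≠ 0) (c₁ : Circle) :
    ((nrm ζ / c₁ : Circle) : ℂ) ∈ Complex.slitPlane ↔ ζ / c₁ ∈ Complex.slitPlane := by
  rw [Complex.mem_slitPlane_iff_arg, Complex.mem_slitPlane_iff_arg, arg_nrm h]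
  refine and_congr_right fun _ => ?_
  exact ⟨fun _ => div_ne_zero h (Circle.coe_ne_zero c₁), fun _ => Circle.coe_ne_zero _⟩

theorem cs_emb {t : Tor} (h : t ≠ 1) (h1 : ‖L t‖ < 1) : cs (emb t) = nrm (L t) := by
  have h0 : 0 < ‖L t‖ := norm_pos_iff.2 fun h' => h (L_eq_zero.1 h')
  rw [cs, cc_emb h, chi_of_le h1.le, nrm_smul (by positivity)]

theorem rr_emb {t : Tor} (h : t ≠ 1) : rr (emb t) = ‖L t‖ := by rw [rr, tt_emb h]

/-- `g = emb (s * ex φ)` near `p`. -/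
structure Loc (g : E2 → Surf) (s : Tor) (φ : E2 → ℂ) (S : Set E2) (p : E2) : Prop where
  ev : ∀ᶠ z in 𝓝[S] p, g z = emb (s * ex (φ z))
  mem : p ∈ S
  ne : s * ex (φ p) ≠ 1
  ct : ContinuousWithinAt φ S p

namespace Loc

variable {g : E2 → Surf} {s : Tor} {φ : E2 → ℂ}

theorem self (H : Loc g s φ S p) : g p = emb (s * ex (φ p)) := H.ev.self_of_nhdsWithin H.mem

theorem ev2 (H : Loc g s φ S p) :
    ∀ᶠ z in 𝓝[S] p, g z = emb (s * ex (φ z)) ∧ s * ex (φ z) ≠ 1 := by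
  have h1 : ContinuousWithinAt (fun z => s * ex (φ z)) S p :=
    continuousWithinAt_const.mul (continuous_ex.continuousAt.comp_continuousWithinAt H.ct)
  exact H.ev.and (h1.eventually (isOpen_compl_singleton.mem_nhds H.ne))

theorem int_eq (H : Loc g s φ S p) (t₁ : Tor) :
    ∀ᶠ z in 𝓝[S] p, (𝓡∂ 2) (intC t₁ (g z)) =
      BD.mk ((L (s / t₁ * ex (φ z))).re + 4) (L (s / t₁ * ex (φ z))).im := by
  filter_upwards [H.ev2] with z hz
  rw [intC_val, hz.1, tt_emb hz.2, mul_div_right_comm]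

theorem slit_of (H : Loc g s φ S p) {t₁ : Tor} (h : g p ∈ (intC t₁).source) :
    s / t₁ * ex (φ p) ∈ slit := by
  have h1 : tt (g p) / t₁ ∈ slit := h.2
  rwa [H.self, tt_emb H.ne, mul_div_right_comm] at h1

theorem int_contDiff (H : Loc g s φ S p) {n : ℕ∞ω} (hφ : ContDiffWithinAt ℝ n φ S p) {t₁ : Tor}
    (h : g p ∈ (intC t₁).source) :
    ContDiffWithinAt ℝ n (fun z => (𝓡∂ 2) (intC t₁ (g z))) S p :=
  (contDiff_mk_of_C (contDiff_L hφ (H.slit_of h))).congr_of_eventuallyEq (H.int_eq t₁)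
    ((H.int_eq t₁).self_of_nhdsWithin H.mem)

theorem int_hasFDeriv (H : Loc g s φ S p) {a b c d : ℝ}
    (hφ : HasFDerivWithinAt φ (matC a b c d) S p) {t₁ : Tor} (h : g p ∈ (intC t₁).source) :
    HasFDerivWithinAt (fun z => (𝓡∂ 2) (intC t₁ (g z))) (mat a b c d) S p :=
  (hasFDeriv_mk_of_C (hasFDeriv_L hφ (H.slit_of h))).congr_of_eventuallyEq (H.int_eq t₁)
    ((H.int_eq t₁).self_of_nhdsWithin H.mem)

theorem col_contDiff (H : Loc g s φ S p) {n : ℕ∞ω} (hφ : ContDiffWithinAt ℝ n φ S p)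
    {c₁ : Circle} (h : g p ∈ (colC c₁).source) :
    ContDiffWithinAt ℝ n (fun z => (𝓡∂ 2) (colC c₁ (g z))) S p := by
  have hr : ‖L (s * ex (φ p))‖ < 1 := by
    have := h.1
    rwa [H.self, rr_emb H.ne] at this
  have hs : s * ex (φ p) ∈ slit := mem_slit_of_norm (by linarith [Real.pi_gt_three])
  have hL0 : L (s * ex (φ p)) ≠ 0 := fun h' => H.ne (L_eq_zero.1 h')
  have ha : L (s * ex (φ p)) / c₁ ∈ Complex.slitPlane := by
    have := h.2
    rw [H.self, cs_emb H.ne hr] at this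
    exact (slitPlane_nrm hL0 c₁).1 this
  have hL := contDiff_L hφ hs
  have h1 : ContDiffWithinAt ℝ n (fun z => BD.mk (‖L (s * ex (φ z))‖ ^ 2 / 2)
      (L (s * ex (φ z)) / c₁).arg) S p :=
    contDiffWithinAt_mk ((Mx.contDiff_normSq hL).div_const 2) (contDiff_arg (hL.div_const _) ha)
  have e1 : ∀ᶠ z in 𝓝[S] p, (𝓡∂ 2) (colC c₁ (g z)) =
      BD.mk (‖L (s * ex (φ z))‖ ^ 2 / 2) (L (s * ex (φ z)) / c₁).arg := by
    have e0 : ∀ᶠ z in 𝓝[S] p, ‖L (s * ex (φ z))‖ < 1 :=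
      hL.continuousWithinAt.norm.eventually (gt_mem_nhds hr)
    filter_upwards [H.ev2, e0] with z hz hz1
    rw [colC_val, hz.1, rr_emb hz.2, cs_emb hz.2 hz1, arg_nrm]
    exact fun h' => hz.2 (L_eq_zero.1 h')
  exact h1.congr_of_eventuallyEq e1 (e1.self_of_nhdsWithin H.mem)

end Loc

end BD
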