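import Pool.Agent.Lib.MP_e8f12b_an.BD.Ex

/-! The maps in all pairs of charts: smoothness. -/

open scoped Manifold ContDiff Topology
open Set Real

noncomputable section

namespace BD

variable {p : E2}

/-- The polar parametrization. -/
def pol (c₀ : Circle) (z : E2) : ℂ := √(2 * z 0) • (cz c₀ z : ℂ)

theorem contDiff_pol (c₀ : Circle) {S : Set E2} (hp : 0 < p 0) {n : ℕ∞ω} :
    ContDiffWithinAt ℝ n (pol c₀) S p := by
  have h1 : ContDiffAt ℝ n (fun z : E2 => √(2 * z 0)) p :=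
    (contDiffAt_const.mul (contDiff_coord 0).contDiffAt).sqrt (by positivity)
  exact (h1.smul (contDiff_cz c₀).contDiffAt).contDiffWithinAt

theorem hasFDeriv_pol (c₀ : Circle) {S : Set E2} (hp : 0 < p 0) :
    HasFDerivWithinAt (pol c₀)
      (matC ((cz c₀ p : ℂ).re / √(2 * p 0)) (-(√(2 * p 0) * (cz c₀ p : ℂ).im))
        ((cz c₀ p : ℂ).im / √(2 * p 0)) (√(2 * p 0) * (cz c₀ p : ℂ).re)) S p := by
  have h0 : (0 : ℝ) < 2 * p 0 := by positivity
  have hr : (0 : ℝ) < √(2 * p 0) := Real.sqrt_pos.2 h0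
  have h1 := ((hasFDerivAt_coord_zero p).const_mul 2).sqrt h0.ne'
  have h2 := (h1.hasFDerivWithinAt (s := S)).smul (hasFDeriv_cz (S := S) (p := p) c₀)
  refine h2.congr_fderiv ?_
  refine ContinuousLinearMap.ext fun v => ?_
  generalize √(2 * p 0) = r at hr ⊢
  refine Complex.ext ?_ ?_
  · simp
    field_simp
    ring
  · simp
    field_simp
    ring

/-- The interior points of the domain of an interior chart. -/
theorem intC_symm_I (t₀ : Tor) {z : E2} (hz : 0 ≤ z 0) :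
    (intC t₀).symm ((𝓡∂ 2).symm z) = emb (t₀ * ex (sh z)) := by
  rw [intC_symm, I_symm_val hz]

theorem colC_symm_I (c₀ : Circle) {z : E2} (hz : 0 ≤ z 0) :
    (colC c₀).symm ((𝓡∂ 2).symm z) = pt √(2 * z 0) (cz c₀ z) := by
  rw [colC_symm, I_symm_val hz]

theorem tt_pt_pol (c₀ : Circle) {z : E2} (hz1 : z 0 < 1 / 2) :
    tt (pt √(2 * z 0) (cz c₀ z)) = ex (pol c₀ z) :=
  tt_pt _ (Real.sqrt_nonneg _) (sqrt_le_one' hz1).le

theorem ex_pol_ne_one (c₀ : Circle) {z : E2} (hz : 0 < z 0) (hz1 : z 0 < 1 / 2) :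
    ex (pol c₀ z) ≠ 1 := by
  have hr : (0 : ℝ) < √(2 * z 0) := Real.sqrt_pos.2 (by positivity)
  rw [← tt_pt_pol c₀ hz1]
  intro h
  have h1 := rr_pt (cz c₀ z) (Real.sqrt_nonneg _) (sqrt_le_one' hz1).le
  rw [rr_eq_zero.2 h] at h1
  exact hr.ne h1

theorem pt_pol (c₀ : Circle) {z : E2} (hz : 0 < z 0) (hz1 : z 0 < 1 / 2) :
    pt √(2 * z 0) (cz c₀ z) = emb (ex (pol c₀ z)) := by
  have h := eq_emb (x := pt √(2 * z 0) (cz c₀ z))
    (by rw [tt_pt_pol c₀ hz1]; exact ex_pol_ne_one c₀ hz hz1)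
  rwa [tt_pt_pol c₀ hz1] at h

namespace Mx

variable (B : Mx)

theorem loc_int {t₀ : Tor} (hp : 0 ≤ p 0) (h : t₀ * ex (sh p) ≠ 1) :
    Loc (fun z => B.map ((intC t₀).symm ((𝓡∂ 2).symm z))) (B.hom t₀) (fun z => B.lin (sh z))
      (range (𝓡∂ 2)) p where
  ev := by
    have h1 : ContinuousAt (fun z => t₀ * ex (sh z)) p :=
      (continuous_const.mul (continuous_ex.comp continuous_sh)).continuousAt
    filter_upwards [nhdsWithin_le_nhds (h1.eventually (isOpen_compl_singleton.mem_nhds h)),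
      self_mem_nhdsWithin] with z hz hz0
    rw [range_I] at hz0
    rw [intC_symm_I t₀ hz0, B.map_emb hz, hom_mul, hom_ex]
  mem := by rw [range_I]; exact hp
  ne := by
    rw [← hom_ex, ← hom_mul]
    exact B.hom_ne_one h
  ct := (B.continuous_lin.comp continuous_sh).continuousWithinAt

theorem loc_col {c₀ : Circle} (hp : 0 < p 0) (hp1 : p 0 < 1 / 2) :
    Loc (fun z => B.map ((colC c₀).symm ((𝓡∂ 2).symm z))) 1 (fun z => B.lin (pol c₀ z))
      (range (𝓡∂ 2)) p where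
  ev := by
    have h1 := (continuous_coord 0).continuousAt.eventually (lt_mem_nhds hp)
    have h2 := (continuous_coord 0).continuousAt.eventually (gt_mem_nhds hp1)
    filter_upwards [nhdsWithin_le_nhds h1, nhdsWithin_le_nhds h2] with z hz hz1
    rw [colC_symm_I c₀ hz.le, pt_pol c₀ hz hz1, B.map_emb (ex_pol_ne_one c₀ hz hz1), hom_ex,
      one_mul]
  mem := by rw [range_I]; exact hp.le
  ne := by
    rw [one_mul, ← hom_ex]
    exact B.hom_ne_one (ex_pol_ne_one c₀ hp hp1)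
  ct := B.continuous_lin.continuousAt.comp_continuousWithinAt
    (contDiff_pol c₀ hp (n := 0)).continuousWithinAt

theorem col_eq (c₀ c₁ : Circle) {z : E2} (hz : 0 ≤ z 0) (hz1 : z 0 < 1 / 2)
    (hz2 : √(2 * z 0) * ‖B.lin (cz c₀ z)‖ ≤ 1) :
    (𝓡∂ 2) (colC c₁ (B.map ((colC c₀).symm ((𝓡∂ 2).symm z)))) = B.Fcol c₀ c₁ z := by
  have h1 := (sqrt_le_one' hz1).le
  have h2 : (0 : ℝ) ≤ √(2 * z 0) * ‖B.lin (cz c₀ z)‖ :=
    mul_nonneg (Real.sqrt_nonneg _) (norm_nonneg _)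
  rw [colC_symm_I c₀ hz, B.map_pt _ (Real.sqrt_nonneg _) h1 hz2, colC_val, rr_pt _ h2 hz2,
    cs_pt _ h2 hz2, arg_nrm (B.lin_ne_zero (Circle.coe_ne_zero _)), Fcol, mul_pow,
    Real.sq_sqrt (by positivity)]
  congr 1
  ring

theorem col_ev (c₀ c₁ : Circle) (hp : p 0 = 0) :
    ∀ᶠ z in 𝓝[range (𝓡∂ 2)] p,
      (𝓡∂ 2) (colC c₁ (B.map ((colC c₀).symm ((𝓡∂ 2).symm z)))) = B.Fcol c₀ c₁ z := by
  have h1 : Continuous fun z : E2 => √(2 * z 0) * ‖B.lin (cz c₀ z)‖ :=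
    (continuous_const.mul (continuous_coord 0)).sqrt.mul
      (B.contDiff_lin_cz c₀ (n := 0)).continuous.norm
  have k1 : √(2 * p 0) * ‖B.lin (cz c₀ p)‖ < 1 := by
    rw [hp, mul_zero, Real.sqrt_zero, zero_mul]
    exact one_pos
  have k2 : p 0 < 1 / 2 := by rw [hp]; norm_num
  filter_upwards [nhdsWithin_le_nhds (h1.continuousAt.eventually (gt_mem_nhds k1)),
    nhdsWithin_le_nhds ((continuous_coord 0).continuousAt.eventually (gt_mem_nhds k2)),
    self_mem_nhdsWithin] with z hz hz1 hz0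
  rw [range_I] at hz0
  exact B.col_eq c₀ c₁ hz0 hz1 hz.le

end Mx

/-- The atlas. -/
def bdAtlas : Set (OpenPartialHomeomorph Surf H2) := range intC ∪ range colC

theorem Mx.sm_expr (B : Mx) {e e' : OpenPartialHomeomorph Surf H2} (he : e ∈ bdAtlas)
    (he' : e' ∈ bdAtlas) (hp : 0 ≤ p 0) (h1 : (𝓡∂ 2).symm p ∈ e.target)
    (h2 : B.map (e.symm ((𝓡∂ 2).symm p)) ∈ e'.source) {n : ℕ∞ω} :
    ContDiffWithinAt ℝ n (expr e e' B.map) (range (𝓡∂ 2)) p := by
  rcases he with ⟨t₀, rfl⟩ | ⟨c₀, rfl⟩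
  · have hne : t₀ * ex (sh p) ≠ 1 := by
      have := h1.2
      rwa [I_symm_val hp] at this
    have H := B.loc_int hp hne
    have hφ : ContDiffWithinAt ℝ n (fun z => B.lin (sh z)) (range (𝓡∂ 2)) p :=
      (B.linL.contDiff.comp contDiff_sh).contDiffWithinAt
    rcases he' with ⟨t₁, rfl⟩ | ⟨c₁, rfl⟩
    · exact H.int_contDiff hφ h2
    · exact H.col_contDiff hφ h2
  · have hp1 : p 0 < 1 / 2 := by
      have := h1.1
      rwa [I_symm_val hp] at this
    rcases hp.eq_or_lt with hp0 | hp0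
    · rcases he' with ⟨t₁, rfl⟩ | ⟨c₁, rfl⟩
      · exfalso
        have h3 := h2.1
        rw [B.tt_map, colC_symm_I c₀ hp, ← hp0, mul_zero, Real.sqrt_zero, pt_zero, tt_bd,
          B.hom_one] at h3
        exact h3 rfl
      · have h3 : B.lin (cz c₀ p) / c₁ ∈ Complex.slitPlane := by
          have h4 := h2.2
          rw [colC_symm_I c₀ hp, ← hp0, mul_zero, Real.sqrt_zero, pt_zero, B.map_bd, cs_bd] at h4
          exact (slitPlane_nrm (B.lin_ne_zero (Circle.coe_ne_zero _)) c₁).1 h4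
        have e1 := B.col_ev c₀ c₁ hp0.symm
        exact (B.contDiff_Fcol c₀ c₁ h3).congr_of_eventuallyEq e1
          (e1.self_of_nhdsWithin (by rw [range_I]; exact hp))
    · have H := B.loc_col (c₀ := c₀) hp0 hp1
      have hφ : ContDiffWithinAt ℝ n (fun z => B.lin (pol c₀ z)) (range (𝓡∂ 2)) p :=
        B.linL.contDiff.contDiffAt.comp_contDiffWithinAt p (contDiff_pol c₀ hp0)
      rcases he' with ⟨t₁, rfl⟩ | ⟨c₁, rfl⟩
      · exact H.int_contDiff hφ h2
      · exact H.col_contDiff hφ h2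

end BD
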