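import Pool.Agent.Lib.MP_e8f12b_an.BD.Sm

/-! The expression of the maps in symplectic polar coordinates. -/

open scoped Manifold ContDiff Topology
open Set Real

noncomputable section

namespace BD

variable {S : Set E2} {p : E2}

namespace Mx

variable (B : Mx)

/-- The linear action as a continuous linear map. -/
def linL : ℂ →L[ℝ] ℂ :=
  LinearMap.toContinuousLinearMap
    { toFun := B.lin
      map_add' := B.lin_add
      map_smul' := B.lin_smul }

theorem linL_apply (ζ : ℂ) : B.linL ζ = B.lin ζ := rfl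

/-- The mixed term `⟨B c, B (i c)⟩`. -/
def q (c : ℂ) : ℝ :=
  (B.lin c).re * (B.lin (Complex.I * c)).re + (B.lin c).im * (B.lin (Complex.I * c)).im

theorem lin_det (c : Circle) :
    (B.lin c).re * (B.lin (Complex.I * c)).im - (B.lin c).im * (B.lin (Complex.I * c)).re = 1 := by
  have h1 : (c : ℂ).re * (c : ℂ).re + (c : ℂ).im * (c : ℂ).im = 1 := by
    rw [← Complex.normSq_apply, Circle.normSq_coe]
  have h2 := B.detR
  simp only [lin_re, lin_im, Complex.mul_re, Complex.mul_im, Complex.I_re, Complex.I_im]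
  linear_combination ((c : ℂ).re * (c : ℂ).re + (c : ℂ).im * (c : ℂ).im) * h2 + h1

theorem norm_lin_pos (c : Circle) : 0 < ‖B.lin c‖ :=
  norm_pos_iff.2 (B.lin_ne_zero (Circle.coe_ne_zero c))

/-- The expression of the map in boundary charts. -/
def Fcol (c₀ c₁ : Circle) (z : E2) : E2 :=
  BD.mk (z 0 * ‖B.lin (cz c₀ z)‖ ^ 2) (B.lin (cz c₀ z) / c₁).arg

theorem hasFDeriv_lin_cz (c₀ : Circle) :
    HasFDerivWithinAt (fun z : E2 => B.lin (cz c₀ z))
      (matC 0 (B.lin (Complex.I * cz c₀ p)).re 0 (B.lin (Complex.I * cz c₀ p)).im) S p := by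
  have h := B.linL.hasFDerivAt.comp_hasFDerivWithinAt p (hasFDeriv_cz (S := S) (p := p) c₀)
  refine h.congr_fderiv ?_
  refine ContinuousLinearMap.ext fun v => ?_
  rw [ContinuousLinearMap.comp_apply, linL_apply]
  refine Complex.ext ?_ ?_
  · simp
    ring
  · simp
    ring

theorem contDiff_lin_cz (c₀ : Circle) {n : ℕ∞ω} :
    ContDiff ℝ n fun z : E2 => B.lin (cz c₀ z) :=
  B.linL.contDiff.comp (contDiff_cz c₀)

theorem normSq_eq (ζ : ℂ) : ‖ζ‖ ^ 2 = ζ.re ^ 2 + ζ.im ^ 2 := by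
  rw [← Complex.normSq_eq_norm_sq, Complex.normSq_apply]
  ring

theorem contDiff_normSq {ψ : E2 → ℂ} {n : ℕ∞ω} (h : ContDiffWithinAt ℝ n ψ S p) :
    ContDiffWithinAt ℝ n (fun z => ‖ψ z‖ ^ 2) S p := by
  have h1 : ContDiffWithinAt ℝ n (fun z => (ψ z).re ^ 2 + (ψ z).im ^ 2) S p :=
    ((Complex.reCLM.contDiff.comp_contDiffWithinAt h).pow 2).add
      ((Complex.imCLM.contDiff.comp_contDiffWithinAt h).pow 2)
  simpa only [normSq_eq] using h1

theorem hasFDeriv_normSq {ψ : E2 → ℂ} {a b c d : ℝ}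
    (h : HasFDerivWithinAt ψ (matC a b c d) S p) :
    HasFDerivWithinAt (fun z => ‖ψ z‖ ^ 2)
      (row (2 * ((ψ p).re * a + (ψ p).im * c)) (2 * ((ψ p).re * b + (ψ p).im * d))) S p := by
  have h1 := (Complex.reCLM.hasFDerivAt.comp_hasFDerivWithinAt p h).pow 2
  have h2 := (Complex.imCLM.hasFDerivAt.comp_hasFDerivWithinAt p h).pow 2
  have h3 := h1.add h2
  have h4 : HasFDerivWithinAt (fun z => (ψ z).re ^ 2 + (ψ z).im ^ 2) _ S p := h3
  simp only [normSq_eq]
  refine h4.congr_fderiv ?_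
  refine ContinuousLinearMap.ext fun v => ?_
  simp
  ring

theorem contDiff_Fcol (c₀ c₁ : Circle) {n : ℕ∞ω}
    (h : B.lin (cz c₀ p) / c₁ ∈ Complex.slitPlane) :
    ContDiffWithinAt ℝ n (B.Fcol c₀ c₁) S p := by
  have h1 : ContDiffWithinAt ℝ n (fun z : E2 => B.lin (cz c₀ z)) S p :=
    (B.contDiff_lin_cz c₀).contDiffWithinAt
  exact contDiffWithinAt_mk ((contDiff_coord 0).contDiffWithinAt.mul (contDiff_normSq h1))
    (contDiff_arg (h1.div_const _) h)

theorem hasFDeriv_Fcol (c₀ c₁ : Circle) (h : B.lin (cz c₀ p) / c₁ ∈ Complex.slitPlane) :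
    HasFDerivWithinAt (B.Fcol c₀ c₁)
      (mat (‖B.lin (cz c₀ p)‖ ^ 2) (p 0 * (2 * B.q (cz c₀ p))) 0 (1 / ‖B.lin (cz c₀ p)‖ ^ 2))
      S p := by
  have h1 := B.hasFDeriv_lin_cz (S := S) (p := p) c₀
  refine hasFDerivWithinAt_mk ?_ ?_
  · have h2 := ((hasFDerivAt_coord_zero p).hasFDerivWithinAt (s := S)).mul (hasFDeriv_normSq h1)
    refine h2.congr_fderiv ?_
    refine ContinuousLinearMap.ext fun v => ?_
    simp [q]
    ring
  · have h2 := h1.mul_const ((c₁ : ℂ)⁻¹)
    simp only [← div_eq_mul_inv] at h2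
    have hc1 : (c₁ : ℂ) ≠ 0 := Circle.coe_ne_zero c₁
    have hB : B.lin (cz c₀ p) ≠ 0 := B.lin_ne_zero (Circle.coe_ne_zero _)
    refine hasFDeriv_arg h2 h ?_ ?_
    · simp
    · have e : (B.lin (cz c₀ p) / c₁)⁻¹ *
          ((c₁ : ℂ)⁻¹ • matC 0 (B.lin (Complex.I * cz c₀ p)).re 0
            (B.lin (Complex.I * cz c₀ p)).im) (bv 1) =
          B.lin (Complex.I * cz c₀ p) / B.lin (cz c₀ p) := by
        have : matC 0 (B.lin (Complex.I * cz c₀ p)).re 0
            (B.lin (Complex.I * cz c₀ p)).im (bv 1) = B.lin (Complex.I * cz c₀ p) :=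
          Complex.ext (by rw [matC_re]; simp only [bv_one_one]; ring)
            (by rw [matC_im]; simp only [bv_one_one]; ring)
        rw [smul_apply, this, smul_eq_mul]
        field_simp
      have e2 := B.lin_det (cz c₀ p)
      have e3 : Complex.normSq (B.lin (cz c₀ p)) ≠ 0 := by
        rwa [Ne, Complex.normSq_eq_zero]
      rw [e, Complex.div_im, ← Complex.normSq_eq_norm_sq]
      field_simp
      linear_combination e2

end Mx

end BD
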