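import Pool.Agent.Lib.MP_e8f12b_an.BD.WS
import Pool.Agent.Lib.MP_e8f12b_an.BD.Area
import Pool.Agent.Lib.MP_e8f12b_an.BD.Conn

/-! The cat map blown up at its fixed point. -/

open scoped Manifold ContDiff Topology
open Set Real

noncomputable section

namespace BD

/-- The matrix `(2 1; 1 1)`. -/
def cat : Mx := ⟨2, 1, 1, 1, by norm_num⟩

theorem weaklyStable_cat : WeaklyStable areaForm cat.map := by
  obtain ⟨l, h1, h2⟩ := weaklyStable_of (f := cat.map) fun x =>
    cat.localPos (by norm_num [cat]) (by norm_num [cat]) (by norm_num [cat]) (by norm_num [cat]) x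
  refine ⟨l, h1, fun g hgd _ hg => ?_⟩
  obtain ⟨φ, rfl⟩ := exists_dfm hgd
  exact h2 φ hg

theorem boundary_nonempty : ((𝓡∂ 2).boundary Surf).Nonempty := by
  refine ⟨bd 1, ?_⟩
  have h : ¬ (𝓡∂ 2).IsInteriorPoint (bd 1) := by
    rw [isInteriorPoint_iff', tt_bd]
    simp
  exact (ModelWithCorners.isInteriorPoint_or_isBoundaryPoint (bd 1)).resolve_left h

end BD
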