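import Pool.Agent.Lib.MP_e8f12b_an.BD.Bun

/-! Iterates of the maps on the boundary. -/

open scoped Manifold ContDiff Topology
open Set Real

noncomputable section

namespace BD

namespace Mx

variable (B : Mx)

theorem iter_lin_ne (k : ℕ) {ζ : ℂ} (h : ζ ≠ 0) : B.lin^[k] ζ ≠ 0 := by
  induction k with
  | zero => simpa using h
  | succ k ih =>
    rw [Function.iterate_succ_apply']
    exact B.lin_ne_zero ih

theorem lin_nrm {ζ : ℂ} (h : ζ ≠ 0) : B.lin (nrm ζ) = ‖ζ‖⁻¹ • B.lin ζ := by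
  have h1 : (nrm ζ : ℂ) = ‖ζ‖⁻¹ • ζ := by
    rw [coe_nrm h, Complex.real_smul, Complex.ofReal_inv, div_eq_inv_mul]
  rw [h1, lin_smul]

theorem iter_bd (c : Circle) (k : ℕ) :
    B.map^[k] (bd c) = bd (nrm (B.lin^[k] c)) ∧
      HasMFDerivAt (𝓡∂ 2) (𝓡∂ 2) (B.map^[k]) (bd c)
        (mat (‖B.lin^[k] c‖ ^ 2) 0 0 (1 / ‖B.lin^[k] c‖ ^ 2)) := by
  induction k with
  | zero =>
    refine ⟨?_, ?_⟩
    · simp [nrm_coe]
    · have h : HasMFDerivAt (𝓡∂ 2) (𝓡∂ 2) (id : Surf → Surf) (bd c)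
          (ContinuousLinearMap.id ℝ (TangentSpace (𝓡∂ 2) (bd c))) := hasMFDerivAt_id _
      have h2 : (mat (‖B.lin^[0] c‖ ^ 2) 0 0 (1 / ‖B.lin^[0] c‖ ^ 2)) =
          ContinuousLinearMap.id ℝ E2 := by
        rw [← mat_one]
        simp
      rw [h2]
      exact h
  | succ k ih =>
    have h0 := B.iter_lin_ne k (Circle.coe_ne_zero c)
    refine ⟨?_, ?_⟩
    · rw [Function.iterate_succ_apply', ih.1, map_bd, B.lin_nrm h0,
        nrm_smul (inv_pos.2 (norm_pos_iff.2 h0)), Function.iterate_succ_apply']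
    · have h1 := B.map_deriv_bd (nrm (B.lin^[k] c))
      rw [← ih.1] at h1
      have h2 := h1.comp (bd c) ih.2
      rw [← Function.iterate_succ'] at h2
      have h3 : mat (‖B.lin^[k + 1] c‖ ^ 2) 0 0 (1 / ‖B.lin^[k + 1] c‖ ^ 2) =
          (mat (‖B.lin (nrm (B.lin^[k] c))‖ ^ 2) 0 0 (1 / ‖B.lin (nrm (B.lin^[k] c))‖ ^ 2)).comp
            (mat (‖B.lin^[k] c‖ ^ 2) 0 0 (1 / ‖B.lin^[k] c‖ ^ 2)) := by
        have h4 : 0 < ‖B.lin^[k] c‖ := norm_pos_iff.2 h0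
        have h5 : 0 < ‖B.lin (B.lin^[k] c)‖ := norm_pos_iff.2 (B.lin_ne_zero h0)
        rw [mat_comp, B.lin_nrm h0, norm_smul, norm_inv, norm_norm,
          Function.iterate_succ_apply']
        generalize ‖B.lin^[k] c‖ = x at h4 ⊢
        generalize ‖B.lin (B.lin^[k] c)‖ = y at h5 ⊢
        congr 1
        · field_simp
          ring
        · ring
        · ring
        · field_simp
          ring
      rw [h3]
      exact h2

theorem one_le_norm_iter (k : ℕ) : 1 ≤ ‖B.lin^[k] ((1 : Circle) : ℂ)‖ := by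
  have key : ∀ k : ℕ, ∃ m n : ℤ, B.lin^[k] ((1 : Circle) : ℂ) = ⟨m, n⟩ := by
    intro k
    induction k with
    | zero => exact ⟨1, 0, Complex.ext (by simp) (by simp)⟩
    | succ k ih =>
      obtain ⟨m, n, h⟩ := ih
      refine ⟨B.a * m + B.b * n, B.c * m + B.d * n, ?_⟩
      rw [Function.iterate_succ_apply', h]
      exact Complex.ext (by simp) (by simp)
  obtain ⟨m, n, h⟩ := key k
  have h0 := B.iter_lin_ne k (Circle.coe_ne_zero 1)
  rw [h] at h0 ⊢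
  have h1 : 1 ≤ m ^ 2 + n ^ 2 := by
    by_contra hlt
    have hm : m = 0 := by nlinarith [sq_nonneg m, sq_nonneg n]
    have hn : n = 0 := by nlinarith [sq_nonneg m, sq_nonneg n]
    apply h0
    rw [hm, hn]
    exact Complex.ext (by simp) (by simp)
  have h2 : (1 : ℝ) ≤ (m : ℝ) ^ 2 + (n : ℝ) ^ 2 := by exact_mod_cast h1
  have h3 := normSq_eq (⟨m, n⟩ : ℂ)
  have h4 : (1 : ℝ) ≤ ‖(⟨m, n⟩ : ℂ)‖ ^ 2 := by rw [h3]; exact h2
  have h5 := norm_nonneg (⟨m, n⟩ : ℂ)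
  nlinarith

end Mx

end BD
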