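import Pool.Agent.Lib.MP_e8f12b_an.BD.Ch

/-! The maps of the surface induced by integer matrices of determinant one. -/

open scoped Manifold ContDiff Topology
open Set Real

noncomputable section

namespace BD

/-- Integer matrices of determinant one. -/
structure Mx where
  /-- entry -/
  a : ℤ
  /-- entry -/
  b : ℤ
  /-- entry -/
  c : ℤ
  /-- entry -/
  d : ℤ
  det : a * d - b * c = 1

namespace Mx

variable (B : Mx)

theorem detR : (B.a : ℝ) * B.d - B.b * B.c = 1 := by exact_mod_cast B.det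

/-- The inverse matrix. -/
def inv : Mx := ⟨B.d, -B.b, -B.c, B.a, by have := B.det; linarith⟩

theorem inv_inv : B.inv.inv = B := by
  cases B; simp [inv]

/-- The identity matrix. -/
def one : Mx := ⟨1, 0, 0, 1, by norm_num⟩

/-- The linear action on `ℂ = ℝ²`. -/
def lin (ζ : ℂ) : ℂ := ⟨B.a * ζ.re + B.b * ζ.im, B.c * ζ.re + B.d * ζ.im⟩

@[simp] theorem lin_re (ζ : ℂ) : (B.lin ζ).re = B.a * ζ.re + B.b * ζ.im := rfl
@[simp] theorem lin_im (ζ : ℂ) : (B.lin ζ).im = B.c * ζ.re + B.d * ζ.im := rfl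

theorem lin_add (ζ η : ℂ) : B.lin (ζ + η) = B.lin ζ + B.lin η :=
  Complex.ext (by simp; ring) (by simp; ring)

theorem lin_smul (r : ℝ) (ζ : ℂ) : B.lin (r • ζ) = r • B.lin ζ :=
  Complex.ext (by simp; ring) (by simp; ring)

theorem lin_zero : B.lin 0 = 0 := Complex.ext (by simp) (by simp)

theorem inv_lin (ζ : ℂ) : B.inv.lin (B.lin ζ) = ζ := by
  have h := B.detR
  refine Complex.ext ?_ ?_
  · simp only [lin_re, lin_im, inv]
    push_cast
    linear_combination ζ.re * h
  · simp only [lin_re, lin_im, inv]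
    push_cast
    linear_combination ζ.im * h

theorem lin_ne_zero {ζ : ℂ} (h : ζ ≠ 0) : B.lin ζ ≠ 0 := by
  intro h'
  have := B.inv_lin ζ
  rw [h', lin_zero] at this
  exact h this.symm

theorem one_lin (ζ : ℂ) : one.lin ζ = ζ := Complex.ext (by simp [one]) (by simp [one])

theorem continuous_lin : Continuous B.lin := by
  have h := Complex.equivRealProdCLM.symm.continuous.comp
    (((continuous_const (y := (B.a : ℝ))).mul Complex.continuous_re).add
      ((continuous_const (y := (B.b : ℝ))).mul Complex.continuous_im) |>.prodMk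
      (((continuous_const (y := (B.c : ℝ))).mul Complex.continuous_re).add
      ((continuous_const (y := (B.d : ℝ))).mul Complex.continuous_im)))
  exact h

/-- The action on the torus. -/
def hom (t : Tor) : Tor := (t.1 ^ B.a * t.2 ^ B.b, t.1 ^ B.c * t.2 ^ B.d)

theorem hom_ex (ζ : ℂ) : B.hom (ex ζ) = ex (B.lin ζ) := by
  refine Prod.ext ?_ ?_
  · simp [hom, ex, Circle.exp_add]
  · simp [hom, ex, Circle.exp_add]

theorem hom_mul (s t : Tor) : B.hom (s * t) = B.hom s * B.hom t := by
  rw [← ex_L s, ← ex_L t, ← ex_add, hom_ex, hom_ex, hom_ex, lin_add, ex_add]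

theorem hom_one : B.hom 1 = 1 := by rw [← ex_zero, hom_ex, lin_zero]

theorem inv_hom (t : Tor) : B.inv.hom (B.hom t) = t := by
  rw [← ex_L t, hom_ex, hom_ex, inv_lin]

theorem one_hom (t : Tor) : one.hom t = t := by
  rw [← ex_L t, hom_ex, one_lin]

theorem hom_ne_one {t : Tor} (h : t ≠ 1) : B.hom t ≠ 1 := by
  intro h'
  have := B.inv_hom t
  rw [h', hom_one] at this
  exact h this.symm

theorem continuous_hom : Continuous B.hom :=
  ((continuous_fst.zpow _).mul (continuous_snd.zpow _)).prodMk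
    ((continuous_fst.zpow _).mul (continuous_snd.zpow _))

open Classical in
/-- The map of the surface. -/
def map (x : Surf) : Surf := if tt x = 1 then bd (nrm (B.lin (cs x))) else emb (B.hom (tt x))

theorem map_bd (c : Circle) : B.map (bd c) = bd (nrm (B.lin c)) := by
  simp [map]

theorem map_of_ne {x : Surf} (h : tt x ≠ 1) : B.map x = emb (B.hom (tt x)) := by
  simp [map, h]

theorem map_emb {t : Tor} (h : t ≠ 1) : B.map (emb t) = emb (B.hom t) := by
  rw [B.map_of_ne (by rwa [tt_emb h]), tt_emb h]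

theorem tt_map (x : Surf) : tt (B.map x) = B.hom (tt x) := by
  by_cases h : tt x = 1
  · rw [eq_bd h, map_bd, tt_bd, tt_bd, hom_one]
  · rw [B.map_of_ne h, tt_emb (B.hom_ne_one h)]

theorem map_pt {r : ℝ} (c : Circle) (h0 : 0 ≤ r) (h1 : r ≤ 1) (h2 : r * ‖B.lin c‖ ≤ 1) :
    B.map (pt r c) = pt (r * ‖B.lin c‖) (nrm (B.lin c)) := by
  rcases h0.eq_or_lt with rfl | h0'
  · rw [pt_zero, zero_mul, pt_zero, map_bd]
  · have hc : (r • (c : ℂ)) ≠ 0 := smul_ne_zero h0'.ne' (Circle.coe_ne_zero c)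
    have hne : tt (pt r c) ≠ 1 := fun h' =>
      hc (by rw [← L_tt_pt c h0 h1, h', L_one])
    have hn : ‖B.lin (r • (c : ℂ))‖ = r * ‖B.lin c‖ := by
      rw [lin_smul, norm_smul, Real.norm_eq_abs, abs_of_nonneg h0]
    rw [B.map_of_ne hne, tt_pt c h0 h1, hom_ex, emb_ex (B.lin_ne_zero hc) (by rwa [hn]), hn,
      lin_smul, nrm_smul h0']

theorem inv_map (x : Surf) : B.inv.map (B.map x) = x := by
  by_cases h : tt x = 1
  · rw [eq_bd h, map_bd, map_bd]
    congr 1
    have h1 : (nrm (B.lin (cs x)) : ℂ) = ‖B.lin (cs x)‖⁻¹ • B.lin (cs x) := by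
      rw [coe_nrm (B.lin_ne_zero (Circle.coe_ne_zero _)), Complex.real_smul,
        Complex.ofReal_inv, div_eq_inv_mul]
    rw [h1, lin_smul, inv_lin, nrm_smul, nrm_coe]
    rw [inv_pos, norm_pos_iff]
    exact B.lin_ne_zero (Circle.coe_ne_zero _)
  · conv_rhs => rw [eq_emb h]
    rw [B.map_of_ne h, map_emb _ (B.hom_ne_one h), inv_hom]

theorem map_inv (x : Surf) : B.map (B.inv.map x) = x := by
  have := B.inv.inv_map x
  rwa [inv_inv] at this

theorem one_map (x : Surf) : one.map x = x := by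
  by_cases h : tt x = 1
  · rw [eq_bd h, map_bd, one_lin, nrm_coe]
  · rw [one.map_of_ne h, one_hom]
    exact (eq_emb h).symm

theorem continuous_map : Continuous B.map := by
  rw [continuous_iff_continuousAt]
  intro x
  by_cases h : tt x = 1
  · have h0 : rr x = 0 := rr_eq_zero.2 h
    have hcs : ContinuousAt (fun y : Surf => (cs y : ℂ)) x :=
      continuous_circle_coe.continuousAt.comp (continuousAt_cs (by rw [h0]; norm_num))
    have h1 : ContinuousAt (fun y : Surf => B.lin (cs y)) x :=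
      ContinuousAt.comp (g := B.lin) (f := fun y : Surf => (cs y : ℂ))
        B.continuous_lin.continuousAt hcs
    have h2 : ContinuousAt (fun y : Surf => rr y * ‖B.lin (cs y)‖) x :=
      continuous_rr.continuousAt.mul h1.norm
    have k1 : rr x * ‖B.lin (cs x)‖ < 1 := by rw [h0, zero_mul]; exact one_pos
    have k2 : rr x < 1 := by rw [h0]; exact one_pos
    have e1 : ∀ᶠ y in 𝓝 x, rr y * ‖B.lin (cs y)‖ < 1 := h2.eventually (gt_mem_nhds k1)
    have e2 : ∀ᶠ y in 𝓝 x, rr y < 1 := continuous_rr.continuousAt.eventually (gt_mem_nhds k2)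
    have h3 : ContinuousAt (fun y : Surf => nrm (B.lin (cs y))) x :=
      ContinuousAt.comp (g := nrm) (f := fun y : Surf => B.lin (cs y))
        (continuousAt_nrm (B.lin_ne_zero (Circle.coe_ne_zero _))) h1
    have h4 : ContinuousWithinAt (fun p : ℝ × Circle => pt p.1 p.2) {p | 0 ≤ p.1 ∧ p.1 ≤ 1}
        (rr x * ‖B.lin (cs x)‖, nrm (B.lin (cs x))) := by
      refine continuousOn_pt _ ?_
      rw [h0, zero_mul]
      exact ⟨le_rfl, zero_le_one⟩
    have h5 : ContinuousAt (fun y : Surf => pt (rr y * ‖B.lin (cs y)‖) (nrm (B.lin (cs y)))) x := by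
      refine Filter.Tendsto.comp h4 (tendsto_nhdsWithin_iff.2 ⟨h2.prodMk h3, ?_⟩)
      filter_upwards [e1] with y hy
      exact ⟨mul_nonneg (rr_nonneg _) (norm_nonneg _), hy.le⟩
    refine h5.congr ?_
    filter_upwards [e1, e2] with y hy1 hy2
    conv_rhs => rw [eq_pt hy2.le]
    exact (B.map_pt _ (rr_nonneg y) hy2.le hy1.le).symm
  · have h1 : ContinuousAt (fun y : Surf => emb (B.hom (tt y))) x :=
      ContinuousAt.comp (g := emb) (f := fun y : Surf => B.hom (tt y))
        (continuousAt_emb (B.hom_ne_one h)) (B.continuous_hom.comp continuous_tt).continuousAt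
    refine h1.congr ?_
    filter_upwards [(isOpen_compl_singleton.preimage continuous_tt).mem_nhds
      (show x ∈ tt ⁻¹' {(1 : Tor)}ᶜ from h)] with y hy
    exact (B.map_of_ne hy).symm

end Mx

end BD
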