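import Pool.Agent.Lib.MP_e8f12b_an.BD.Ex2

/-! The smooth structure of the surface and the smoothness of the maps. -/

open scoped Manifold ContDiff Topology
open Set Real

noncomputable section

namespace BD

open Classical in
/-- The preferred charts. -/
def bdChart (x : Surf) : OpenPartialHomeomorph Surf H2 :=
  if tt x = 1 then colC (cs x) else intC (tt x)

theorem bdChart_bd {x : Surf} (h : tt x = 1) : bdChart x = colC (cs x) := by
  simp [bdChart, h]

theorem bdChart_int {x : Surf} (h : tt x ≠ 1) : bdChart x = intC (tt x) := by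
  simp [bdChart, h]

instance instChartedSpaceSurf : ChartedSpace H2 Surf where
  atlas := bdAtlas
  chartAt := bdChart
  mem_chart_source x := by
    by_cases h : tt x = 1
    · rw [bdChart_bd h]
      refine ⟨?_, ?_⟩
      · rw [rr_eq_zero.2 h]
        exact one_pos
      · rw [div_self']
        exact Complex.one_mem_slitPlane
    · rw [bdChart_int h]
      refine ⟨h, ?_⟩
      rw [div_self']
      exact one_mem_slit
  chart_mem_atlas x := by
    by_cases h : tt x = 1
    · rw [bdChart_bd h]
      exact Or.inr ⟨_, rfl⟩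
    · rw [bdChart_int h]
      exact Or.inl ⟨_, rfl⟩

theorem chartAt_bd {x : Surf} (h : tt x = 1) : chartAt H2 x = colC (cs x) := bdChart_bd h

theorem chartAt_int {x : Surf} (h : tt x ≠ 1) : chartAt H2 x = intC (tt x) := bdChart_int h

theorem atlas_eq : atlas H2 Surf = bdAtlas := rfl

theorem intC_mem (t : Tor) : intC t ∈ atlas H2 Surf := Or.inl ⟨_, rfl⟩

theorem colC_mem (c : Circle) : colC c ∈ atlas H2 Surf := Or.inr ⟨_, rfl⟩

instance instIsManifoldSurf : IsManifold (𝓡∂ 2) ∞ Surf := by
  refine isManifold_of_contDiffOn (𝓡∂ 2) ∞ Surf fun e e' he he' z hz => ?_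
  have hz0 : 0 ≤ z 0 := by
    have := hz.2
    rwa [range_I] at this
  have h1 : (𝓡∂ 2).symm z ∈ e.target ∧ e.symm ((𝓡∂ 2).symm z) ∈ e'.source := by
    have := hz.1
    rw [mem_preimage, OpenPartialHomeomorph.trans_source] at this
    exact this
  have h2 := Mx.one.sm_expr (n := ∞) he he' hz0 h1.1 (by rw [Mx.one_map]; exact h1.2)
  have h3 : expr e e' Mx.one.map = (𝓡∂ 2) ∘ (e.symm.trans e') ∘ (𝓡∂ 2).symm := by
    funext w
    simp only [expr, Mx.one_map]
    rfl
  rw [h3] at h2
  exact h2.mono inter_subset_right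

/-- Diffeomorphisms of the surface. -/
abbrev Dfm : Type := Diffeomorph (𝓡∂ 2) (𝓡∂ 2) Surf Surf ∞

namespace Mx

variable (B : Mx)

theorem contMDiff_map : ContMDiff (𝓡∂ 2) (𝓡∂ 2) ∞ B.map := by
  intro x
  rw [contMDiffAt_iff]
  refine ⟨B.continuous_map.continuousAt, ?_⟩
  have hx : (𝓡∂ 2).symm ((𝓡∂ 2) (chartAt H2 x x)) = chartAt H2 x x :=
    (𝓡∂ 2).left_inv _
  have h0 : 0 ≤ ((𝓡∂ 2) (chartAt H2 x x)) 0 := (chartAt H2 x x).2
  have := B.sm_expr (n := ∞) (e := chartAt H2 x) (e' := chartAt H2 (B.map x))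
    (chart_mem_atlas H2 x) (chart_mem_atlas H2 (B.map x)) h0
    (by rw [hx]; exact mem_chart_target H2 x)
    (by
      rw [hx, (chartAt H2 x).left_inv (mem_chart_source H2 x)]
      exact mem_chart_source H2 (B.map x))
  exact this

/-- The diffeomorphism of the surface induced by the matrix. -/
def diffeo : Dfm where
  toFun := B.map
  invFun := B.inv.map
  left_inv := B.inv_map
  right_inv := B.map_inv
  contMDiff_toFun := B.contMDiff_map
  contMDiff_invFun := B.inv.contMDiff_map

theorem isDiffeo_map : IsDiffeo B.map :=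
  ⟨B.contMDiff_map, B.inv.map, B.inv.contMDiff_map, B.inv_map, B.map_inv⟩

theorem coe_diffeo : ⇑B.diffeo = B.map := rfl

theorem coe_diffeo_symm : ⇑B.diffeo.symm = B.inv.map := rfl

end Mx

/-- The diffeomorphism given by a smooth map with smooth inverse. -/
theorem exists_dfm {g : Surf → Surf} (hg : IsDiffeo g) : ∃ φ : Dfm, ⇑φ = g := by
  obtain ⟨h1, g', h2, h3, h4⟩ := hg
  exact ⟨{ toFun := g
           invFun := g'
           left_inv := h3
           right_inv := h4
           contMDiff_toFun := h1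
           contMDiff_invFun := h2 }, rfl⟩

theorem D_eq (f : Surf → Surf) (x : Surf) (v : E2) :
    D f x v = mfderiv (𝓡∂ 2) (𝓡∂ 2) f x v := rfl

theorem DP_eq (e : H2 → Surf) (y : H2) (v : E2) :
    DP e y v = mfderiv (𝓡∂ 2) (𝓡∂ 2) e y v := rfl

end BD
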