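import Pool.Agent.Lib.MP_e8f12b_an.BD.Iter

/-! The maps are not uniformly hyperbolic. -/

open scoped Manifold ContDiff Topology
open Set Real

noncomputable section

namespace BD

variable {N : Surf → E2 → ℝ}

namespace IsNormField

theorem add_le (hN : IsNormField N) (x : Surf) (v w : E2) : N x (v + w) ≤ N x v + N x w :=
  (hN.2 x).1 v w

theorem smul (hN : IsNormField N) (x : Surf) (c : ℝ) (v : E2) : N x (c • v) = |c| * N x v :=
  (hN.2 x).2.1 c v

theorem pos (hN : IsNormField N) (x : Surf) (v : E2) (hv : v ≠ 0) : 0 < N x v :=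
  (hN.2 x).2.2 v hv

theorem sub_le (hN : IsNormField N) (x : Surf) (v w : E2) : N x (v - w) ≤ N x v + N x w := by
  have h := hN.add_le x v ((-1 : ℝ) • w)
  rw [hN.smul, abs_neg, abs_one, one_mul, neg_smul, one_smul, ← sub_eq_add_neg] at h
  exact h

theorem zero (hN : IsNormField N) (x : Surf) : N x 0 = 0 := by
  have h1 := hN.smul x 0 0
  rwa [abs_zero, zero_mul, zero_smul] at h1

theorem nonneg (hN : IsNormField N) (x : Surf) (v : E2) : 0 ≤ N x v := by
  by_cases h : v = 0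
  · rw [h, hN.zero]
  · exact (hN.pos x v h).le

/-- A bound of the norm of the boundary direction. -/
theorem bound (hN : IsNormField N) : ∃ R, ∀ c : Circle, N (bd c) (bv 1) ≤ R := by
  have h : Continuous fun c : Circle => N (bd c) (bv 1) := hN.1.comp continuous_bdVec
  obtain ⟨R, hR⟩ := (isCompact_univ (X := Circle)).bddAbove_image h.continuousOn
  exact ⟨R, fun c => hR ⟨c, mem_univ _, rfl⟩⟩

end IsNormField

theorem Mx.iter_bound (B : Mx) (hN : IsNormField N) {R : ℝ}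
    (hR : ∀ c : Circle, N (bd c) (bv 1) ≤ R) (k : ℕ) :
    N (B.map^[k] (bd 1)) (D (B.map^[k]) (bd 1) (bv 1)) ≤ R := by
  obtain ⟨h1, h2⟩ := B.iter_bd 1 k
  have h3 := B.one_le_norm_iter k
  set v := B.lin^[k] ((1 : Circle) : ℂ) with hv
  have h4 : D (B.map^[k]) (bd 1) (bv 1) = (1 / ‖v‖ ^ 2) • bv 1 := by
    rw [D_eq, h2.mfderiv]
    have h9 : mat (‖v‖ ^ 2) 0 0 (1 / ‖v‖ ^ 2) (bv 1) = (1 / ‖v‖ ^ 2) • bv 1 :=
      E2.ext (by simp) (by simp)
    exact h9
  have h7 : |1 / ‖v‖ ^ 2| ≤ 1 := by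
    rw [abs_of_nonneg (by positivity), div_le_one (by positivity)]
    nlinarith
  have h8 := hN.nonneg (bd (nrm v)) (bv 1)
  rw [h1, h4, hN.smul]
  calc |1 / ‖v‖ ^ 2| * N (bd (nrm v)) (bv 1)
      ≤ 1 * N (bd (nrm v)) (bv 1) := mul_le_mul_of_nonneg_right h7 h8
    _ ≤ R := by rw [one_mul]; exact hR _

section abstract

variable {f g : Surf → Surf}

theorem md_iter (hf : MDifferentiable (𝓡∂ 2) (𝓡∂ 2) f) (k : ℕ) :
    MDifferentiable (𝓡∂ 2) (𝓡∂ 2) (f^[k]) := by
  induction k with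
  | zero => exact mdifferentiable_id
  | succ k ih =>
    rw [Function.iterate_succ']
    exact hf.comp ih

theorem D_comp (hg : MDifferentiable (𝓡∂ 2) (𝓡∂ 2) g) (hf : MDifferentiable (𝓡∂ 2) (𝓡∂ 2) f)
    (x : Surf) (v : E2) : D (g ∘ f) x v = D g (f x) (D f x v) := by
  rw [D_eq, D_eq, D_eq, mfderiv_comp x (hg _) (hf _)]
  rfl

theorem D_id (x : Surf) (v : E2) : D id x v = v := by
  rw [D_eq, mfderiv_id]
  rfl

theorem D_sub (f : Surf → Surf) (x : Surf) (v w : E2) : D f x (v - w) = D f x v - D f x w := by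
  rw [D_eq, D_eq, D_eq]
  exact map_sub (mfderiv (𝓡∂ 2) (𝓡∂ 2) f x) v w

theorem D_zero (f : Surf → Surf) (x : Surf) : D f x 0 = 0 := by
  rw [D_eq]
  exact map_zero (mfderiv (𝓡∂ 2) (𝓡∂ 2) f x)

theorem mem_iter {E : Surf → Set E2} (hf : MDifferentiable (𝓡∂ 2) (𝓡∂ 2) f)
    (hE : ∀ x, ∀ v ∈ E x, D f x v ∈ E (f x)) (k : ℕ) (x : Surf) {v : E2} (hv : v ∈ E x) :
    D (f^[k]) x v ∈ E (f^[k] x) := by
  induction k with
  | zero =>
    rw [Function.iterate_zero, D_id]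
    exact hv
  | succ k ih =>
    rw [Function.iterate_succ', D_comp hf (md_iter hf k)]
    exact hE _ _ ih

theorem D_inv (hg : MDifferentiable (𝓡∂ 2) (𝓡∂ 2) g)
    (hf : MDifferentiable (𝓡∂ 2) (𝓡∂ 2) f) (h : g ∘ f = id) (x : Surf) (v : E2) :
    D g (f x) (D f x v) = v := by
  rw [← D_comp hg hf, h, D_id]

end abstract

theorem IsLine.sub_mem {l : Set E2} (hl : IsLine l) {v w : E2} (hv : v ∈ l) (hw : w ∈ l) :
    v - w ∈ l := by
  obtain ⟨u, -, hu⟩ := hl
  obtain ⟨a, rfl⟩ := (hu v).1 hv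
  obtain ⟨b, rfl⟩ := (hu w).1 hw
  exact (hu _).2 ⟨a - b, (sub_smul a b u).symm⟩

/-- Two different lines span the plane. -/
theorem IsLine.decomp {l m : Set E2} (hl : IsLine l) (hm : IsLine m) (h : l ∩ m = {0}) (v : E2) :
    ∃ a ∈ l, ∃ b ∈ m, a + b = v := by
  obtain ⟨u, hu0, hu⟩ := hl
  obtain ⟨w, hw0, hw⟩ := hm
  have hdet : u 0 * w 1 - u 1 * w 0 ≠ 0 := by
    intro hd
    -- then `w` is a multiple of `u`
    have hmem : w ∈ l := by
      rw [hu]
      by_cases h0 : u 0 = 0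
      · have h1 : u 1 ≠ 0 := by
          intro h1
          exact hu0 (E2.ext (by simpa using h0) (by simpa using h1))
        refine ⟨w 1 / u 1, E2.ext ?_ ?_⟩
        · have h2 : w 0 = 0 := by
            rw [h0] at hd
            have : u 1 * w 0 = 0 := by linarith
            exact (mul_eq_zero.1 this).resolve_left h1
          simp [h0, h2]
        · simp [h1]
      · refine ⟨w 0 / u 0, E2.ext ?_ ?_⟩
        · simp [h0]
        · have : w 1 = w 0 / u 0 * u 1 := by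
            field_simp
            linarith
          simpa using this
    have hw' : w ∈ m := (hw w).2 ⟨1, (one_smul ℝ w).symm⟩
    have : w ∈ l ∩ m := ⟨hmem, hw'⟩
    rw [h] at this
    exact hw0 this
  refine ⟨((v 0 * w 1 - v 1 * w 0) / (u 0 * w 1 - u 1 * w 0)) • u, (hu _).2 ⟨_, rfl⟩,
    ((u 0 * v 1 - u 1 * v 0) / (u 0 * w 1 - u 1 * w 0)) • w, (hw _).2 ⟨_, rfl⟩, ?_⟩
  refine E2.ext ?_ ?_
  · change (v 0 * w 1 - v 1 * w 0) / (u 0 * w 1 - u 1 * w 0) * u 0 +
      (u 0 * v 1 - u 1 * v 0) / (u 0 * w 1 - u 1 * w 0) * w 0 = v 0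
    rw [div_mul_eq_mul_div, div_mul_eq_mul_div, ← add_div, div_eq_iff hdet]
    ring
  · change (v 0 * w 1 - v 1 * w 0) / (u 0 * w 1 - u 1 * w 0) * u 1 +
      (u 0 * v 1 - u 1 * v 0) / (u 0 * w 1 - u 1 * w 0) * w 1 = v 1
    rw [div_mul_eq_mul_div, div_mul_eq_mul_div, ← add_div, div_eq_iff hdet]
    ring

theorem eq_zero_of_le_geom {a C lam M : ℝ} (ha : 0 ≤ a) (h0 : 0 < lam) (h1 : lam < 1)
    (h : ∀ k : ℕ, a ≤ C * lam ^ k * M) : a = 0 := by
  have h2 : Filter.Tendsto (fun k : ℕ => C * lam ^ k * M) Filter.atTop (𝓝 (C * 0 * M)) :=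
    ((tendsto_pow_atTop_nhds_zero_of_lt_one h0.le h1).const_mul C).mul_const M
  have h3 := ge_of_tendsto' h2 h
  simp only [mul_zero, zero_mul] at h3
  exact le_antisymm h3 ha

theorem Mx.not_uniformlyHyperbolic (B : Mx) : ¬ UniformlyHyperbolic B.map := by
  rintro ⟨N, Es, Eu, C, lam, hN, hC, hl0, hl1, hLs, hLu, hcompl, hEs, hEu, hs, hu⟩
  obtain ⟨R, hR⟩ := hN.bound
  have hf : MDifferentiable (𝓡∂ 2) (𝓡∂ 2) B.map := B.contMDiff_map.mdifferentiable (by simp)
  have hg : MDifferentiable (𝓡∂ 2) (𝓡∂ 2) B.inv.map :=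
    B.inv.contMDiff_map.mdifferentiable (by simp)
  have hgf : ∀ k : ℕ, B.inv.map^[k] ∘ B.map^[k] = id := fun k =>
    (Function.LeftInverse.iterate B.inv_map k).comp_eq_id
  have hfg : ∀ k : ℕ, B.map^[k] ∘ B.inv.map^[k] = id := fun k =>
    (Function.LeftInverse.iterate B.map_inv k).comp_eq_id
  set x₀ : Surf := bd 1 with hx0
  -- first step: the boundary direction at `x₀` is stable
  obtain ⟨vs, hvs, vu, hvu, hv⟩ := (hLs.1 x₀).decomp (hLu.1 x₀) (hcompl x₀) (bv 1)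
  have hvu0 : N x₀ vu = 0 := by
    refine eq_zero_of_le_geom (C := C) (M := R + C * N x₀ vs) (hN.nonneg _ _) hl0 hl1
      fun k => ?_
    have h3 := hu x₀ k vu hvu
    have h4 : D (B.map^[k]) x₀ vu = D (B.map^[k]) x₀ (bv 1) - D (B.map^[k]) x₀ vs := by
      rw [← D_sub, ← hv, add_sub_cancel_left]
    have h5 := hN.sub_le (B.map^[k] x₀) (D (B.map^[k]) x₀ (bv 1)) (D (B.map^[k]) x₀ vs)
    have h6 := B.iter_bound hN hR k
    have h7 := hs x₀ k vs hvs
    have h8 : C * lam ^ k * N x₀ vs ≤ C * N x₀ vs := by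
      refine mul_le_mul_of_nonneg_right ?_ (hN.nonneg _ _)
      have := pow_le_one₀ (n := k) hl0.le hl1.le
      nlinarith
    rw [h4] at h3
    refine h3.trans (mul_le_mul_of_nonneg_left ?_ (by positivity))
    exact h5.trans (add_le_add h6 (le_trans h7 h8))
  have hvu1 : vu = 0 := by
    by_contra h
    exact absurd hvu0 (hN.pos x₀ vu h).ne'
  have hb : bv 1 ∈ Es x₀ := by
    rw [← hv, hvu1, add_zero]
    exact hvs
  -- second step: backward iterates
  have hb0 : N x₀ (bv 1) = 0 := by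
    refine eq_zero_of_le_geom (C := C) (M := R) (hN.nonneg _ _) hl0 hl1 fun k => ?_
    set y := B.inv.map^[k] x₀ with hy
    set u := D (B.inv.map^[k]) x₀ (bv 1) with hu'
    have hfy : B.map^[k] y = x₀ := congrFun (hfg k) x₀
    have hDu : D (B.map^[k]) y u = bv 1 := D_inv (md_iter hf k) (md_iter hg k) (hfg k) x₀ (bv 1)
    obtain ⟨a, ha, b, hb', hab⟩ := (hLs.1 y).decomp (hLu.1 y) (hcompl y) u
    have h1 : D (B.map^[k]) y b ∈ Es (B.map^[k] y) := by
      have h2 : D (B.map^[k]) y b = D (B.map^[k]) y u - D (B.map^[k]) y a := by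
        rw [← D_sub, ← hab, add_sub_cancel_left]
      rw [h2]
      refine (hLs.1 _).sub_mem ?_ (mem_iter hf hEs k y ha)
      rw [hDu, hfy]
      exact hb
    have h3 : D (B.map^[k]) y b ∈ Es (B.map^[k] y) ∩ Eu (B.map^[k] y) :=
      ⟨h1, mem_iter hf hEu k y hb'⟩
    rw [hcompl] at h3
    have h4 : D (B.map^[k]) y b = 0 := h3
    have h5 : b = 0 := by
      have h6 := D_inv (md_iter hg k) (md_iter hf k) (hgf k) y b
      rw [h4, D_zero] at h6
      exact h6.symm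
    have h7 : u ∈ Es y := by
      rw [← hab, h5, add_zero]
      exact ha
    have h8 := hs y k u h7
    rw [hDu, hfy] at h8
    have h9 := B.inv.iter_bound hN hR k
    exact h8.trans (mul_le_mul_of_nonneg_left h9 (by positivity))
  have hne : bv 1 ≠ 0 := by
    intro h
    have h1 : (bv 1 : E2) 1 = (0 : E2) 1 := by rw [h]
    simp at h1
  exact absurd hb0 (hN.pos x₀ _ hne).ne'

end BD
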