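import Pool.Agent.Lib.MP_e8f12b_an.BD.Chain
import Pool.Agent.Lib.MP_e8f12b_an.BD.Pos

/-! Neighbourhoods of the maps: interior points. -/

open scoped Manifold ContDiff Topology
open Set Real

noncomputable section

namespace BD

/-- The difference of the expressions of `g` and `f`. -/
def dif (D : Datum Surf) (f g : Surf → Surf) : E2 → E2 :=
  expr D.e D.e' g - expr D.e D.e' f

theorem symm_I_e {D : Datum Surf} {x : Surf} (hx : x ∈ D.K) :
    D.e.symm ((𝓡∂ 2).symm ((𝓡∂ 2) (D.e x))) = x := by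
  rw [(𝓡∂ 2).left_inv, D.e.left_inv (D.hKe hx)]

theorem contDiff_dif {D : Datum Surf} {f g : Surf → Surf} (hf : ContMDiff (𝓡∂ 2) (𝓡∂ 2) ∞ f)
    (hg : ContMDiff (𝓡∂ 2) (𝓡∂ 2) ∞ g) (hfK : MapsTo f D.K D.e'.source)
    (hgK : MapsTo g D.K D.e'.source) {x : Surf} (hx : x ∈ D.K) :
    ContDiffWithinAt ℝ ∞ (expr D.e D.e' g) (range (𝓡∂ 2)) ((𝓡∂ 2) (D.e x)) ∧
      ContDiffWithinAt ℝ ∞ (expr D.e D.e' f) (range (𝓡∂ 2)) ((𝓡∂ 2) (D.e x)) := by
  have h0 : 0 ≤ ((𝓡∂ 2) (D.e x)) 0 := (D.e x).2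
  have h1 : (𝓡∂ 2).symm ((𝓡∂ 2) (D.e x)) ∈ D.e.target := by
    rw [(𝓡∂ 2).left_inv]
    exact D.e.map_source (D.hKe hx)
  refine ⟨contDiff_expr hg D.he D.he' h0 h1 ?_, contDiff_expr hf D.he D.he' h0 h1 ?_⟩
  · rw [symm_I_e hx]
    exact hgK hx
  · rw [symm_I_e hx]
    exact hfK hx

theorem norm_dif {D : Datum Surf} {f g : Surf → Surf} (hn : D.Near f g)
    {x : Surf} (hx : x ∈ D.K) {j : ℕ} (hj : j ≤ D.k) :
    ‖iteratedFDerivWithin ℝ j (dif D f g) (range (𝓡∂ 2)) ((𝓡∂ 2) (D.e x))‖ < D.ε := by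
  exact hn.2 x hx j hj

theorem abs_coord_le (v : E2) (i : Fin 2) : |v i| ≤ ‖v‖ := by
  rw [← Real.norm_eq_abs]
  exact PiLp.norm_apply_le v i

theorem norm_bv (i : Fin 2) : ‖bv i‖ = 1 := by simp [bv]

theorem abs_entry_le (M : E2 →L[ℝ] E2) (i j : Fin 2) : |M (bv j) i| ≤ ‖M‖ :=
  (abs_coord_le _ i).trans ((M.le_opNorm (bv j)).trans (by rw [norm_bv, mul_one]))

/-- Local positivity of the derivatives near `f`. -/
def LocalPos (f : Surf → Surf) (x : Surf) : Prop :=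
  ∃ D : Datum Surf, D.K ∈ 𝓝 x ∧ MapsTo f D.K D.e'.source ∧
    ∀ g : Dfm, D.Near f g → ∀ y ∈ D.K, tt y ≠ 1 → tt (g y) ≠ 1 →
      PosM (mfderiv (𝓡∂ 2) (𝓡∂ 2) g y)

theorem Mx.localPos_int (B : Mx) (ha : 1 ≤ B.a) (hb : 1 ≤ B.b) (hc : 1 ≤ B.c) (hd : 1 ≤ B.d)
    {x : Surf} (hx : tt x ≠ 1) : LocalPos B.map x := by
  have hfx : tt (B.map x) ≠ 1 := by
    rw [B.tt_map]
    exact B.hom_ne_one hx
  have hmem : (intC (tt x)).source ∩ B.map ⁻¹' (intC (tt (B.map x))).source ∈ 𝓝 x :=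
    Filter.inter_mem ((intC (tt x)).open_source.mem_nhds (mem_chartAt_int hx))
      (((intC (tt (B.map x))).open_source.preimage B.continuous_map).mem_nhds
        (mem_chartAt_int hfx))
  obtain ⟨K, hK, hKs, hKc⟩ := local_compact_nhds hmem
  refine ⟨⟨intC (tt x), intC (tt (B.map x)), intC_mem _, intC_mem _, K, hKc,
    fun y hy => (hKs hy).1, 1, 1 / 2, by norm_num⟩, hK, fun y hy => (hKs hy).2, ?_⟩
  intro g hn y hy hy1 hgy1
  set D : Datum Surf := ⟨intC (tt x), intC (tt (B.map x)), intC_mem _, intC_mem _, K, hKc,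
    fun y hy => (hKs hy).1, 1, 1 / 2, by norm_num⟩ with hD
  have hfK : MapsTo B.map D.K D.e'.source := fun y hy => (hKs hy).2
  have hys : y ∈ (intC (tt x)).source := D.hKe hy
  have hsy : (intC (tt x)).symm (intC (tt x) y) = y := (intC (tt x)).left_inv hys
  have hE := norm_dif (D := D) hn hy (j := 1) le_rfl
  obtain ⟨c1, c2⟩ := contDiff_dif (D := D) B.contMDiff_map g.contMDiff hfK hn.1 hy
  have hu : UniqueDiffWithinAt ℝ (range (𝓡∂ 2)) ((𝓡∂ 2) (D.e y)) :=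
    (𝓡∂ 2).uniqueDiffOn _ (mem_range_self _)
  rw [norm_iteratedFDerivWithin_one _ hu, dif, fderivWithin_sub hu
    (c1.differentiableWithinAt (by simp)) (c2.differentiableWithinAt (by simp))] at hE
  have hg1 := chain (e := intC (tt x)) (e' := intC (tt (B.map x))) (y := intC (tt x) y)
    g.contMDiff (intC_mem _) (intC_mem _) ((intC (tt x)).map_source hys)
    (by rw [hsy]; exact hn.1 hy) (intC_symm_deriv ((intC (tt x)).map_source hys))
    (intC_symm_deriv ((intC (tt (B.map x))).map_source (by rw [hsy]; exact hn.1 hy)))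
  have hf1 := chain (e := intC (tt x)) (e' := intC (tt (B.map x))) (y := intC (tt x) y)
    B.contMDiff_map (intC_mem _) (intC_mem _) ((intC (tt x)).map_source hys)
    (by rw [hsy]; exact hfK hy) (intC_symm_deriv ((intC (tt x)).map_source hys))
    (intC_symm_deriv ((intC (tt (B.map x))).map_source (by rw [hsy]; exact hfK hy)))
  rw [hsy, (B.map_deriv_int hy1).mfderiv] at hf1
  rw [hsy] at hg1
  simp only [mat_one, ContinuousLinearMap.id_apply] at hf1 hg1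
  intro i j
  have e1 := abs_entry_le (fderivWithin ℝ (expr D.e D.e' g) (range (𝓡∂ 2)) ((𝓡∂ 2) (D.e y)) -
    fderivWithin ℝ (expr D.e D.e' B.map) (range (𝓡∂ 2)) ((𝓡∂ 2) (D.e y))) i j
  have e2 := e1.trans_lt hE
  have e3 : 1 ≤ (mat B.a B.b B.c B.d (bv j)) i := by
    have ha' : (1 : ℝ) ≤ B.a := by exact_mod_cast ha
    have hb' : (1 : ℝ) ≤ B.b := by exact_mod_cast hb
    have hc' : (1 : ℝ) ≤ B.c := by exact_mod_cast hc
    have hd' : (1 : ℝ) ≤ B.d := by exact_mod_cast hd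
    fin_cases i <;> fin_cases j <;> simpa
  obtain ⟨w, hw⟩ : ∃ w : E2, w = mfderiv (𝓡∂ 2) (𝓡∂ 2) g y (bv j) := ⟨_, rfl⟩
  have e4 : w =
      fderivWithin ℝ (expr D.e D.e' g) (range (𝓡∂ 2)) ((𝓡∂ 2) (D.e y)) (bv j) :=
    hw.trans (hg1 (bv j))
  have e5 : mat B.a B.b B.c B.d (bv j) =
      fderivWithin ℝ (expr D.e D.e' B.map) (range (𝓡∂ 2)) ((𝓡∂ 2) (D.e y)) (bv j) := hf1 (bv j)
  have e6 : w i - (mat B.a B.b B.c B.d (bv j)) i =
      (fderivWithin ℝ (expr D.e D.e' g) (range (𝓡∂ 2)) ((𝓡∂ 2) (D.e y)) -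
        fderivWithin ℝ (expr D.e D.e' B.map) (range (𝓡∂ 2)) ((𝓡∂ 2) (D.e y))) (bv j) i := by
    rw [e4, e5]
    rfl
  rw [← e6] at e2
  have e7 := (abs_lt.1 e2).1
  have e8 : D.ε = 1 / 2 := rfl
  rw [e8] at e7
  have e9 : 0 < w i := by linarith
  rw [hw] at e9
  exact e9

end BD
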