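import Pool.Agent.Lib.MP_e8f12b_an.BD.NearC0
import Pool.Agent.Lib.MP_e8f12b_an.BD.NearI

/-! Neighbourhoods of the maps: boundary points. -/

open scoped Manifold ContDiff Topology
open Set Real

noncomputable section

namespace BD

theorem sub_mat_zero (M : E2 →L[ℝ] E2) (a b c d : ℝ) (v : E2) :
    (M - mat a b c d) v 0 = M v 0 - (a * v 0 + b * v 1) := rfl

theorem sub_mat_one (M : E2 →L[ℝ] E2) (a b c d : ℝ) (v : E2) :
    (M - mat a b c d) v 1 = M v 1 - (c * v 0 + d * v 1) := rfl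

theorem expr_bd (e' : Circle) (c₀ : Circle) (g : Dfm) {z : E2} (hz : z 0 = 0) :
    expr (colC c₀) (colC e') g z 0 = 0 := by
  have h1 : (colC c₀).symm ((𝓡∂ 2).symm z) = bd (cz c₀ z) := by
    rw [colC_symm_I c₀ hz.ge, hz, mul_zero, Real.sqrt_zero, pt_zero]
  rw [expr, h1, colC_val, mk_zero]
  have h2 : tt (g (bd (cz c₀ z))) = 1 := (g.tt_eq_one).2 (tt_bd _)
  rw [rr_eq_zero.2 h2]
  norm_num

theorem Mx.expr_hasFDeriv (B : Mx) {c₀ c₁ : Circle} {z : E2} (hz : 0 ≤ z 0) (hz1 : z 0 < 1 / 2)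
    (hz2 : √(2 * z 0) * ‖B.lin (cz c₀ z)‖ < 1)
    (hs : B.lin (cz c₀ z) / (c₁ : ℂ) ∈ Complex.slitPlane) :
    expr (colC c₀) (colC c₁) B.map z = B.Fcol c₀ c₁ z ∧
    HasFDerivWithinAt (expr (colC c₀) (colC c₁) B.map)
      (mat (‖B.lin (cz c₀ z)‖ ^ 2) (z 0 * (2 * B.q (cz c₀ z))) 0 (1 / ‖B.lin (cz c₀ z)‖ ^ 2))
      (range (𝓡∂ 2)) z := by
  have h1 : Continuous fun z : E2 => √(2 * z 0) * ‖B.lin (cz c₀ z)‖ :=
    (continuous_const.mul (continuous_coord 0)).sqrt.mul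
      (B.contDiff_lin_cz c₀ (n := 0)).continuous.norm
  have hev : ∀ᶠ w in 𝓝[range (𝓡∂ 2)] z,
      expr (colC c₀) (colC c₁) B.map w = B.Fcol c₀ c₁ w := by
    filter_upwards [nhdsWithin_le_nhds (h1.continuousAt.eventually (gt_mem_nhds hz2)),
      nhdsWithin_le_nhds ((continuous_coord 0).continuousAt.eventually (gt_mem_nhds hz1)),
      self_mem_nhdsWithin] with w a b c
    rw [range_I] at c
    exact B.col_eq c₀ c₁ c b a.le
  have hself := hev.self_of_nhdsWithin (by rw [range_I]; exact hz)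
  exact ⟨hself, (B.hasFDeriv_Fcol c₀ c₁ hs).congr_of_eventuallyEq hev hself⟩

theorem Mx.localPos_bd (B : Mx) (ha : 1 ≤ B.a) (hb : 1 ≤ B.b) (hc : 1 ≤ B.c) (hd : 1 ≤ B.d)
    (c₀ : Circle) : LocalPos B.map (bd c₀) := by
  obtain ⟨ε, hε, ρ, hρ, hρ2, θ, hθ, hθ2, hch⟩ := B.choice ha hb hc hd c₀
  set c₁ : Circle := nrm (B.lin c₀) with hc1
  obtain ⟨D, hD⟩ : ∃ D : Datum Surf, D = ⟨colC c₀, colC c₁, colC_mem _, colC_mem _,
    colK c₀ ρ θ, isCompact_colK hρ2 hθ2, colK_subset hρ2 hθ2, 2, ε, hε⟩ := ⟨_, rfl⟩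
  have hDe : D.e = colC c₀ := by rw [hD]
  have hDe' : D.e' = colC c₁ := by rw [hD]
  have hDK : D.K = colK c₀ ρ θ := by rw [hD]
  have hDk : D.k = 2 := by rw [hD]
  have hDε : D.ε = ε := by rw [hD]
  have hfK : MapsTo B.map D.K D.e'.source := by
    rw [hDK, hDe']
    rintro _ ⟨z, hz, rfl⟩
    have h1 := (sqrt_le_one' (hz.2.1.trans_lt hρ2)).le
    have h2 : (0 : ℝ) ≤ √(2 * z 0) * ‖B.lin (cz c₀ z)‖ :=
      mul_nonneg (Real.sqrt_nonneg _) (norm_nonneg _)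
    have h3 := (hch z hz).1
    change B.map ((colC c₀).symm ((𝓡∂ 2).symm z)) ∈ (colC c₁).source
    rw [colC_symm_I c₀ hz.1, B.map_pt _ (Real.sqrt_nonneg _) h1 h3.le]
    refine ⟨?_, ?_⟩
    · rw [rr_pt _ h2 h3.le]
      exact h3
    · rw [cs_pt _ h2 h3.le, slitPlane_nrm (B.lin_ne_zero (Circle.coe_ne_zero _))]
      exact (hch z hz).2.1
  refine ⟨D, ?_, hfK, ?_⟩
  · rw [hDK]
    exact colK_mem_nhds hρ hθ
  intro g hn y hy hy1 hgy1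
  have hsub : ∀ z ∈ sector ρ θ, ∃ x ∈ D.K, (𝓡∂ 2) (D.e x) = z := by
    intro z hz
    refine ⟨(colC c₀).symm ((𝓡∂ 2).symm z), ?_, ?_⟩
    · rw [hDK]
      exact ⟨z, hz, rfl⟩
    · rw [hDe, (colC c₀).right_inv (symm_mem_target hρ2 hθ2 hz), (𝓡∂ 2).right_inv
        (sector_subset _ _ hz)]
  have hE1 : ∀ z ∈ sector ρ θ, ContDiffWithinAt ℝ ∞ (dif D B.map g) (range (𝓡∂ 2)) z := by
    intro z hz
    obtain ⟨x, hx, rfl⟩ := hsub z hz
    obtain ⟨h1, h2⟩ := contDiff_dif B.contMDiff_map g.contMDiff hfK hn.1 hx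
    exact h1.sub h2
  have hE2 : ∀ z ∈ sector ρ θ, ∀ j ≤ 2,
      ‖iteratedFDerivWithin ℝ j (dif D B.map g) (range (𝓡∂ 2)) z‖ ≤ ε := by
    intro z hz j hj
    obtain ⟨x, hx, rfl⟩ := hsub z hz
    have := norm_dif hn hx (j := j) (by rw [hDk]; exact hj)
    rw [hDε] at this
    exact this.le
  have hE3 : ∀ z : E2, z 0 = 0 → dif D B.map g z 0 = 0 := by
    intro z hz
    have h1 := expr_bd c₁ c₀ g hz
    have h2 := expr_bd c₁ c₀ B.diffeo hz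
    have h3 : dif D B.map g z 0 = expr (colC c₀) (colC c₁) g z 0 -
        expr (colC c₀) (colC c₁) B.diffeo z 0 := by
      rw [dif, hDe, hDe']
      rfl
    rw [h3, h1, h2, sub_zero]
  obtain ⟨hnK, -⟩ := hn
  rw [hDK, hDe'] at hnK
  rw [hDK] at hy
  obtain ⟨z, hz, rfl⟩ := hy
  have hgy : g ((colC c₀).symm ((𝓡∂ 2).symm z)) ∈ (colC c₁).source := hnK ⟨z, hz, rfl⟩
  have hval : ((𝓡∂ 2).symm z).1 = z := I_symm_val hz.1
  have hyT : (𝓡∂ 2).symm z ∈ (colC c₀).target := symm_mem_target hρ2 hθ2 hz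
  have hz0 : 0 < z 0 := by
    rcases hz.1.eq_or_lt with h | h
    · exfalso
      apply hy1
      change tt ((colC c₀).symm ((𝓡∂ 2).symm z)) = 1
      rw [colC_symm_I c₀ hz.1, ← h, mul_zero, Real.sqrt_zero, pt_zero, tt_bd]
    · exact h
  have hz1 : z 0 < 1 / 2 := hz.2.1.trans_lt hρ2
  obtain ⟨w, hw⟩ : ∃ w : E2, w = (colC c₁ (g ((colC c₀).symm ((𝓡∂ 2).symm z)))).1 := ⟨_, rfl⟩
  have hwG : expr (colC c₀) (colC c₁) g z = w := hw.symm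
  have hw0 : 0 < w 0 := by
    have h1 : w = BD.mk (rr (g ((colC c₀).symm ((𝓡∂ 2).symm z))) ^ 2 / 2)
        ((cs (g ((colC c₀).symm ((𝓡∂ 2).symm z))) / c₁ : Circle) : ℂ).arg :=
      hw.trans (colC_val _ _)
    rw [h1, mk_zero]
    have h2 := rr_pos.2 hgy1
    positivity
  obtain ⟨DG, hDG⟩ : ∃ DG : E2 →L[ℝ] E2,
    DG = fderivWithin ℝ (expr (colC c₀) (colC c₁) g) (range (𝓡∂ 2)) z := ⟨_, rfl⟩
  -- the chain rule
  have hch1 := colC_symm_deriv hyT (by rw [hval]; exact hz0)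
  have hgT := (colC c₁).map_source hgy
  have hch2 := colC_symm_deriv hgT (by rw [← hw]; exact hw0)
  have hcomp := chain g.contMDiff (colC_mem c₀) (colC_mem c₁) hyT hgy hch1 hch2
  rw [hval, ← hw, ← hDG] at hcomp
  have hr : 0 < √(2 * z 0) := Real.sqrt_pos.2 (by positivity)
  have hrg : 0 < √(2 * w 0) := Real.sqrt_pos.2 (by positivity)
  have hcart := cart_eq hr hrg (cz c₀ z) (cz c₁ w)
    (mfderiv (𝓡∂ 2) (𝓡∂ 2) g ((colC c₀).symm ((𝓡∂ 2).symm z)))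
    (DG (bv 0) 0) (DG (bv 1) 0) (DG (bv 0) 1) (DG (bv 1) 1)
    (fun v => by rw [← eq_mat DG]; exact hcomp v)
  have hgoal : PosM (cart (cz c₀ z) (cz c₁ w) (√(2 * w 0) ^ 2 / √(2 * z 0) ^ 2) (DG (bv 0) 0)
      (DG (bv 1) 0 / √(2 * z 0) ^ 2) (DG (bv 0) 1 * √(2 * z 0) ^ 2) (DG (bv 1) 1)) := by
    obtain ⟨s1, s2, s3⟩ := hch z hz
    obtain ⟨F1, F2⟩ := B.expr_hasFDeriv (c₀ := c₀) (c₁ := c₁) hz.1 hz1 s1 s2
    obtain ⟨q1, q2, q3, q4⟩ := calc0 hE1 hE2 hE3 hz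
    have hu : UniqueDiffWithinAt ℝ (range (𝓡∂ 2)) z := uniqueDiffWithinAt_I hz.1
    have d1 : dif D B.map g z = w - B.Fcol c₀ c₁ z := by
      rw [dif, hDe, hDe', ← hwG, ← F1]
      rfl
    have hz' := hsub z hz
    obtain ⟨x, hx, hxz⟩ := hz'
    obtain ⟨t1, t2⟩ := contDiff_dif B.contMDiff_map g.contMDiff hfK (by
      rw [hDK, hDe']; exact hnK) hx
    rw [hxz, hDe, hDe'] at t1 t2
    have d2 : fderivWithin ℝ (dif D B.map g) (range (𝓡∂ 2)) z =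
        DG - mat (‖B.lin (cz c₀ z)‖ ^ 2) (z 0 * (2 * B.q (cz c₀ z))) 0
          (1 / ‖B.lin (cz c₀ z)‖ ^ 2) := by
      rw [dif, hDe, hDe', fderivWithin_sub hu (t1.differentiableWithinAt (by simp))
        (t2.differentiableWithinAt (by simp)), F2.fderivWithin hu, ← hDG]
    rw [d1] at q1 q3
    rw [d2] at q2 q4
    have e1 := abs_entry_le (DG - mat (‖B.lin (cz c₀ z)‖ ^ 2) (z 0 * (2 * B.q (cz c₀ z))) 0
          (1 / ‖B.lin (cz c₀ z)‖ ^ 2))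
    have e00 := (e1 0 0).trans q2
    have e10 := (e1 1 0).trans q2
    have e11 := (e1 1 1).trans q2
    have hb1 := (abs_coord_le _ 1).trans q1
    have hsz : √(2 * z 0) ^ 2 = 2 * z 0 := Real.sq_sqrt (by positivity)
    have hsw : √(2 * w 0) ^ 2 = 2 * w 0 := Real.sq_sqrt (by positivity)
    have hP := s3 ![z 1, w 1, √(2 * w 0) ^ 2 / √(2 * z 0) ^ 2, DG (bv 0) 0,
      DG (bv 1) 0 / √(2 * z 0) ^ 2, DG (bv 0) 1 * √(2 * z 0) ^ 2, DG (bv 1) 1] ?_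
    · exact hP
    intro k
    rw [hsz, hsw]
    fin_cases k
    · change |z 1 - z 1| ≤ ε
      rw [sub_self, abs_zero]
      exact hε.le
    · exact hb1
    · have h1 : (w - B.Fcol c₀ c₁ z) 0 = w 0 - z 0 * ‖B.lin (cz c₀ z)‖ ^ 2 := rfl
      rw [h1] at q3
      change |2 * w 0 / (2 * z 0) - ‖B.lin (cz c₀ z)‖ ^ 2| ≤ ε
      have h2 : 2 * w 0 / (2 * z 0) - ‖B.lin (cz c₀ z)‖ ^ 2 =
          (w 0 - z 0 * ‖B.lin (cz c₀ z)‖ ^ 2) / z 0 := by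
        field_simp
      rw [h2, abs_div, abs_of_pos hz0, div_le_iff₀ hz0]
      exact q3
    · have h1 : (DG - mat (‖B.lin (cz c₀ z)‖ ^ 2) (z 0 * (2 * B.q (cz c₀ z))) 0
          (1 / ‖B.lin (cz c₀ z)‖ ^ 2)) (bv 0) 0 = DG (bv 0) 0 - ‖B.lin (cz c₀ z)‖ ^ 2 := by
        rw [sub_mat_zero, bv_zero_zero, bv_zero_one]
        ring
      rw [h1] at e00
      exact e00
    · have h1 : (DG - mat (‖B.lin (cz c₀ z)‖ ^ 2) (z 0 * (2 * B.q (cz c₀ z))) 0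
          (1 / ‖B.lin (cz c₀ z)‖ ^ 2)) (bv 1) 0 = DG (bv 1) 0 - z 0 * (2 * B.q (cz c₀ z)) := by
        rw [sub_mat_zero, bv_one_zero, bv_one_one]
        ring
      rw [h1] at q4
      change |DG (bv 1) 0 / (2 * z 0) - B.q (cz c₀ z)| ≤ ε
      have h2 : DG (bv 1) 0 / (2 * z 0) - B.q (cz c₀ z) =
          (DG (bv 1) 0 - z 0 * (2 * B.q (cz c₀ z))) / (2 * z 0) := by
        field_simp
      rw [h2, abs_div, abs_of_pos (by positivity : (0 : ℝ) < 2 * z 0), div_le_iff₀ (by positivity)]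
      nlinarith
    · have h1 : (DG - mat (‖B.lin (cz c₀ z)‖ ^ 2) (z 0 * (2 * B.q (cz c₀ z))) 0
          (1 / ‖B.lin (cz c₀ z)‖ ^ 2)) (bv 0) 1 = DG (bv 0) 1 := by
        rw [sub_mat_one, bv_zero_zero, bv_zero_one]
        ring
      rw [h1] at e10
      change |DG (bv 0) 1 * (2 * z 0) - 0| ≤ ε
      rw [sub_zero, abs_mul, abs_of_pos (by positivity : (0 : ℝ) < 2 * z 0)]
      have h3 := abs_nonneg (DG (bv 0) 1)
      nlinarith
    · have h1 : (DG - mat (‖B.lin (cz c₀ z)‖ ^ 2) (z 0 * (2 * B.q (cz c₀ z))) 0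
          (1 / ‖B.lin (cz c₀ z)‖ ^ 2)) (bv 1) 1 = DG (bv 1) 1 - 1 / ‖B.lin (cz c₀ z)‖ ^ 2 := by
        rw [sub_mat_one, bv_one_zero, bv_one_one]
        ring
      rw [h1] at e11
      exact e11
  rw [← hcart] at hgoal
  exact hgoal

end BD
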