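import Pool.Agent.Lib.MP_e8f12b_an.BD.Sect
import Pool.Agent.Lib.MP_e8f12b_an.BD.Cart

/-! Parameters of the model near a boundary point. -/

open scoped Manifold ContDiff Topology
open Set Real

noncomputable section

namespace BD

namespace Mx

variable (B : Mx)

/-- The parameters of the model map. -/
def PF (c₀ : Circle) (z : E2) : Fin 7 → ℝ :=
  ![z 1, (B.Fcol c₀ (nrm (B.lin c₀)) z) 1, ‖B.lin (cz c₀ z)‖ ^ 2, ‖B.lin (cz c₀ z)‖ ^ 2,
    B.q (cz c₀ z), 0, 1 / ‖B.lin (cz c₀ z)‖ ^ 2]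

theorem cz_zero (c₀ : Circle) : cz c₀ (BD.mk 0 0) = c₀ := by
  rw [cz, mk_one, Circle.exp_zero, mul_one]

theorem base_slit (c₀ : Circle) :
    B.lin (cz c₀ (BD.mk 0 0)) / (nrm (B.lin c₀) : ℂ) ∈ Complex.slitPlane := by
  rw [cz_zero, ← slitPlane_nrm (B.lin_ne_zero (Circle.coe_ne_zero _)), div_self']
  exact Complex.one_mem_slitPlane

theorem Fcol_base (c₀ : Circle) : B.Fcol c₀ (nrm (B.lin c₀)) (BD.mk 0 0) 1 = 0 := by
  rw [Fcol, mk_one, cz_zero, ← arg_nrm (B.lin_ne_zero (Circle.coe_ne_zero _)), div_self',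
    Circle.coe_one, Complex.arg_one]

theorem continuous_q (c₀ : Circle) : Continuous fun z : E2 => B.q (cz c₀ z) := by
  have h1 : Continuous fun z : E2 => (cz c₀ z : ℂ) := (contDiff_cz c₀ (n := 0)).continuous
  have h2 : Continuous fun z : E2 => B.lin (cz c₀ z) := B.continuous_lin.comp h1
  have h3 : Continuous fun z : E2 => B.lin (Complex.I * cz c₀ z) :=
    B.continuous_lin.comp (continuous_const.mul h1)
  exact ((Complex.continuous_re.comp h2).mul (Complex.continuous_re.comp h3)).add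
    ((Complex.continuous_im.comp h2).mul (Complex.continuous_im.comp h3))

theorem continuousAt_PF (c₀ : Circle) : ContinuousAt (B.PF c₀) (BD.mk 0 0) := by
  have h1 : Continuous fun z : E2 => (cz c₀ z : ℂ) := (contDiff_cz c₀ (n := 0)).continuous
  have h2 : Continuous fun z : E2 => ‖B.lin (cz c₀ z)‖ ^ 2 := (B.continuous_lin.comp h1).norm.pow 2
  have h3 : ContinuousAt (B.Fcol c₀ (nrm (B.lin c₀))) (BD.mk 0 0) := by
    have := B.contDiff_Fcol (S := univ) (n := 0) c₀ (nrm (B.lin c₀)) (B.base_slit c₀)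
    exact (contDiffWithinAt_univ.1 this).continuousAt
  have h4 : ContinuousAt (fun z => B.Fcol c₀ (nrm (B.lin c₀)) z 1) (BD.mk 0 0) :=
    ContinuousAt.comp (g := fun z : E2 => z 1) (continuous_coord 1).continuousAt h3
  have h5 : ContinuousAt (fun z : E2 => 1 / ‖B.lin (cz c₀ z)‖ ^ 2) (BD.mk 0 0) :=
    continuousAt_const.div h2.continuousAt (by have := B.norm_lin_pos (cz c₀ (BD.mk 0 0)); positivity)
  refine continuousAt_pi.2 fun k => ?_
  fin_cases k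
  · exact (continuous_coord 1).continuousAt
  · exact h4
  · exact h2.continuousAt
  · exact h2.continuousAt
  · exact (B.continuous_q c₀).continuousAt
  · exact continuousAt_const
  · exact h5

theorem PF_base_pos (ha : 1 ≤ B.a) (hb : 1 ≤ B.b) (hc : 1 ≤ B.c) (hd : 1 ≤ B.d) (c₀ : Circle) :
    PosM (cartP c₀ (nrm (B.lin c₀)) (B.PF c₀ (BD.mk 0 0))) := by
  have h : cartP c₀ (nrm (B.lin c₀)) (B.PF c₀ (BD.mk 0 0)) = mat B.a B.b B.c B.d := by
    rw [← cart_model B c₀]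
    have e0 : B.PF c₀ (BD.mk 0 0) 0 = 0 := rfl
    have e1 : B.PF c₀ (BD.mk 0 0) 1 = 0 := B.Fcol_base c₀
    have e2 : B.PF c₀ (BD.mk 0 0) 2 = ‖B.lin c₀‖ ^ 2 := by
      change ‖B.lin (cz c₀ (BD.mk 0 0))‖ ^ 2 = _
      rw [cz_zero]
    have e3 : B.PF c₀ (BD.mk 0 0) 3 = ‖B.lin c₀‖ ^ 2 := by
      change ‖B.lin (cz c₀ (BD.mk 0 0))‖ ^ 2 = _
      rw [cz_zero]
    have e4 : B.PF c₀ (BD.mk 0 0) 4 = B.q c₀ := by
      change B.q (cz c₀ (BD.mk 0 0)) = _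
      rw [cz_zero]
    have e5 : B.PF c₀ (BD.mk 0 0) 5 = 0 := rfl
    have e6 : B.PF c₀ (BD.mk 0 0) 6 = 1 / ‖B.lin c₀‖ ^ 2 := by
      change 1 / ‖B.lin (cz c₀ (BD.mk 0 0))‖ ^ 2 = _
      rw [cz_zero]
    rw [cartP, e0, e1, e2, e3, e4, e5, e6, Circle.exp_zero, mul_one, mul_one]
  rw [h]
  have ha' : (1 : ℝ) ≤ B.a := by exact_mod_cast ha
  have hb' : (1 : ℝ) ≤ B.b := by exact_mod_cast hb
  have hc' : (1 : ℝ) ≤ B.c := by exact_mod_cast hc
  have hd' : (1 : ℝ) ≤ B.d := by exact_mod_cast hd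
  exact PosM.mat (by linarith) (by linarith) (by linarith) (by linarith)

/-- The choice of the sector and of the size of the neighbourhood. -/
theorem choice (ha : 1 ≤ B.a) (hb : 1 ≤ B.b) (hc : 1 ≤ B.c) (hd : 1 ≤ B.d) (c₀ : Circle) :
    ∃ ε > 0, ∃ ρ > 0, ρ < 1 / 2 ∧ ∃ θ > 0, θ < π ∧ ∀ z ∈ sector ρ θ,
      √(2 * z 0) * ‖B.lin (cz c₀ z)‖ < 1 ∧
      B.lin (cz c₀ z) / (nrm (B.lin c₀) : ℂ) ∈ Complex.slitPlane ∧
      ∀ P : Fin 7 → ℝ, (∀ k, |P k - B.PF c₀ z k| ≤ ε) → PosM (cartP c₀ (nrm (B.lin c₀)) P) := by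
  have hpos : 0 < B.PF c₀ (BD.mk 0 0) 2 := by
    change 0 < ‖B.lin (cz c₀ (BD.mk 0 0))‖ ^ 2
    have := B.norm_lin_pos (cz c₀ (BD.mk 0 0))
    positivity
  obtain ⟨δ, hδ, hP⟩ := cartP_pos c₀ (nrm (B.lin c₀)) hpos (B.PF_base_pos ha hb hc hd c₀)
  have h1 : Continuous fun z : E2 => (cz c₀ z : ℂ) := (contDiff_cz c₀ (n := 0)).continuous
  have h2 : Continuous fun z : E2 => B.lin (cz c₀ z) := B.continuous_lin.comp h1
  have h3 : Continuous fun z : E2 => √(2 * z 0) * ‖B.lin (cz c₀ z)‖ :=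
    (continuous_const.mul (continuous_coord 0)).sqrt.mul h2.norm
  have k3 : √(2 * (BD.mk 0 0) 0) * ‖B.lin (cz c₀ (BD.mk 0 0))‖ < 1 := by
    rw [mk_zero, mul_zero, Real.sqrt_zero, zero_mul]
    exact one_pos
  have h4 : Continuous fun z : E2 => B.lin (cz c₀ z) / (nrm (B.lin c₀) : ℂ) := h2.div_const _
  have h5 : ∀ᶠ z in 𝓝 (BD.mk 0 0), ∀ k, |B.PF c₀ z k - B.PF c₀ (BD.mk 0 0) k| < δ / 2 := by
    have h6 := (B.continuousAt_PF c₀).eventually (Metric.ball_mem_nhds _ (half_pos hδ))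
    filter_upwards [h6] with z hz k
    have h7 := (dist_pi_lt_iff (half_pos hδ)).1 hz k
    rwa [Real.dist_eq] at h7
  obtain ⟨ρ, hρ, hρ2, θ, hθ, hθ2, hs⟩ := exists_sector
    ((h3.continuousAt.eventually (gt_mem_nhds k3)).and
      ((h4.continuousAt.eventually (Complex.isOpen_slitPlane.mem_nhds (B.base_slit c₀))).and h5))
  refine ⟨δ / 2, half_pos hδ, ρ, hρ, hρ2, θ, hθ, hθ2, fun z hz => ⟨(hs z hz).1, (hs z hz).2.1,
    fun P hPz => hP P fun k => ?_⟩⟩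
  have a1 := hPz k
  have a2 := (hs z hz).2.2 k
  calc |P k - B.PF c₀ (BD.mk 0 0) k|
      = |(P k - B.PF c₀ z k) + (B.PF c₀ z k - B.PF c₀ (BD.mk 0 0) k)| := by ring_nf
    _ ≤ |P k - B.PF c₀ z k| + |B.PF c₀ z k - B.PF c₀ (BD.mk 0 0) k| := abs_add_le _ _
    _ < δ := by linarith

end Mx

end BD
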