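import Pool.Agent.Lib.MP_e8f12b_an.BD.Defs

/-! Preliminaries: coordinates on the plane and the half plane, 2×2 matrices. -/

open scoped Manifold ContDiff Topology
open Set

noncomputable section

namespace BD

/-- The point `(a, b)`. -/
def mk (a b : ℝ) : E2 := !₂[a, b]

@[simp] theorem mk_zero (a b : ℝ) : mk a b 0 = a := rfl

@[simp] theorem mk_one (a b : ℝ) : mk a b 1 = b := rfl

theorem E2.ext {z w : E2} (h0 : z 0 = w 0) (h1 : z 1 = w 1) : z = w := by
  ext i
  fin_cases i
  · exact h0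
  · exact h1

theorem mk_eta (z : E2) : mk (z 0) (z 1) = z := E2.ext rfl rfl

@[simp] theorem bv_zero_zero : bv 0 0 = 1 := by simp [bv]
@[simp] theorem bv_zero_one : bv 0 1 = 0 := by simp [bv]
@[simp] theorem bv_one_zero : bv 1 0 = 0 := by simp [bv]
@[simp] theorem bv_one_one : bv 1 1 = 1 := by simp [bv]

theorem continuous_mk : Continuous fun p : ℝ × ℝ => mk p.1 p.2 := by
  unfold mk
  refine (PiLp.continuous_toLp 2 _).comp (continuous_pi fun i => ?_)
  fin_cases i
  · exact continuous_fst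
  · exact continuous_snd

theorem continuous_coord (i : Fin 2) : Continuous fun z : E2 => z i :=
  PiLp.continuous_apply 2 _ i

/-- The point `(max a 0, b)` of the half plane. -/
def mkH (a b : ℝ) : H2 := ⟨mk (max a 0) b, by simp⟩

theorem I_mkH {a b : ℝ} (h : 0 ≤ a) : (𝓡∂ 2) (mkH a b) = mk a b := by
  simp [mkH, h]

theorem mkH_val {a b : ℝ} (h : 0 ≤ a) : (mkH a b).1 = mk a b := by
  simp [mkH, h]

theorem I_symm (z : E2) : (𝓡∂ 2).symm z = mkH (z 0) (z 1) := by
  apply Subtype.ext
  rw [modelWithCornersEuclideanHalfSpace_symm_apply]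
  exact E2.ext (by simp [mkH]) (by simp [mkH])

theorem mkH_eta (y : H2) : mkH (y.1 0) (y.1 1) = y := by
  apply Subtype.ext
  rw [mkH_val y.2]
  exact mk_eta _

theorem continuous_mkH : Continuous fun p : ℝ × ℝ => mkH p.1 p.2 :=
  Continuous.subtype_mk (continuous_mk.comp ((continuous_fst.max continuous_const).prodMk
    continuous_snd)) _

theorem range_I : Set.range (𝓡∂ 2) = {z : E2 | 0 ≤ z 0} :=
  range_modelWithCornersEuclideanHalfSpace 2

theorem continuous_val_coord (i : Fin 2) : Continuous fun y : H2 => y.1 i :=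
  (continuous_coord i).comp continuous_subtype_val

/-- The linear form `(x, y) ↦ a x + b y`. -/
def row (a b : ℝ) : E2 →L[ℝ] ℝ :=
  a • EuclideanSpace.proj 0 + b • EuclideanSpace.proj 1

@[simp] theorem row_apply (a b : ℝ) (v : E2) : row a b v = a * v 0 + b * v 1 := by
  simp [row]

/-- The linear map with matrix `(a b; c d)`. -/
def mat (a b c d : ℝ) : E2 →L[ℝ] E2 :=
  LinearMap.toContinuousLinearMap
    { toFun := fun v => mk (a * v 0 + b * v 1) (c * v 0 + d * v 1)
      map_add' := fun v w => E2.ext (by simp; ring) (by simp; ring)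
      map_smul' := fun t v => E2.ext (by simp; ring) (by simp; ring) }

theorem mat_apply (a b c d : ℝ) (v : E2) :
    mat a b c d v = mk (a * v 0 + b * v 1) (c * v 0 + d * v 1) := rfl

@[simp] theorem mat_apply_zero (a b c d : ℝ) (v : E2) :
    mat a b c d v 0 = a * v 0 + b * v 1 := rfl

@[simp] theorem mat_apply_one (a b c d : ℝ) (v : E2) :
    mat a b c d v 1 = c * v 0 + d * v 1 := rfl

theorem mat_comp (a b c d a' b' c' d' : ℝ) :
    (mat a b c d).comp (mat a' b' c' d') =
      mat (a * a' + b * c') (a * b' + b * d') (c * a' + d * c') (c * b' + d * d') := by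
  refine ContinuousLinearMap.ext fun v => E2.ext ?_ ?_
  · simp; ring
  · simp; ring

theorem mat_one : mat 1 0 0 1 = ContinuousLinearMap.id ℝ E2 := by
  refine ContinuousLinearMap.ext fun v => E2.ext ?_ ?_ <;> simp

theorem eq_mat (M : E2 →L[ℝ] E2) :
    M = mat (M (bv 0) 0) (M (bv 1) 0) (M (bv 0) 1) (M (bv 1) 1) := by
  refine ContinuousLinearMap.ext fun v => ?_
  have hv : v = v 0 • bv 0 + v 1 • bv 1 := E2.ext (by simp) (by simp)
  have h : M v = v 0 • M (bv 0) + v 1 • M (bv 1) := by
    conv_lhs => rw [hv]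
    rw [map_add, map_smul, map_smul]
  rw [h]
  refine E2.ext ?_ ?_
  · simp; ring
  · simp; ring

theorem hasFDerivWithinAt_mk {s : Set E2} {F1 F2 : E2 → ℝ} {p : E2} {a b c d : ℝ}
    (h1 : HasFDerivWithinAt F1 (row a b) s p) (h2 : HasFDerivWithinAt F2 (row c d) s p) :
    HasFDerivWithinAt (fun z => mk (F1 z) (F2 z)) (mat a b c d) s p := by
  rw [hasFDerivWithinAt_euclidean]
  intro i
  fin_cases i
  · refine h1.congr_fderiv ?_
    ext v; simp [ContinuousLinearMap.comp_apply]
  · refine h2.congr_fderiv ?_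
    ext v; simp [ContinuousLinearMap.comp_apply]

theorem contDiffWithinAt_mk {s : Set E2} {F1 F2 : E2 → ℝ} {p : E2} {n : ℕ∞ω}
    (h1 : ContDiffWithinAt ℝ n F1 s p) (h2 : ContDiffWithinAt ℝ n F2 s p) :
    ContDiffWithinAt ℝ n (fun z => mk (F1 z) (F2 z)) s p := by
  rw [contDiffWithinAt_euclidean]
  intro i
  fin_cases i
  · exact h1
  · exact h2

theorem contDiff_coord (i : Fin 2) {n : ℕ∞ω} : ContDiff ℝ n fun z : E2 => z i :=
  (EuclideanSpace.proj (𝕜 := ℝ) i).contDiff

theorem hasFDerivAt_coord_zero (p : E2) : HasFDerivAt (fun z : E2 => z 0) (row 1 0) p := by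
  have := (EuclideanSpace.proj (𝕜 := ℝ) (0 : Fin 2)).hasFDerivAt (x := p)
  refine this.congr_fderiv ?_
  ext v; simp

theorem hasFDerivAt_coord_one (p : E2) : HasFDerivAt (fun z : E2 => z 1) (row 0 1) p := by
  have := (EuclideanSpace.proj (𝕜 := ℝ) (1 : Fin 2)).hasFDerivAt (x := p)
  refine this.congr_fderiv ?_
  ext v; simp

end BD
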