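import Pool.Agent.Lib.MP_e8f12b_an.BD.Bdy

/-! Compact sectors at the boundary. -/

open scoped Manifold ContDiff Topology
open Set Real

noncomputable section

namespace BD

theorem exists_sector {Q : E2 → Prop} (h : ∀ᶠ z in 𝓝 (mk 0 0), Q z) :
    ∃ ρ > 0, ρ < 1 / 2 ∧ ∃ θ > 0, θ < π ∧ ∀ z ∈ sector ρ θ, Q z := by
  have h1 : ∀ᶠ p : ℝ × ℝ in 𝓝 (0, 0), Q (mk p.1 p.2) :=
    (continuous_mk.continuousAt (x := ((0 : ℝ), (0 : ℝ)))).eventually h
  obtain ⟨η, hη, hball⟩ := Metric.eventually_nhds_iff.1 h1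
  refine ⟨min (η / 2) (1 / 4), by positivity,
    (min_le_right _ _).trans_lt (by norm_num), min (η / 2) 1, by positivity,
    (min_le_right _ _).trans_lt (by linarith [Real.pi_gt_three]), fun z hz => ?_⟩
  have h2 : dist ((z 0, z 1) : ℝ × ℝ) (0, 0) < η := by
    rw [Prod.dist_eq, max_lt_iff, Real.dist_eq, Real.dist_eq, sub_zero, sub_zero]
    refine ⟨?_, ?_⟩
    · change |z 0| < η
      rw [abs_of_nonneg hz.1]
      linarith [hz.2.1.trans (min_le_left _ _)]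
    · change |z 1| < η
      linarith [hz.2.2.trans (min_le_left _ _)]
  have h3 := hball h2
  rwa [mk_eta] at h3

theorem isCompact_sector (ρ θ : ℝ) : IsCompact (sector ρ θ) := by
  have h : sector ρ θ = (fun p : ℝ × ℝ => mk p.1 p.2) '' (Icc 0 ρ ×ˢ Icc (-θ) θ) := by
    ext z
    constructor
    · rintro ⟨h0, h1, h2⟩
      exact ⟨(z 0, z 1), ⟨⟨h0, h1⟩, abs_le.1 h2⟩, mk_eta z⟩
    · rintro ⟨p, ⟨hp1, hp2⟩, rfl⟩
      exact ⟨hp1.1, hp1.2, abs_le.2 hp2⟩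
  rw [h]
  exact (isCompact_Icc.prod isCompact_Icc).image continuous_mk

/-- The compact neighbourhood of a boundary point given by a sector. -/
def colK (c₀ : Circle) (ρ θ : ℝ) : Set Surf :=
  (fun z => (colC c₀).symm ((𝓡∂ 2).symm z)) '' sector ρ θ

variable {c₀ : Circle} {ρ θ : ℝ}

theorem symm_mem_target (hρ : ρ < 1 / 2) (hθ : θ < π) {z : E2} (hz : z ∈ sector ρ θ) :
    (𝓡∂ 2).symm z ∈ (colC c₀).target := by
  change ((𝓡∂ 2).symm z).1 0 < 1 / 2 ∧ |((𝓡∂ 2).symm z).1 1| < π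
  rw [I_symm_val hz.1]
  exact ⟨hz.2.1.trans_lt hρ, hz.2.2.trans_lt hθ⟩

theorem isCompact_colK (hρ : ρ < 1 / 2) (hθ : θ < π) : IsCompact (colK c₀ ρ θ) := by
  refine (isCompact_sector ρ θ).image_of_continuousOn ?_
  exact (colC c₀).continuousOn_symm.comp (𝓡∂ 2).continuous_symm.continuousOn
    fun z hz => symm_mem_target hρ hθ hz

theorem colK_subset (hρ : ρ < 1 / 2) (hθ : θ < π) : colK c₀ ρ θ ⊆ (colC c₀).source := by
  rintro _ ⟨z, hz, rfl⟩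
  exact (colC c₀).map_target (symm_mem_target hρ hθ hz)

theorem bd_mem_source (c₀ : Circle) : bd c₀ ∈ (colC c₀).source := by
  have h := mem_chart_source H2 (bd c₀)
  rwa [chartAt_bd (tt_bd _), cs_bd] at h

theorem colC_bd (c₀ : Circle) : (𝓡∂ 2) (colC c₀ (bd c₀)) = mk 0 0 := by
  have ha : ((cs (bd c₀) / c₀ : Circle) : ℂ).arg = 0 := by
    rw [cs_bd, div_self', Circle.coe_one, Complex.arg_one]
  have hr : rr (bd c₀) = 0 := rr_eq_zero.2 (tt_bd c₀)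
  rw [colC_val, hr, ha]
  norm_num

theorem colK_mem_nhds (hρ : 0 < ρ) (hθ : 0 < θ) : colK c₀ ρ θ ∈ 𝓝 (bd c₀) := by
  have hc : ContinuousAt (fun x => (𝓡∂ 2) (colC c₀ x)) (bd c₀) :=
    (𝓡∂ 2).continuousAt.comp ((colC c₀).continuousAt (bd_mem_source c₀))
  have h0 : ContinuousAt (fun x => ((𝓡∂ 2) (colC c₀ x)) 0) (bd c₀) :=
    ContinuousAt.comp (g := fun z : E2 => z 0) (continuous_coord 0).continuousAt hc
  have h1 : ContinuousAt (fun x => |((𝓡∂ 2) (colC c₀ x)) 1|) (bd c₀) :=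
    (ContinuousAt.comp (g := fun z : E2 => z 1) (continuous_coord 1).continuousAt hc).abs
  have k0 : ((𝓡∂ 2) (colC c₀ (bd c₀))) 0 < ρ := by rwa [colC_bd, mk_zero]
  have k1 : |((𝓡∂ 2) (colC c₀ (bd c₀))) 1| < θ := by rwa [colC_bd, mk_one, abs_zero]
  filter_upwards [h0.eventually (gt_mem_nhds k0), h1.eventually (gt_mem_nhds k1),
    (colC c₀).open_source.mem_nhds (bd_mem_source c₀)] with x a b hx
  refine ⟨(𝓡∂ 2) (colC c₀ x), ⟨(colC c₀ x).2, a.le, b.le⟩, ?_⟩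
  change (colC c₀).symm ((𝓡∂ 2).symm ((𝓡∂ 2) (colC c₀ x))) = x
  rw [(𝓡∂ 2).left_inv, (colC c₀).left_inv hx]

end BD
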