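import Pool.Agent.Lib.MP_e8f12b_an.BD.Map

/-! Smoothness and derivatives of the local expressions. -/

open scoped Manifold ContDiff Topology
open Set Real

noncomputable section

namespace BD

/-- The linear map `E2 → ℂ` with matrix `(a b; c d)`. -/
def matC (a b c d : ℝ) : E2 →L[ℝ] ℂ :=
  LinearMap.toContinuousLinearMap
    { toFun := fun v => ⟨a * v 0 + b * v 1, c * v 0 + d * v 1⟩
      map_add' := fun v w => Complex.ext (by simp; ring) (by simp; ring)
      map_smul' := fun t v => Complex.ext (by simp; ring) (by simp; ring) }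

theorem matC_apply (a b c d : ℝ) (v : E2) :
    matC a b c d v = ⟨a * v 0 + b * v 1, c * v 0 + d * v 1⟩ := rfl

@[simp] theorem matC_re (a b c d : ℝ) (v : E2) : (matC a b c d v).re = a * v 0 + b * v 1 := rfl
@[simp] theorem matC_im (a b c d : ℝ) (v : E2) : (matC a b c d v).im = c * v 0 + d * v 1 := rfl

variable {S : Set E2} {p : E2}

/-- Derivatives of `E2`-valued maps from `ℂ`-valued maps. -/
theorem hasFDeriv_mk_of_C {ψ : E2 → ℂ} {a b c d t : ℝ}
    (h : HasFDerivWithinAt ψ (matC a b c d) S p) :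
    HasFDerivWithinAt (fun z => mk ((ψ z).re + t) (ψ z).im) (mat a b c d) S p := by
  refine hasFDerivWithinAt_mk ?_ ?_
  · have := (Complex.reCLM.hasFDerivAt.comp_hasFDerivWithinAt p h).add_const t
    refine this.congr_fderiv ?_
    refine ContinuousLinearMap.ext fun v => ?_
    simp [ContinuousLinearMap.comp_apply]
  · have := Complex.imCLM.hasFDerivAt.comp_hasFDerivWithinAt p h
    refine this.congr_fderiv ?_
    refine ContinuousLinearMap.ext fun v => ?_
    simp [ContinuousLinearMap.comp_apply]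

theorem contDiff_mk_of_C {ψ : E2 → ℂ} {t : ℝ} {n : ℕ∞ω} (h : ContDiffWithinAt ℝ n ψ S p) :
    ContDiffWithinAt ℝ n (fun z => mk ((ψ z).re + t) (ψ z).im) S p :=
  contDiffWithinAt_mk ((Complex.reCLM.contDiff.comp_contDiffWithinAt h).add contDiffWithinAt_const)
    (Complex.imCLM.contDiff.comp_contDiffWithinAt h)

theorem contDiff_sh {n : ℕ∞ω} : ContDiff ℝ n sh := by
  have h := (Complex.equivRealProdCLM.symm.contDiff (n := n)).comp
    (((contDiff_coord 0).sub (contDiff_const (c := (4 : ℝ)))).prodMk (contDiff_coord 1))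
  exact h

theorem hasFDeriv_sh : HasFDerivWithinAt sh (matC 1 0 0 1) S p := by
  have h : sh = fun z => matC 1 0 0 1 z - 4 := by
    funext z
    exact Complex.ext (by simp) (by simp)
  rw [h]
  exact ((matC 1 0 0 1).hasFDerivAt.sub_const 4).hasFDerivWithinAt

/-- `z ↦ L (s * ex (φ z))` has the smoothness of `φ`. -/
theorem contDiff_L {φ : E2 → ℂ} {s : Tor} {n : ℕ∞ω} (h : ContDiffWithinAt ℝ n φ S p)
    (hs : s * ex (φ p) ∈ slit) : ContDiffWithinAt ℝ n (fun z => L (s * ex (φ z))) S p := by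
  have h1 : ContDiffWithinAt ℝ n (fun z => L (s * ex (φ p)) + (φ z - φ p)) S p :=
    contDiffWithinAt_const.add (h.sub contDiffWithinAt_const)
  refine h1.congr_of_eventuallyEq ?_ (by simp)
  exact h.continuousWithinAt.eventually (L_mul_ex hs)

theorem hasFDeriv_L {φ : E2 → ℂ} {s : Tor} {φ' : E2 →L[ℝ] ℂ} (h : HasFDerivWithinAt φ φ' S p)
    (hs : s * ex (φ p) ∈ slit) : HasFDerivWithinAt (fun z => L (s * ex (φ z))) φ' S p := by
  have h1 : HasFDerivWithinAt (fun z => L (s * ex (φ p)) + (φ z - φ p)) φ' S p :=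
    (h.sub_const _).const_add _
  refine h1.congr_of_eventuallyEq ?_ (by simp)
  exact h.continuousWithinAt.eventually (L_mul_ex hs)

theorem contDiffAt_arg {x : ℂ} (h : x ∈ Complex.slitPlane) {n : ℕ∞ω} :
    ContDiffAt ℝ n Complex.arg x := by
  have h1 : ContDiffAt ℝ n Complex.log x := (Complex.contDiffAt_log h).restrict_scalars ℝ
  have h2 := Complex.imCLM.contDiff.contDiffAt.comp x h1
  refine h2.congr_of_eventuallyEq (Filter.Eventually.of_forall fun y => ?_)
  exact (Complex.log_im y).symm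

theorem contDiff_arg {ψ : E2 → ℂ} {n : ℕ∞ω} (h : ContDiffWithinAt ℝ n ψ S p)
    (hs : ψ p ∈ Complex.slitPlane) : ContDiffWithinAt ℝ n (fun z => (ψ z).arg) S p :=
  (contDiffAt_arg hs).comp_contDiffWithinAt p h

theorem hasFDeriv_arg {ψ : E2 → ℂ} {ψ' : E2 →L[ℝ] ℂ} {a b : ℝ}
    (h : HasFDerivWithinAt ψ ψ' S p) (hs : ψ p ∈ Complex.slitPlane)
    (ha : ((ψ p)⁻¹ * ψ' (bv 0)).im = a) (hb : ((ψ p)⁻¹ * ψ' (bv 1)).im = b) :
    HasFDerivWithinAt (fun z => (ψ z).arg) (row a b) S p := by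
  have h0 := (Complex.hasStrictFDerivAt_log_real hs).hasFDerivAt
  have h1 := Complex.imCLM.hasFDerivAt.comp_hasFDerivWithinAt p
    (h0.comp_hasFDerivWithinAt p h)
  have h2 := h1.congr_of_eventuallyEq (f₁ := fun z => (ψ z).arg)
    (Filter.Eventually.of_forall fun z => (Complex.log_im (ψ z)).symm)
    (Complex.log_im (ψ p)).symm
  refine h2.congr_fderiv ?_
  refine ContinuousLinearMap.ext fun v => ?_
  have hv : v = v 0 • bv 0 + v 1 • bv 1 := E2.ext (by simp) (by simp)
  have h3 : ψ' v = v 0 • ψ' (bv 0) + v 1 • ψ' (bv 1) := by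
    conv_lhs => rw [hv]
    rw [map_add, map_smul, map_smul]
  change ((ψ p)⁻¹ * ψ' v).im = row a b v
  rw [h3, mul_add, mul_smul_comm, mul_smul_comm, Complex.add_im, Complex.smul_im, Complex.smul_im,
    ha, hb, row_apply, smul_eq_mul, smul_eq_mul]
  ring

/-- The direction `c₀ e^{i z₁}`. -/
def cz (c₀ : Circle) (z : E2) : Circle := c₀ * Circle.exp (z 1)

theorem coe_cz (c₀ : Circle) (z : E2) :
    (cz c₀ z : ℂ) = c₀ * Complex.exp ((z 1 : ℝ) * Complex.I) := rfl

theorem contDiff_cz (c₀ : Circle) {n : ℕ∞ω} : ContDiff ℝ n fun z : E2 => (cz c₀ z : ℂ) := by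
  have h1 : ContDiff ℝ n fun z : E2 => ((z 1 : ℝ) : ℂ) * Complex.I :=
    (Complex.ofRealCLM.contDiff.comp (contDiff_coord 1)).mul contDiff_const
  exact contDiff_const.mul ((Complex.contDiff_exp (n := n)).comp h1)

theorem hasFDeriv_cz (c₀ : Circle) :
    HasFDerivWithinAt (fun z : E2 => (cz c₀ z : ℂ))
      (matC 0 (-(cz c₀ p : ℂ).im) 0 (cz c₀ p : ℂ).re) S p := by
  have h1 : HasFDerivAt (fun z : E2 => ((z 1 : ℝ) : ℂ)) (Complex.ofRealCLM.comp (row 0 1)) p :=
    Complex.ofRealCLM.hasFDerivAt.comp p (hasFDerivAt_coord_one p)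
  have h2 := ((h1.mul_const Complex.I).cexp.const_mul (c₀ : ℂ)).hasFDerivWithinAt (s := S)
  refine h2.congr_fderiv ?_
  refine ContinuousLinearMap.ext fun v => ?_
  have hp := coe_cz c₀ p
  have : (matC 0 (-(cz c₀ p : ℂ).im) 0 (cz c₀ p : ℂ).re) v =
      (cz c₀ p : ℂ) * ((v 1 : ℝ) * Complex.I) := by
    refine Complex.ext ?_ ?_
    · simp
    · simp
  rw [this, hp]
  simp
  ring

end BD
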