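import Pool.Agent.Lib.MP_e8f12b_an.BD.Tor

/-! The surface: the torus blown up at its origin. -/

open scoped Manifold ContDiff Topology
open Set Real

noncomputable section

namespace BD

/-- The blow-up of the torus at `1`, as a subset of `Tor × ℂ`. -/
def SS : Set (Tor × ℂ) :=
  {p | ‖L p.1‖ • p.2 = chi ‖L p.1‖ • L p.1 ∧ ‖p.2‖ = chi ‖L p.1‖}

/-- The surface. -/
abbrev Surf : Type := {p : Tor × ℂ // p ∈ SS}

theorem continuous_chiL : Continuous fun t : Tor => chi ‖L t‖ • L t := by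
  rw [continuous_iff_continuousAt]
  intro t
  by_cases h : ‖L t‖ < π
  · exact (continuous_chi.comp continuous_normL).continuousAt.smul
      (continuousAt_L (mem_slit_of_norm h))
  · have h2 : 2 < ‖L t‖ := by
      have := Real.pi_gt_three
      linarith [not_lt.1 h]
    have h3 : ∀ᶠ s in 𝓝 t, chi ‖L s‖ • L s = 0 := by
      filter_upwards [continuous_normL.continuousAt.eventually (lt_mem_nhds h2)] with s hs
      rw [chi_of_ge (le_of_lt hs), zero_smul]
    exact ContinuousAt.congr continuousAt_const (h3.mono fun s hs => hs.symm)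

theorem isClosed_SS : IsClosed SS := by
  have h1 : Continuous fun p : Tor × ℂ => ‖L p.1‖ := continuous_normL.comp continuous_fst
  exact (isClosed_eq (h1.smul continuous_snd) (continuous_chiL.comp continuous_fst)).inter
    (isClosed_eq continuous_snd.norm (continuous_chi.comp h1))

theorem isCompact_SS : IsCompact SS := by
  have h : IsCompact ((univ : Set Tor) ×ˢ Metric.closedBall (0 : ℂ) 1) :=
    isCompact_univ.prod (isCompact_closedBall _ _)
  refine h.of_isClosed_subset isClosed_SS fun p hp => ⟨mem_univ _, ?_⟩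
  rw [mem_closedBall_zero_iff, hp.2]
  exact chi_le_one _

instance : CompactSpace Surf := isCompact_iff_compactSpace.1 isCompact_SS

example : T2Space Surf := inferInstance

/-- The projection to the torus. -/
def tt (x : Surf) : Tor := x.1.1

/-- The direction coordinate. -/
def cc (x : Surf) : ℂ := x.1.2

/-- The distance to the boundary. -/
def rr (x : Surf) : ℝ := ‖L (tt x)‖

theorem Surf.ext {x y : Surf} (h1 : tt x = tt y) (h2 : cc x = cc y) : x = y :=
  Subtype.ext (Prod.ext h1 h2)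

theorem continuous_tt : Continuous tt := continuous_fst.comp continuous_subtype_val

theorem continuous_cc : Continuous cc := continuous_snd.comp continuous_subtype_val

theorem continuous_rr : Continuous rr := continuous_normL.comp continuous_tt

theorem rr_smul_cc (x : Surf) : rr x • cc x = chi (rr x) • L (tt x) := x.2.1

theorem norm_cc (x : Surf) : ‖cc x‖ = chi (rr x) := x.2.2

theorem rr_nonneg (x : Surf) : 0 ≤ rr x := norm_nonneg _

theorem rr_eq_zero {x : Surf} : rr x = 0 ↔ tt x = 1 := by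
  rw [rr, norm_eq_zero, L_eq_zero]

theorem rr_pos {x : Surf} : 0 < rr x ↔ tt x ≠ 1 := by
  rw [← not_iff_not, not_not, ← rr_eq_zero, not_lt]
  exact ⟨fun h => le_antisymm h (rr_nonneg x), fun h => h.le⟩

theorem norm_cc_of_le {x : Surf} (h : rr x ≤ 1) : ‖cc x‖ = 1 := by
  rw [norm_cc, chi_of_le h]

theorem L_tt_of_le {x : Surf} (h : rr x ≤ 1) : L (tt x) = rr x • cc x := by
  rw [rr_smul_cc, chi_of_le h, one_smul]

/-- The boundary point in direction `c`. -/
def bd (c : Circle) : Surf := ⟨(1, c), by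
  refine ⟨?_, ?_⟩
  · simp
  · simp [chi_of_le]⟩

@[simp] theorem tt_bd (c : Circle) : tt (bd c) = 1 := rfl
@[simp] theorem cc_bd (c : Circle) : cc (bd c) = c := rfl

theorem continuous_bd : Continuous bd :=
  Continuous.subtype_mk (continuous_const.prodMk continuous_circle_coe) _

open Classical in
/-- The interior point over `t ≠ 1`. -/
def emb (t : Tor) : Surf :=
  if h : t = 1 then bd 1 else ⟨(t, (chi ‖L t‖ / ‖L t‖) • L t), by
    have h0 : ‖L t‖ ≠ 0 := by rwa [Ne, norm_eq_zero, L_eq_zero]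
    refine ⟨?_, ?_⟩
    · change ‖L t‖ • ((chi ‖L t‖ / ‖L t‖) • L t) = chi ‖L t‖ • L t
      rw [smul_smul, mul_div_cancel₀ _ h0]
    · change ‖(chi ‖L t‖ / ‖L t‖) • L t‖ = chi ‖L t‖
      rw [norm_smul, Real.norm_eq_abs, abs_of_nonneg (div_nonneg (chi_nonneg _) (norm_nonneg _)),
        div_mul_cancel₀ _ h0]⟩

theorem tt_emb {t : Tor} (h : t ≠ 1) : tt (emb t) = t := by
  simp [emb, h, tt]

theorem cc_emb {t : Tor} (h : t ≠ 1) : cc (emb t) = (chi ‖L t‖ / ‖L t‖) • L t := by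
  simp [emb, h, cc]

theorem eq_emb {x : Surf} (h : tt x ≠ 1) : x = emb (tt x) := by
  refine Surf.ext (tt_emb h).symm ?_
  rw [cc_emb h]
  have h0 : rr x ≠ 0 := fun h' => h (rr_eq_zero.1 h')
  have := rr_smul_cc x
  calc cc x = (rr x)⁻¹ • (rr x • cc x) := by rw [smul_smul, inv_mul_cancel₀ h0, one_smul]
    _ = _ := by rw [this, smul_smul, div_eq_inv_mul]; rfl

theorem continuousAt_emb {t : Tor} (h : t ≠ 1) : ContinuousAt emb t := by
  have h0 : ‖L t‖ ≠ 0 := by rwa [Ne, norm_eq_zero, L_eq_zero]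
  have hd : ContinuousAt (fun s : Tor => (s, ‖L s‖⁻¹ • (chi ‖L s‖ • L s))) t :=
    continuousAt_id.prodMk ((continuous_normL.continuousAt.inv₀ h0).smul
      continuous_chiL.continuousAt)
  rw [Topology.IsInducing.subtypeVal.continuousAt_iff]
  refine hd.congr ?_
  filter_upwards [isOpen_compl_singleton.mem_nhds (show t ∈ ({1} : Set Tor)ᶜ from h)] with s hs
  have hs' : s ≠ 1 := hs
  refine Prod.ext (tt_emb hs').symm ?_
  change _ = cc (emb s)
  rw [cc_emb hs', smul_smul, div_eq_inv_mul]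

theorem pt_mem {r : ℝ} (c : Circle) (h0 : 0 ≤ r) (h1 : r ≤ 1) :
    ((ex (r • (c : ℂ)), (c : ℂ)) : Tor × ℂ) ∈ SS := by
  have hn : ‖r • (c : ℂ)‖ = r := by
    rw [norm_smul, Circle.norm_coe, mul_one, Real.norm_eq_abs, abs_of_nonneg h0]
  have hL : L (ex (r • (c : ℂ))) = r • (c : ℂ) :=
    L_ex_of_norm (by rw [hn]; linarith [Real.pi_gt_three])
  refine ⟨?_, ?_⟩
  · change ‖L (ex (r • (c : ℂ)))‖ • (c : ℂ) = chi ‖L (ex (r • (c : ℂ)))‖ • L (ex (r • (c : ℂ)))
    rw [hL, hn, chi_of_le h1, one_smul]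
  · change ‖(c : ℂ)‖ = chi ‖L (ex (r • (c : ℂ)))‖
    rw [hL, hn, chi_of_le h1, Circle.norm_coe]

open Classical in
/-- The point with polar coordinates `(r, c)`, for `0 ≤ r ≤ 1`. -/
def pt (r : ℝ) (c : Circle) : Surf :=
  if h : 0 ≤ r ∧ r ≤ 1 then ⟨(ex (r • (c : ℂ)), c), pt_mem c h.1 h.2⟩ else bd 1

theorem tt_pt {r : ℝ} (c : Circle) (h0 : 0 ≤ r) (h1 : r ≤ 1) :
    tt (pt r c) = ex (r • (c : ℂ)) := by
  simp [pt, h0, h1, tt]

theorem cc_pt {r : ℝ} (c : Circle) (h0 : 0 ≤ r) (h1 : r ≤ 1) : cc (pt r c) = c := by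
  simp [pt, h0, h1, cc]

theorem L_tt_pt {r : ℝ} (c : Circle) (h0 : 0 ≤ r) (h1 : r ≤ 1) :
    L (tt (pt r c)) = r • (c : ℂ) := by
  rw [tt_pt c h0 h1]
  refine L_ex_of_norm ?_
  rw [norm_smul, Circle.norm_coe, mul_one, Real.norm_eq_abs, abs_of_nonneg h0]
  linarith [Real.pi_gt_three]

theorem rr_pt {r : ℝ} (c : Circle) (h0 : 0 ≤ r) (h1 : r ≤ 1) : rr (pt r c) = r := by
  rw [rr, L_tt_pt c h0 h1, norm_smul, Circle.norm_coe, mul_one, Real.norm_eq_abs,
    abs_of_nonneg h0]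

theorem pt_zero (c : Circle) : pt 0 c = bd c := by
  refine Surf.ext ?_ ?_
  · rw [tt_pt c le_rfl zero_le_one, zero_smul, ex_zero, tt_bd]
  · rw [cc_pt c le_rfl zero_le_one, cc_bd]

open Classical in
/-- The direction of a complex number. -/
def nrm (ζ : ℂ) : Circle :=
  if h : ζ = 0 then 1 else ⟨ζ / ‖ζ‖, by
    have h' : ‖ζ‖ ≠ 0 := by rwa [Ne, norm_eq_zero]
    refine mem_sphere_zero_iff_norm.2 ?_
    rw [norm_div, Complex.norm_real, norm_norm, div_self h']⟩

theorem coe_nrm {ζ : ℂ} (h : ζ ≠ 0) : (nrm ζ : ℂ) = ζ / ‖ζ‖ := by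
  simp [nrm, h]

theorem norm_smul_nrm (ζ : ℂ) : ‖ζ‖ • (nrm ζ : ℂ) = ζ := by
  by_cases h : ζ = 0
  · simp [h]
  · have h' : (‖ζ‖ : ℂ) ≠ 0 := by
      rw [Ne, Complex.ofReal_eq_zero, norm_eq_zero]
      exact h
    rw [coe_nrm h, Complex.real_smul, mul_div_cancel₀ _ h']

theorem nrm_coe (c : Circle) : nrm (c : ℂ) = c := by
  refine Circle.ext ?_
  rw [coe_nrm (Circle.coe_ne_zero c), Circle.norm_coe]
  simp

theorem nrm_smul {r : ℝ} (hr : 0 < r) (ζ : ℂ) : nrm (r • ζ) = nrm ζ := by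
  by_cases h : ζ = 0
  · simp [h]
  · refine Circle.ext ?_
    rw [coe_nrm (smul_ne_zero hr.ne' h), coe_nrm h, norm_smul, Real.norm_eq_abs, abs_of_pos hr,
      Complex.real_smul, Complex.ofReal_mul]
    rw [mul_div_mul_left]
    exact Complex.ofReal_ne_zero.2 hr.ne'

theorem isInducing_coe : Topology.IsInducing (fun z : Circle => (z : ℂ)) := ⟨rfl⟩

theorem continuousAt_nrm {ζ : ℂ} (h : ζ ≠ 0) : ContinuousAt nrm ζ := by
  rw [isInducing_coe.continuousAt_iff]
  have h' : (‖ζ‖ : ℂ) ≠ 0 := by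
    rw [Ne, Complex.ofReal_eq_zero, norm_eq_zero]
    exact h
  have h1 : ContinuousAt (fun ζ : ℂ => ζ / ‖ζ‖) ζ :=
    continuousAt_id.div (Complex.continuous_ofReal.comp continuous_norm).continuousAt h'
  refine h1.congr ?_
  filter_upwards [isOpen_compl_singleton.mem_nhds (show ζ ∈ ({0} : Set ℂ)ᶜ from h)] with s hs
  exact (coe_nrm hs).symm

theorem emb_ex {ζ : ℂ} (h0 : ζ ≠ 0) (h1 : ‖ζ‖ ≤ 1) : emb (ex ζ) = pt ‖ζ‖ (nrm ζ) := by
  have hL : L (ex ζ) = ζ := L_ex_of_norm (by linarith [Real.pi_gt_three])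
  have hne : ex ζ ≠ 1 := by
    intro h
    rw [h, L_one] at hL
    exact h0 hL.symm
  refine Surf.ext ?_ ?_
  · rw [tt_emb hne, tt_pt _ (norm_nonneg _) h1, norm_smul_nrm]
  · rw [cc_emb hne, hL, cc_pt _ (norm_nonneg _) h1, coe_nrm h0, chi_of_le h1, Complex.real_smul,
      Complex.ofReal_div, Complex.ofReal_one]
    ring

/-- The direction coordinate as a point of the circle. -/
def cs (x : Surf) : Circle := nrm (cc x)

theorem coe_cs {x : Surf} (h : rr x ≤ 1) : (cs x : ℂ) = cc x := by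
  have h1 := norm_cc_of_le h
  have h0 : cc x ≠ 0 := by
    intro h'
    rw [h', norm_zero] at h1
    exact zero_ne_one h1
  rw [cs, coe_nrm h0, h1]
  simp

theorem eq_pt {x : Surf} (h : rr x ≤ 1) : x = pt (rr x) (cs x) := by
  refine Surf.ext ?_ ?_
  · rw [tt_pt _ (rr_nonneg x) h, coe_cs h, ← L_tt_of_le h, ex_L]
  · rw [cc_pt _ (rr_nonneg x) h, coe_cs h]

theorem eq_bd {x : Surf} (h : tt x = 1) : x = bd (cs x) := by
  have h0 : rr x = 0 := rr_eq_zero.2 h
  have := eq_pt (x := x) (by rw [h0]; exact zero_le_one)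
  rwa [h0, pt_zero] at this

@[simp] theorem cs_bd (c : Circle) : cs (bd c) = c := by
  rw [cs, cc_bd, nrm_coe]

theorem cs_pt {r : ℝ} (c : Circle) (h0 : 0 ≤ r) (h1 : r ≤ 1) : cs (pt r c) = c := by
  rw [cs, cc_pt c h0 h1, nrm_coe]

theorem continuousOn_pt :
    ContinuousOn (fun p : ℝ × Circle => pt p.1 p.2) {p | 0 ≤ p.1 ∧ p.1 ≤ 1} := by
  rw [Topology.IsInducing.subtypeVal.continuousOn_iff]
  have h : Continuous fun p : ℝ × Circle => ((ex (p.1 • (p.2 : ℂ)), (p.2 : ℂ)) : Tor × ℂ) :=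
    (continuous_ex.comp (continuous_fst.smul (continuous_circle_coe.comp continuous_snd))).prodMk
      (continuous_circle_coe.comp continuous_snd)
  refine h.continuousOn.congr fun p hp => ?_
  exact Prod.ext (tt_pt _ hp.1 hp.2) (cc_pt _ hp.1 hp.2)

end BD
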