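import Pool.Agent.Lib.MP_e8f12b_an.BD.Mfd

/-! Derivatives of the charts and of the maps in the preferred frames. -/

open scoped Manifold ContDiff Topology
open Set Real

noncomputable section

namespace BD

theorem hasMFDeriv_of {g : Surf → Surf} {x : Surf} {M : E2 →L[ℝ] E2} (hc : ContinuousAt g x)
    (h : HasFDerivWithinAt (expr (chartAt H2 x) (chartAt H2 (g x)) g) M (range (𝓡∂ 2))
      ((𝓡∂ 2) (chartAt H2 x x))) : HasMFDerivAt (𝓡∂ 2) (𝓡∂ 2) g x M := ⟨hc, h⟩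

theorem hasMFDeriv_symm_of {e : OpenPartialHomeomorph Surf H2} {y : H2} {M : E2 →L[ℝ] E2}
    (hy : y ∈ e.target)
    (h : HasFDerivWithinAt (fun z => (𝓡∂ 2) (chartAt H2 (e.symm y) (e.symm ((𝓡∂ 2).symm z)))) M
      (range (𝓡∂ 2)) y.1) : HasMFDerivAt (𝓡∂ 2) (𝓡∂ 2) e.symm y M :=
  ⟨e.symm.continuousAt hy, h⟩

theorem loc_int_id {t₀ : Tor} {p : E2} (hp : 0 ≤ p 0) (h : t₀ * ex (sh p) ≠ 1) :
    Loc (fun z => (intC t₀).symm ((𝓡∂ 2).symm z)) t₀ sh (range (𝓡∂ 2)) p := by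
  have h1 := Mx.one.loc_int hp h
  simpa only [Mx.one_map, Mx.one_hom, Mx.one_lin] using h1

theorem loc_col_id {c₀ : Circle} {p : E2} (hp : 0 < p 0) (hp1 : p 0 < 1 / 2) :
    Loc (fun z => (colC c₀).symm ((𝓡∂ 2).symm z)) 1 (pol c₀) (range (𝓡∂ 2)) p := by
  have h1 := Mx.one.loc_col (c₀ := c₀) hp hp1
  simp only [Mx.one_map, Mx.one_lin] at h1
  exact h1

theorem mem_chartAt_int {x : Surf} (h : tt x ≠ 1) : x ∈ (intC (tt x)).source := by
  refine ⟨h, ?_⟩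
  rw [div_self']
  exact one_mem_slit

theorem intC_symm_deriv {t₀ : Tor} {y : H2} (hy : y ∈ (intC t₀).target) :
    HasMFDerivAt (𝓡∂ 2) (𝓡∂ 2) (intC t₀).symm y (mat 1 0 0 1) := by
  refine hasMFDeriv_symm_of hy ?_
  have h := hy.2
  have ht : tt ((intC t₀).symm y) ≠ 1 := by
    rw [intC_symm, tt_emb h]
    exact h
  rw [chartAt_int ht]
  refine (loc_int_id y.2 h).int_hasFDeriv hasFDeriv_sh ?_
  have : (𝓡∂ 2).symm y.1 = y := (𝓡∂ 2).left_inv y
  rw [this]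
  exact mem_chartAt_int ht

/-- The derivative of the inverse of a boundary chart at interior points. -/
def J (r : ℝ) (c : ℂ) : E2 →L[ℝ] E2 := mat (c.re / r) (-(r * c.im)) (c.im / r) (r * c.re)

theorem tt_colC_symm {c₀ : Circle} {y : H2} (hy : y ∈ (colC c₀).target) (h0 : 0 < y.1 0) :
    tt ((colC c₀).symm y) ≠ 1 := by
  rw [colC_symm, tt_pt_pol c₀ hy.1]
  exact ex_pol_ne_one c₀ h0 hy.1

theorem colC_symm_deriv {c₀ : Circle} {y : H2} (hy : y ∈ (colC c₀).target) (h0 : 0 < y.1 0) :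
    HasMFDerivAt (𝓡∂ 2) (𝓡∂ 2) (colC c₀).symm y (J √(2 * y.1 0) (cz c₀ y.1)) := by
  refine hasMFDeriv_symm_of hy ?_
  have ht := tt_colC_symm hy h0
  rw [chartAt_int ht]
  refine (loc_col_id h0 hy.1).int_hasFDeriv (hasFDeriv_pol c₀ h0) ?_
  have : (𝓡∂ 2).symm y.1 = y := (𝓡∂ 2).left_inv y
  rw [this]
  exact mem_chartAt_int ht

theorem colC_symm_bd {c₀ : Circle} {y : H2} (h0 : y.1 0 = 0) :
    (colC c₀).symm y = bd (cz c₀ y.1) := by
  rw [colC_symm, h0, mul_zero, Real.sqrt_zero, pt_zero]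

theorem colC_symm_deriv0 {c₀ : Circle} {y : H2} (hy : y ∈ (colC c₀).target) (h0 : y.1 0 = 0) :
    HasMFDerivAt (𝓡∂ 2) (𝓡∂ 2) (colC c₀).symm y (mat 1 0 0 1) := by
  refine hasMFDeriv_symm_of hy ?_
  rw [colC_symm_bd h0, chartAt_bd (tt_bd _), cs_bd]
  have h1 : Mx.one.lin (cz c₀ y.1) / (cz c₀ y.1 : ℂ) ∈ Complex.slitPlane := by
    rw [Mx.one_lin, div_self (Circle.coe_ne_zero _)]
    exact Complex.one_mem_slitPlane
  have h2 := Mx.one.hasFDeriv_Fcol (S := range (𝓡∂ 2)) c₀ (cz c₀ y.1) h1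
  have e1 := Mx.one.col_ev c₀ (cz c₀ y.1) h0
  have h3 := h2.congr_of_eventuallyEq e1
    (e1.self_of_nhdsWithin (by rw [range_I]; exact y.2))
  simp only [Mx.one_map, Mx.one_lin, Circle.norm_coe, h0] at h3
  convert h3 using 2 <;> norm_num

namespace Mx

variable (B : Mx)

theorem map_deriv_int {x : Surf} (h : tt x ≠ 1) :
    HasMFDerivAt (𝓡∂ 2) (𝓡∂ 2) B.map x (mat B.a B.b B.c B.d) := by
  refine hasMFDeriv_of B.continuous_map.continuousAt ?_
  have h1 : tt (B.map x) ≠ 1 := by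
    rw [B.tt_map]
    exact B.hom_ne_one h
  rw [chartAt_int h, chartAt_int h1]
  set p : E2 := (𝓡∂ 2) (intC (tt x) x) with hpdef
  have hp : 0 ≤ p 0 := (intC (tt x) x).2
  have hx : (𝓡∂ 2).symm p = intC (tt x) x := (𝓡∂ 2).left_inv _
  have hsrc := mem_chartAt_int h
  have hne : tt x * ex (sh p) ≠ 1 := ((intC (tt x)).map_source hsrc).2
  have hφ : HasFDerivWithinAt (fun z => B.lin (sh z)) (matC B.a B.b B.c B.d)
      (range (𝓡∂ 2)) p := by
    have h2 := B.linL.hasFDerivAt.comp_hasFDerivWithinAt p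
      (hasFDeriv_sh (S := range (𝓡∂ 2)) (p := p))
    refine h2.congr_fderiv ?_
    refine ContinuousLinearMap.ext fun v => ?_
    rw [ContinuousLinearMap.comp_apply, linL_apply]
    refine Complex.ext ?_ ?_ <;> simp
  refine (B.loc_int hp hne).int_hasFDeriv hφ ?_
  rw [hx, (intC (tt x)).left_inv hsrc]
  exact mem_chartAt_int h1

theorem map_deriv_bd (c : Circle) :
    HasMFDerivAt (𝓡∂ 2) (𝓡∂ 2) B.map (bd c)
      (mat (‖B.lin c‖ ^ 2) 0 0 (1 / ‖B.lin c‖ ^ 2)) := by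
  refine hasMFDeriv_of B.continuous_map.continuousAt ?_
  rw [B.map_bd, chartAt_bd (tt_bd _), chartAt_bd (tt_bd _), cs_bd, cs_bd, colC_val]
  have hr : rr (bd c) = 0 := rr_eq_zero.2 (tt_bd c)
  have ha : ((cs (bd c) / c : Circle) : ℂ).arg = 0 := by
    rw [cs_bd, div_self', Circle.coe_one, Complex.arg_one]
  rw [hr, ha]
  set p : E2 := BD.mk ((0 : ℝ) ^ 2 / 2) 0 with hpdef
  have hp0 : p 0 = 0 := by rw [hpdef, mk_zero]; norm_num
  have hp1 : p 1 = 0 := rfl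
  have hcz : cz c p = c := by rw [cz, hp1, Circle.exp_zero, mul_one]
  have hB : B.lin c ≠ 0 := B.lin_ne_zero (Circle.coe_ne_zero c)
  have h1 : B.lin (cz c p) / (nrm (B.lin c) : ℂ) ∈ Complex.slitPlane := by
    rw [hcz, ← slitPlane_nrm hB, div_self']
    exact Complex.one_mem_slitPlane
  have h2 := B.hasFDeriv_Fcol (S := range (𝓡∂ 2)) c (nrm (B.lin c)) h1
  have e1 := B.col_ev c (nrm (B.lin c)) hp0
  have h3 := h2.congr_of_eventuallyEq e1
    (e1.self_of_nhdsWithin (by rw [range_I]; exact hp0.ge))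
  rw [hcz, hp0, zero_mul] at h3
  exact h3

end Mx

end BD
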