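import Pool.Agent.Lib.MP_e8f12b_an.BD.Pre

/-! The torus, its exponential map and logarithm. -/

open scoped Manifold ContDiff Topology
open Set Real

noncomputable section

namespace BD

theorem continuous_circle_coe : Continuous fun z : Circle => (z : ℂ) := continuous_subtype_val

/-- The torus. -/
abbrev Tor := Circle × Circle

/-- The principal logarithm: `L t = arg t₁ + i arg t₂`. -/
def L (t : Tor) : ℂ := ⟨(t.1 : ℂ).arg, (t.2 : ℂ).arg⟩

/-- The exponential map `ℂ → Tor`. -/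
def ex (ζ : ℂ) : Tor := (Circle.exp ζ.re, Circle.exp ζ.im)

/-- The slit torus. -/
def slit : Set Tor := {t | (t.1 : ℂ) ∈ Complex.slitPlane ∧ (t.2 : ℂ) ∈ Complex.slitPlane}

@[simp] theorem L_re (t : Tor) : (L t).re = (t.1 : ℂ).arg := rfl
@[simp] theorem L_im (t : Tor) : (L t).im = (t.2 : ℂ).arg := rfl

@[simp] theorem ex_L (t : Tor) : ex (L t) = t :=
  Prod.ext (Circle.exp_arg t.1) (Circle.exp_arg t.2)

theorem L_ex {ζ : ℂ} (h1 : -π < ζ.re) (h2 : ζ.re ≤ π) (h3 : -π < ζ.im) (h4 : ζ.im ≤ π) :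
    L (ex ζ) = ζ :=
  Complex.ext (Circle.arg_exp h1 h2) (Circle.arg_exp h3 h4)

theorem L_ex_of_norm {ζ : ℂ} (h : ‖ζ‖ < π) : L (ex ζ) = ζ := by
  have h1 := abs_lt.1 ((Complex.abs_re_le_norm ζ).trans_lt h)
  have h2 := abs_lt.1 ((Complex.abs_im_le_norm ζ).trans_lt h)
  exact L_ex h1.1 h1.2.le h2.1 h2.2.le

theorem ex_add (a b : ℂ) : ex (a + b) = ex a * ex b :=
  Prod.ext (Circle.exp_add _ _) (Circle.exp_add _ _)

@[simp] theorem ex_zero : ex 0 = 1 := Prod.ext Circle.exp_zero Circle.exp_zero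

theorem ex_neg (a : ℂ) : ex (-a) = (ex a)⁻¹ :=
  Prod.ext (Circle.exp_neg _) (Circle.exp_neg _)

theorem ex_sub (a b : ℂ) : ex (a - b) = ex a / ex b :=
  Prod.ext (Circle.exp_sub _ _) (Circle.exp_sub _ _)

theorem L_eq_zero {t : Tor} : L t = 0 ↔ t = 1 := by
  constructor
  · intro h
    rw [← ex_L t, h, ex_zero]
  · rintro rfl
    exact Complex.ext (by simp) (by simp)

@[simp] theorem L_one : L 1 = 0 := L_eq_zero.2 rfl

theorem L_injective : Function.Injective L := fun s t h => by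
  rw [← ex_L s, h, ex_L]

theorem continuous_ex : Continuous ex :=
  (Circle.exp.continuous.comp Complex.continuous_re).prodMk
    (Circle.exp.continuous.comp Complex.continuous_im)

theorem mem_slit_iff {t : Tor} : t ∈ slit ↔ |(L t).re| < π ∧ |(L t).im| < π := by
  have key : ∀ z : Circle, (z : ℂ) ∈ Complex.slitPlane ↔ |(z : ℂ).arg| < π := by
    intro z
    rw [Complex.mem_slitPlane_iff_arg, abs_lt]
    refine ⟨fun h => ⟨Complex.neg_pi_lt_arg _, lt_of_le_of_ne (Complex.arg_le_pi _) h.1⟩,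
      fun h => ⟨h.2.ne, Circle.coe_ne_zero z⟩⟩
  simp [slit, key]

theorem isOpen_slit : IsOpen slit :=
  (Complex.isOpen_slitPlane.preimage (continuous_circle_coe.comp continuous_fst)).inter
    (Complex.isOpen_slitPlane.preimage (continuous_circle_coe.comp continuous_snd))

theorem continuousAt_L {t : Tor} (h : t ∈ slit) : ContinuousAt L t := by
  have h1 : ContinuousAt (fun t : Tor => (t.1 : ℂ).arg) t :=
    ContinuousAt.comp (g := Complex.arg) (f := fun t : Tor => (t.1 : ℂ))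
      (Complex.continuousAt_arg h.1) (continuous_circle_coe.comp continuous_fst).continuousAt
  have h2 : ContinuousAt (fun t : Tor => (t.2 : ℂ).arg) t :=
    ContinuousAt.comp (g := Complex.arg) (f := fun t : Tor => (t.2 : ℂ))
      (Complex.continuousAt_arg h.2) (continuous_circle_coe.comp continuous_snd).continuousAt
  have h3 := (Complex.equivRealProdCLM.symm.continuous.continuousAt).comp (h1.prodMk h2)
  exact h3

theorem ex_mem_slit {ζ : ℂ} (h1 : |ζ.re| < π) (h2 : |ζ.im| < π) : ex ζ ∈ slit := by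
  rw [mem_slit_iff, L_ex (abs_lt.1 h1).1 (abs_lt.1 h1).2.le (abs_lt.1 h2).1 (abs_lt.1 h2).2.le]
  exact ⟨h1, h2⟩

theorem mem_slit_of_norm {t : Tor} (h : ‖L t‖ < π) : t ∈ slit :=
  mem_slit_iff.2 ⟨(Complex.abs_re_le_norm _).trans_lt h, (Complex.abs_im_le_norm _).trans_lt h⟩

theorem one_mem_slit : (1 : Tor) ∈ slit := mem_slit_of_norm (by simp [Real.pi_pos])

/-- The norm of the logarithm is continuous on the torus. -/
theorem continuous_normL : Continuous fun t : Tor => ‖L t‖ := by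
  have key : Continuous fun z : Circle => |(z : ℂ).arg| := by
    have h : (fun z : Circle => |(z : ℂ).arg|) =
        fun z : Circle => InnerProductGeometry.angle (1 : ℂ) (z : ℂ) := by
      funext z
      exact (Complex.angle_one_left (Circle.coe_ne_zero z)).symm
    rw [h, continuous_iff_continuousAt]
    intro z
    exact ContinuousAt.comp
      (g := fun y : ℂ × ℂ => InnerProductGeometry.angle y.1 y.2)
      (f := fun z : Circle => ((1 : ℂ), (z : ℂ)))
      (InnerProductGeometry.continuousAt_angle (x := ((1 : ℂ), (z : ℂ))) one_ne_zero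
        (Circle.coe_ne_zero z)) (continuous_const.prodMk continuous_circle_coe).continuousAt
  have h : (fun t : Tor => ‖L t‖) =
      fun t : Tor => √(|(t.1 : ℂ).arg| ^ 2 + |(t.2 : ℂ).arg| ^ 2) := by
    funext t
    rw [Complex.norm_eq_sqrt_sq_add_sq, L_re, L_im, sq_abs, sq_abs]
  rw [h]
  exact (((key.comp continuous_fst).pow 2).add ((key.comp continuous_snd).pow 2)).sqrt

/-- Locally `L (s * ex ζ)` is a translation. -/
theorem L_mul_ex {s : Tor} {ζ₀ : ℂ} (h : s * ex ζ₀ ∈ slit) :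
    ∀ᶠ ζ in 𝓝 ζ₀, L (s * ex ζ) = L (s * ex ζ₀) + (ζ - ζ₀) := by
  obtain ⟨h1, h2⟩ := mem_slit_iff.1 h
  have c1 : ContinuousAt (fun ζ => (L (s * ex ζ₀) + (ζ - ζ₀)).re) ζ₀ := by fun_prop
  have c2 : ContinuousAt (fun ζ => (L (s * ex ζ₀) + (ζ - ζ₀)).im) ζ₀ := by fun_prop
  have e1 := c1.abs.eventually_lt (continuousAt_const (y := π)) (by simpa using h1)
  have e2 := c2.abs.eventually_lt (continuousAt_const (y := π)) (by simpa using h2)
  filter_upwards [e1, e2] with ζ a1 a2
  have : s * ex ζ = ex (L (s * ex ζ₀) + (ζ - ζ₀)) := by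
    rw [ex_add, ex_L, mul_assoc, ← ex_add]
    congr 2
    ring
  rw [this, L_ex (abs_lt.1 a1).1 (abs_lt.1 a1).2.le (abs_lt.1 a2).1 (abs_lt.1 a2).2.le]

/-- The cut-off function. -/
def chi (r : ℝ) : ℝ := max 0 (min 1 (2 - r))

theorem continuous_chi : Continuous chi := by unfold chi; fun_prop

theorem chi_of_le {r : ℝ} (h : r ≤ 1) : chi r = 1 := by
  unfold chi
  rw [min_eq_left (by linarith)]
  simp

theorem chi_of_ge {r : ℝ} (h : 2 ≤ r) : chi r = 0 := by
  unfold chi
  rw [max_eq_left]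
  exact (min_le_right _ _).trans (by linarith)

theorem chi_nonneg (r : ℝ) : 0 ≤ chi r := le_max_left _ _

theorem chi_le_one (r : ℝ) : chi r ≤ 1 := max_le zero_le_one (min_le_left _ _)

end BD
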