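import Pool.Agent.Lib.MP_e8f12b_an.BD.NearC
import Pool.Agent.Lib.MP_e8f12b_an.BD.NUH

/-! Weak stability. -/

open scoped Manifold ContDiff Topology
open Set Real

noncomputable section

namespace BD

/-- The derivative of a map preserving the boundary maps the boundary direction to itself. -/
theorem bd_dir {h : Surf → Surf} {x : Surf} (hx : tt x = 1)
    (hh : MDifferentiableAt (𝓡∂ 2) (𝓡∂ 2) h x) (hb : ∀ y, tt y = 1 → tt (h y) = 1) :
    ∃ t : ℝ, mfderiv (𝓡∂ 2) (𝓡∂ 2) h x (bv 1) = (t • bv 1 : E2) := by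
  obtain ⟨c, rfl⟩ : ∃ c, x = bd c := ⟨_, eq_bd hx⟩
  have h1 := hh.hasMFDerivAt.2
  obtain ⟨D, hD⟩ : ∃ D : E2 →L[ℝ] E2, D = mfderiv (𝓡∂ 2) (𝓡∂ 2) h (bd c) := ⟨_, rfl⟩
  have e1 : chartAt H2 (bd c) = colC c := by rw [chartAt_bd (tt_bd _), cs_bd]
  have e2 : chartAt H2 (h (bd c)) = colC (cs (h (bd c))) := chartAt_bd (hb _ (tt_bd c))
  have h2 : HasFDerivWithinAt (expr (chartAt H2 (bd c)) (chartAt H2 (h (bd c))) h)
      D (range (𝓡∂ 2)) ((𝓡∂ 2) (chartAt H2 (bd c) (bd c))) := by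
    rw [hD]
    exact h1
  rw [e1, e2, colC_bd] at h2
  have h3 : ∀ z : E2, z 0 = 0 → expr (colC c) (colC (cs (h (bd c)))) h z 0 = 0 := by
    intro z hz
    have h4 : (colC c).symm ((𝓡∂ 2).symm z) = bd (cz c z) := by
      rw [colC_symm_I c hz.ge, hz, mul_zero, Real.sqrt_zero, pt_zero]
    rw [expr, h4, colC_val, mk_zero, rr_eq_zero.2 (hb _ (tt_bd _))]
    norm_num
  have h5 := partial_zero h2 (mk_zero _ _) h3
  have h6 : D (bv 1) = D (bv 1) 1 • bv 1 := E2.ext (by rw [h5]; simp) (by simp)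
  refine ⟨D (bv 1) 1, ?_⟩
  rw [← hD]
  exact h6

theorem posM_iter (g : Dfm)
    (hg : ∀ y, tt y ≠ 1 → PosM (mfderiv (𝓡∂ 2) (𝓡∂ 2) g y)) (n : ℕ) (x : Surf) (hx : tt x ≠ 1) :
    tt (g^[n] x) ≠ 1 ∧ PosM (mfderiv (𝓡∂ 2) (𝓡∂ 2) (g^[n + 1]) x) := by
  have hmd : MDifferentiable (𝓡∂ 2) (𝓡∂ 2) g := g.contMDiff.mdifferentiable (by simp)
  induction n with
  | zero =>
    refine ⟨hx, ?_⟩
    have h1 : (g^[0 + 1] : Surf → Surf) = g := by
      rw [zero_add, Function.iterate_one]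
    rw [h1]
    exact hg x hx
  | succ n ih =>
    have h1 : tt (g^[n + 1] x) ≠ 1 := by
      rw [Function.iterate_succ_apply']
      exact fun h => ih.1 ((g.tt_eq_one).1 h)
    refine ⟨h1, ?_⟩
    rw [Function.iterate_succ', mfderiv_comp x (hmd _) (md_iter hmd (n + 1) x)]
    exact PosM.comp (hg _ h1) ih.2

theorem not_elliptic (g : Dfm)
    (hg : ∀ y, tt y ≠ 1 → PosM (mfderiv (𝓡∂ 2) (𝓡∂ 2) g y)) (p : Surf) : ¬ Elliptic g p := by
  rintro ⟨n, hn, hp, hell⟩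
  have hmd : MDifferentiable (𝓡∂ 2) (𝓡∂ 2) g := g.contMDiff.mdifferentiable (by simp)
  by_cases h : tt p = 1
  · have hb : ∀ (k : ℕ) (y : Surf), tt y = 1 → tt (g^[k] y) = 1 := by
      intro k
      induction k with
      | zero => exact fun y hy => hy
      | succ k ih =>
        intro y hy
        rw [Function.iterate_succ_apply']
        exact (g.tt_eq_one).2 (ih y hy)
    obtain ⟨t, ht⟩ := bd_dir h (md_iter hmd n p) (hb n)
    have h1 := hell t (bv 1) ht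
    have h2 : (bv 1 : E2) 1 = (0 : E2) 1 := by rw [h1]
    simp at h2
  · obtain ⟨m, rfl⟩ : ∃ m, n = m + 1 := ⟨n - 1, by omega⟩
    obtain ⟨t, v, hv, htv⟩ := (posM_iter g hg m p h).2.eigen
    exact hv (hell t v htv)

theorem weaklyStable_of {f : Surf → Surf} (h : ∀ x, LocalPos f x) :
    ∃ l : List (Datum Surf), (∀ D ∈ l, MapsTo f D.K D.e'.source) ∧
      ∀ g : Dfm, (∀ D ∈ l, D.Near f g) → ∀ p, ¬ Elliptic g p := by
  classical
  choose D hD using h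
  obtain ⟨t, ht⟩ := CompactSpace.elim_nhds_subcover (fun x => (D x).K) fun x => (hD x).1
  refine ⟨t.toList.map D, ?_, ?_⟩
  · intro E hE
    obtain ⟨x, -, rfl⟩ := List.mem_map.1 hE
    exact (hD x).2.1
  · intro g hg
    refine not_elliptic g fun y hy => ?_
    have h1 : y ∈ ⋃ x ∈ t, (D x).K := by
      rw [ht]
      trivial
    obtain ⟨x, hx, hyx⟩ := mem_iUnion₂.1 h1
    have h2 : (D x).Near f g := hg _ (List.mem_map.2 ⟨x, Finset.mem_toList.2 hx, rfl⟩)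
    exact (hD x).2.2 g h2 y hyx hy fun h3 => hy ((g.tt_eq_one).1 h3)

theorem Mx.localPos (B : Mx) (ha : 1 ≤ B.a) (hb : 1 ≤ B.b) (hc : 1 ≤ B.c) (hd : 1 ≤ B.d)
    (x : Surf) : LocalPos B.map x := by
  by_cases h : tt x = 1
  · rw [eq_bd h]
    exact B.localPos_bd ha hb hc hd _
  · exact B.localPos_int ha hb hc hd h

end BD
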